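import Mathlib

/-!
Working class for discretely ordered semirings with exponentiation, the semantic class of
bounded (Delta zero) relations, product contexts.
-/

namespace Pool.Agent.H54

universe u

/-- Discretely ordered commutative semirings with a base two exponential. -/
class AS (M : Type u) extends CommSemiring M, LinearOrder M, IsStrictOrderedRing M,
    CanonicallyOrderedAdd M where
  ex2 : M → M
  ex2_zero : ex2 0 = 1
  ex2_dbl : ∀ x : M, ex2 (x + 1) = ex2 x + ex2 x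
  lt_succ : ∀ x y : M, x < y + 1 ↔ x ≤ y

export AS (ex2 ex2_zero lt_succ)

theorem ex2_succ {M : Type u} [AS M] (x : M) : ex2 (x + 1) = 2 * ex2 x := by
  rw [AS.ex2_dbl, two_mul]

/-- term functions in `n` variables (parameters allowed) -/
inductive Tm0 {M : Type u} [AS M] {n : ℕ} : ((Fin n → M) → M) → Prop
  | var (i : Fin n) : Tm0 (fun v => v i)
  | const (a : M) : Tm0 (fun _ => a)
  | add {s t : (Fin n → M) → M} : Tm0 s → Tm0 t → Tm0 (fun v => s v + t v)
  | mul {s t : (Fin n → M) → M} : Tm0 s → Tm0 t → Tm0 (fun v => s v * t v)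
  | exp {s : (Fin n → M) → M} : Tm0 s → Tm0 (fun v => ex2 (s v))

/-- bounded relations in `n` variables (parameters allowed) -/
inductive IsD0 {M : Type u} [AS M] : {n : ℕ} → ((Fin n → M) → Prop) → Prop
  | eq {n : ℕ} {s t : (Fin n → M) → M} : Tm0 s → Tm0 t → IsD0 (fun v => s v = t v)
  | lt {n : ℕ} {s t : (Fin n → M) → M} : Tm0 s → Tm0 t → IsD0 (fun v => s v < t v)
  | bot {n : ℕ} : IsD0 (fun _ : Fin n → M => False)
  | imp {n : ℕ} {R S : (Fin n → M) → Prop} : IsD0 R → IsD0 S → IsD0 (fun v => R v → S v)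
  | ball {n : ℕ} {t : (Fin n → M) → M} {R : (Fin (n + 1) → M) → Prop} :
      Tm0 t → IsD0 R → IsD0 (fun v => ∀ x, x < t v → R (Fin.snoc v x))

section

variable {M : Type u} [AS M]

theorem Tm0.comp {n m : ℕ} {s : (Fin n → M) → M} (hs : Tm0 s) {g : Fin n → (Fin m → M) → M}
    (hg : ∀ i, Tm0 (g i)) : Tm0 (fun v => s (fun i => g i v)) := by
  induction hs with
  | var i => exact hg i
  | const a => exact Tm0.const a
  | add _ _ h1 h2 => exact Tm0.add h1 h2
  | mul _ _ h1 h2 => exact Tm0.mul h1 h2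
  | exp _ h1 => exact Tm0.exp h1

theorem IsD0.comp {n m : ℕ} {R : (Fin n → M) → Prop} (hR : IsD0 R) {g : Fin n → (Fin m → M) → M}
    (hg : ∀ i, Tm0 (g i)) : IsD0 (fun v => R (fun i => g i v)) := by
  induction hR generalizing m with
  | eq h1 h2 => exact IsD0.eq (h1.comp hg) (h2.comp hg)
  | lt h1 h2 => exact IsD0.lt (h1.comp hg) (h2.comp hg)
  | bot => exact IsD0.bot
  | imp _ _ h1 h2 => exact IsD0.imp (h1 hg) (h2 hg)
  | @ball n t R ht _ ih =>
    have key : ∀ (v : Fin m → M) (x : M),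
        (Fin.snoc (fun i => g i v) x : Fin (n + 1) → M) =
        fun i => (Fin.snoc (α := fun _ => (Fin (m + 1) → M) → M)
          (fun (i : Fin n) (w : Fin (m + 1) → M) => g i (Fin.init w)) (fun w => w (Fin.last m)) i)
          (Fin.snoc v x) := by
      intro v x
      funext i
      refine Fin.lastCases ?_ (fun i => ?_) i
      · simp
      · simp
    have h2 := IsD0.ball (n := m) (t := fun v => t (fun i => g i v)) (ht.comp hg)
      (ih (m := m + 1) (g := Fin.snoc (α := fun _ => (Fin (m + 1) → M) → M)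
        (fun (i : Fin n) (w : Fin (m + 1) → M) => g i (Fin.init w)) (fun w => w (Fin.last m)))
        (by
          intro i
          refine Fin.lastCases ?_ (fun i => ?_) i
          · simpa using Tm0.var (Fin.last m)
          · simp only [Fin.snoc_castSucc]
            have := (hg i).comp (g := fun (i : Fin m) (w : Fin (m + 1) → M) => Fin.init w i)
              (fun j => Tm0.var j.castSucc)
            exact this))
    have h3 : (fun v : Fin m → M => ∀ x, x < t (fun i => g i v) → R (Fin.snoc (fun i => g i v) x)) =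
      (fun v => ∀ x, x < t (fun i => g i v) → R (fun i => (Fin.snoc (α := fun _ => (Fin (m + 1) → M) → M)
          (fun (i : Fin n) (w : Fin (m + 1) → M) => g i (Fin.init w)) (fun w => w (Fin.last m)) i)
          (Fin.snoc v x))) := by
      funext v
      refine propext (forall_congr' fun x => ?_)
      rw [key v x]
    rw [h3]
    exact h2

/-- Contexts: types which are finite powers of `M` -/
class Cx (M : outParam (Type u)) (Γ : Type u) where
  n : ℕ
  e : Γ → (Fin n → M)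
  d : (Fin n → M) → Γ
  de : ∀ γ, d (e γ) = γ
  ed : ∀ v, e (d v) = v

instance Cx.base : Cx M M where
  n := 1
  e x := fun _ => x
  d v := v 0
  de _ := rfl
  ed v := by funext i; rw [Subsingleton.elim i 0]

instance Cx.prod {Γ : Type u} [Cx M Γ] : Cx M (Γ × M) where
  n := Cx.n Γ + 1
  e w := Fin.snoc (Cx.e w.1) w.2
  d v := (Cx.d (Fin.init v), v (Fin.last _))
  de w := by
    ext
    · simp [Cx.de]
    · simp
  ed v := by simp [Cx.ed]

variable {Γ Δ : Type u} [Cx M Γ] [Cx M Δ]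

/-- maps between contexts whose coordinates are terms -/
class Tm (g : Γ → Δ) : Prop where
  tm : ∀ i, Tm0 (fun v => Cx.e (g (Cx.d v)) i)

/-- bounded relations on contexts -/
class D0 (R : Γ → Prop) : Prop where
  d0 : IsD0 (fun v => R (Cx.d v))

instance Tm.id : Tm (fun γ : Γ => γ) := ⟨fun i => by
  simp only [Cx.ed]
  exact Tm0.var i⟩

instance Tm.fst (g : Γ → Δ × M) [hg : Tm g] : Tm (fun γ => (g γ).1) := ⟨fun i => by
  have := hg.tm i.castSucc
  simpa [Cx.e] using this⟩

instance Tm.snd (g : Γ → Δ × M) [hg : Tm g] : Tm (fun γ => (g γ).2) := ⟨fun i => by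
  have := hg.tm (Fin.last _)
  simpa [Cx.e] using this⟩

instance (priority := low) Tm.pair (g : Γ → Δ) (h : Γ → M) [hg : Tm g] [hh : Tm h] :
    Tm (fun γ => (g γ, h γ)) := ⟨fun i => by
  refine Fin.lastCases ?_ (fun i => ?_) i
  · have := hh.tm 0
    simpa [Cx.e] using this
  · have := hg.tm i
    simpa [Cx.e] using this⟩

instance Tm.const (a : Δ) : Tm (fun _ : Γ => a) := ⟨fun _ => Tm0.const _⟩
instance Tm.add (f g : Γ → M) [hf : Tm f] [hg : Tm g] : Tm (fun γ => f γ + g γ) :=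
  ⟨fun i => Tm0.add (hf.tm i) (hg.tm i)⟩
instance Tm.mul (f g : Γ → M) [hf : Tm f] [hg : Tm g] : Tm (fun γ => f γ * g γ) :=
  ⟨fun i => Tm0.mul (hf.tm i) (hg.tm i)⟩
instance Tm.exp (f : Γ → M) [hf : Tm f] : Tm (fun γ => ex2 (f γ)) :=
  ⟨fun i => Tm0.exp (hf.tm i)⟩

theorem D0.comp {R : Δ → Prop} (hR : D0 R) (g : Γ → Δ) [hg : Tm g] : D0 (fun γ => R (g γ)) := by
  constructor
  have := hR.d0.comp (g := fun i v => Cx.e (g (Cx.d v)) i) (fun i => hg.tm i)
  simpa only [Cx.de] using this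

theorem Tm.comp {Ξ : Type u} [Cx M Ξ] {f : Δ → Ξ} (hf : Tm f) (g : Γ → Δ) [hg : Tm g] :
    Tm (fun γ => f (g γ)) := by
  constructor
  intro i
  have := (hf.tm i).comp (g := fun i v => Cx.e (g (Cx.d v)) i) (fun i => hg.tm i)
  simpa only [Cx.de] using this

theorem D0.subst {R : Γ × M → Prop} (hR : D0 R) (t : Γ → M) [ht : Tm t] :
    D0 (fun γ => R (γ, t γ)) := hR.comp _

instance D0.eq (f g : Γ → M) [hf : Tm f] [hg : Tm g] : D0 (fun γ => f γ = g γ) :=
  ⟨IsD0.eq (hf.tm 0) (hg.tm 0)⟩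
instance D0.lt (f g : Γ → M) [hf : Tm f] [hg : Tm g] : D0 (fun γ => f γ < g γ) :=
  ⟨IsD0.lt (hf.tm 0) (hg.tm 0)⟩
instance D0.bot : D0 (fun _ : Γ => False) := ⟨IsD0.bot⟩
instance D0.imp (R S : Γ → Prop) [hR : D0 R] [hS : D0 S] : D0 (fun γ => R γ → S γ) :=
  ⟨IsD0.imp hR.d0 hS.d0⟩

theorem D0.congr {R S : Γ → Prop} (hR : D0 R) (h : ∀ γ, S γ ↔ R γ) : D0 S := by
  have : S = R := funext fun γ => propext (h γ)
  rw [this]; exact hR

instance D0.not (R : Γ → Prop) [hR : D0 R] : D0 (fun γ => ¬ R γ) :=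
  (D0.imp R (fun _ => False)).congr fun _ => Iff.rfl

instance D0.top : D0 (fun _ : Γ => True) :=
  (D0.not (Γ := Γ) (fun _ => False)).congr fun _ => by simp

theorem D0.constP (p : Prop) : D0 (fun _ : Γ => p) := by
  by_cases h : p
  · exact (D0.top (Γ := Γ)).congr (fun _ => by simp [h])
  · exact (D0.bot (Γ := Γ)).congr (fun _ => by simp [h])

instance D0.or (R S : Γ → Prop) [hR : D0 R] [hS : D0 S] : D0 (fun γ => R γ ∨ S γ) :=
  (D0.imp (fun γ => ¬ R γ) S).congr fun γ => by tauto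

instance D0.and (R S : Γ → Prop) [hR : D0 R] [hS : D0 S] : D0 (fun γ => R γ ∧ S γ) :=
  (D0.not (fun γ => R γ → ¬ S γ)).congr fun γ => by tauto

instance D0.iff (R S : Γ → Prop) [hR : D0 R] [hS : D0 S] : D0 (fun γ => R γ ↔ S γ) :=
  (D0.and (fun γ => R γ → S γ) (fun γ => S γ → R γ)).congr fun γ => by tauto

instance D0.le (f g : Γ → M) [hf : Tm f] [hg : Tm g] : D0 (fun γ => f γ ≤ g γ) :=
  (D0.not (fun γ => g γ < f γ)).congr fun γ => by simp

instance D0.ball (t : Γ → M) (R : Γ → M → Prop) [ht : Tm t] [hR : D0 (fun w : Γ × M => R w.1 w.2)] :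
    D0 (fun γ => ∀ x, x < t γ → R γ x) := by
  constructor
  have h0 : Tm0 (fun v => t (Cx.d v)) := ht.tm 0
  have := IsD0.ball h0 hR.d0
  simpa [Cx.d] using this

instance D0.bex (t : Γ → M) (R : Γ → M → Prop) [ht : Tm t] [hR : D0 (fun w : Γ × M => R w.1 w.2)] :
    D0 (fun γ => ∃ x, x < t γ ∧ R γ x) :=
  (D0.not (fun γ => ∀ x, x < t γ → ¬ R γ x)).congr fun γ => by push Not; rfl

instance D0.ball_le (t : Γ → M) (R : Γ → M → Prop) [ht : Tm t]
    [hR : D0 (fun w : Γ × M => R w.1 w.2)] :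
    D0 (fun γ => ∀ x, x ≤ t γ → R γ x) := by
  have h1 : Tm (fun γ => t γ + 1) := Tm.add t (fun _ => 1)
  exact (D0.ball (fun γ => t γ + 1) R).congr fun γ => by simp only [lt_succ]

instance D0.bex_le (t : Γ → M) (R : Γ → M → Prop) [ht : Tm t]
    [hR : D0 (fun w : Γ × M => R w.1 w.2)] :
    D0 (fun γ => ∃ x, x ≤ t γ ∧ R γ x) := by
  have h1 : Tm (fun γ => t γ + 1) := Tm.add t (fun _ => 1)
  exact (D0.bex (fun γ => t γ + 1) R).congr fun γ => by simp only [lt_succ]

end

end Pool.Agent.H54
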