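import Pool.Agent.H54.Sig

/-!
Induction principles, division, binary digits, comprehension for bounded sets.
-/

namespace Pool.Agent.H54

universe u

section

variable {M : Type u} [IS1 M] {Γ Δ : Type u} [Cx M Γ] [Cx M Δ]

theorem SN.of1 {P : M → Prop} (h : SN (fun w : M × M => P w.2)) : SN P :=
  h.comp (fun x : M => (x, x))

theorem D1.of1 {P : M → Prop} (h : D1 (fun w : M × M => P w.2)) : D1 P :=
  h.comp (fun x : M => (x, x))

theorem ind_SN (P : M → Prop) [hP : SN (fun w : M × M => P w.2)] (h0 : P 0)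
    (hs : ∀ x, P x → P (x + 1)) (x : M) : P x := by
  obtain ⟨θ, h1, h2⟩ := (SN.of1 hP).sn
  rw [h2]
  refine IS1.ind θ h1 ((h2 0).1 h0) (fun x hx => ?_) x
  exact (h2 _).1 (hs x ((h2 x).2 hx))

theorem pos_iff_succ {x : M} : 0 < x ↔ ∃ y, x = y + 1 := by
  constructor
  · intro h
    have h1 : ¬ x < 0 + 1 := fun h' => absurd (le_of_lt_succ' h') (not_le.2 h)
    rw [zero_add, not_lt] at h1
    obtain ⟨c, hc⟩ := exists_add_of_le h1
    exact ⟨c, by rw [hc, add_comm]⟩
  · rintro ⟨y, rfl⟩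
    exact lt_of_le_of_lt zero_le ((lt_succ y y).2 le_rfl)

theorem lt_add_one' (x : M) : x < x + 1 := (lt_succ x x).2 le_rfl

theorem lt_succ_self' (x : M) : x < x + 1 := (lt_succ x x).2 le_rfl

theorem succ_le_iff' {x y : M} : x + 1 ≤ y ↔ x < y := by
  rw [← not_lt, lt_succ, not_le]

theorem zero_or_succ (x : M) : x = 0 ∨ ∃ y, x = y + 1 := by
  rcases (zero_le (a := x)).eq_or_lt with h | h
  · exact Or.inl h.symm
  · exact Or.inr (pos_iff_succ.1 h)

theorem ind_PN (P : M → Prop) [hP : SN (fun w : M × M => ¬ P w.2)] (h0 : P 0)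
    (hs : ∀ x, P x → P (x + 1)) (a : M) : P a := by
  by_contra ha
  have h3 : SN (fun w : (M × M) × M => ¬ P w.2) :=
    (SN.of1 (P := fun x => ¬ P x) hP).comp (fun w : (M × M) × M => w.2)
  have h2 := ind_SN (fun z : M => a < z ∨ ∃ w, w + z = a ∧ ¬ P w) (Or.inr ⟨a, by simp, ha⟩) (by
    rintro z (hz | ⟨w, hw, hPw⟩)
    · exact Or.inl (hz.trans (lt_add_one' z))
    · rcases zero_or_succ w with rfl | ⟨w', rfl⟩
      · exact absurd h0 hPw
      · refine Or.inr ⟨w', by rw [← hw]; ring, fun h => hPw (hs _ h)⟩) a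
  rcases h2 with h2 | ⟨w, hw, hPw⟩
  · exact lt_irrefl _ h2
  · have hw0 : w = 0 := by simpa using hw
    exact hPw (hw0 ▸ h0)

theorem lnp_SN (P : M → Prop) [hP : SN (fun w : M × M => P w.2)] {a : M} (ha : P a) :
    ∃ x, P x ∧ ∀ y, y < x → ¬ P y := by
  by_contra hcon
  push Not at hcon
  have h1 : SN (fun z : M × M => ¬ ∀ x, x < z.2 → ¬ P x) := by
    have h3 : SN (fun w : (M × M) × M => P w.2) := (SN.of1 hP).comp _
    have h2 : SN (fun z : M × M => ∃ x, x < z.2 ∧ P x) := inferInstance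
    exact h2.congr fun z => by push Not; rfl
  have h2 := ind_PN (fun z : M => ∀ x, x < z → ¬ P x) (fun x hx => absurd hx not_lt_zero) (by
    intro z hz x hx hPx
    rcases (le_of_lt_succ' hx).lt_or_eq with h | rfl
    · exact hz x h hPx
    · obtain ⟨y, hy, hPy⟩ := hcon x hPx
      exact hz y hy hPy) (a + 1)
  exact h2 a (lt_add_one' a) ha

theorem lnp_PN (P : M → Prop) [hP : SN (fun w : M × M => ¬ P w.2)] {a : M} (ha : P a) :
    ∃ x, P x ∧ ∀ y, y < x → ¬ P y := by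
  by_contra hcon
  push Not at hcon
  have h1 : SN (fun z : M × M => ∀ x, x < z.2 → ¬ P x) := by
    have h3 : SN (fun w : (M × M) × M => ¬ P w.2) :=
    (SN.of1 (P := fun x => ¬ P x) hP).comp (fun w : (M × M) × M => w.2)
    infer_instance
  have h2 := ind_SN (fun z : M => ∀ x, x < z → ¬ P x) (fun x hx => absurd hx not_lt_zero) (by
    intro z hz x hx hPx
    rcases (le_of_lt_succ' hx).lt_or_eq with h | rfl
    · exact hz x h hPx
    · obtain ⟨y, hy, hPy⟩ := hcon x hPx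
      exact hz y hy hPy) (a + 1)
  exact h2 a (lt_add_one' a) ha

/-- strong induction for Sigma one predicates -/
theorem sind_SN (P : M → Prop) [hP : SN (fun w : M × M => P w.2)]
    (h : ∀ x, (∀ y, y < x → P y) → P x) (x : M) : P x := by
  by_contra hx
  have h1 : SN (fun x : M × M => ¬ ¬ P x.2) := hP.congr fun x => by simp
  obtain ⟨y, hy, hmin⟩ := lnp_PN (fun x : M => ¬ P x) hx
  exact hy (h y fun z hz => by simpa using hmin z hz)

theorem sind_PN (P : M → Prop) [hP : SN (fun w : M × M => ¬ P w.2)]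
    (h : ∀ x, (∀ y, y < x → P y) → P x) (x : M) : P x := by
  by_contra hx
  obtain ⟨y, hy, hmin⟩ := lnp_SN (fun x : M => ¬ P x) hx
  exact hy (h y fun z hz => by simpa using hmin z hz)

/-- maximum principle for bounded Sigma one sets -/
theorem max_SN (P : M → Prop) [hP : SN (fun w : M × M => P w.2)] {a b : M} (ha : P a)
    (hb : ∀ x, P x → x ≤ b) : ∃ x, P x ∧ ∀ y, P y → y ≤ x := by
  have h3 : SN (fun w : (M × M) × M => P w.2) := (SN.of1 hP).comp _
  obtain ⟨c, hc⟩ := exists_add_of_le (hb a ha)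
  obtain ⟨z, ⟨x, hx, hPx⟩, hmin⟩ := lnp_SN (fun z : M => ∃ x, x + z = b ∧ P x) ⟨a, hc.symm, ha⟩
  refine ⟨x, hPx, fun y hy => ?_⟩
  by_contra hlt
  push Not at hlt
  obtain ⟨d, hd⟩ := exists_add_of_le (hb y hy)
  refine hmin d ?_ ⟨y, hd.symm, hy⟩
  by_contra hdz
  push Not at hdz
  have : x + z < y + d := add_lt_add_of_lt_of_le hlt hdz
  rw [hx, hd] at this
  exact lt_irrefl _ this

/-! Division -/

theorem div_exists (d : M) (hd : 0 < d) (a : M) : ∃ q r, a = q * d + r ∧ r < d := by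
  refine ind_SN (fun a : M => ∃ q r, a = q * d + r ∧ r < d) ⟨0, 0, by simp, hd⟩ ?_ a
  rintro a ⟨q, r, h, hr⟩
  rcases (succ_le_iff'.2 hr).lt_or_eq with h1 | h1
  · exact ⟨q, r + 1, by rw [h]; ring, h1⟩
  · exact ⟨q + 1, 0, by rw [h, ← h1]; ring, hd⟩

theorem div_unique {d q r q' r' : M} (h : q * d + r = q' * d + r') (hr : r < d) (hr' : r' < d) :
    q = q' ∧ r = r' := by
  have key : ∀ {q r q' r' : M}, q * d + r = q' * d + r' → r < d → ¬ q < q' := by
    intro q r q' r' h hr hlt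
    have h1 : (q + 1) * d ≤ q' * d := mul_le_mul_of_nonneg_right (succ_le_iff'.2 hlt) zero_le
    have h2 : q * d + r < (q + 1) * d := by
      rw [add_mul, one_mul]
      exact add_lt_add_of_le_of_lt le_rfl hr
    have h3 : q' * d ≤ q' * d + r' := le_self_add
    exact absurd (h ▸ (h2.trans_le (h1.trans h3))) (lt_irrefl _)
  have hq : q = q' := le_antisymm (not_lt.1 (key h.symm hr')) (not_lt.1 (key h hr))
  subst hq
  exact ⟨rfl, add_left_cancel h⟩

theorem even_or_odd' (a : M) : (∃ q, a = 2 * q) ∨ (∃ q, a = 2 * q + 1) := by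
  have h2 : (0 : M) < 2 := by norm_num
  obtain ⟨q, r, h, hr⟩ := div_exists 2 h2 a
  have h3 : r < 1 + 1 := by rwa [one_add_one_eq_two]
  rcases (le_of_lt_succ' h3).lt_or_eq with h4 | h4
  · have : r < 0 + 1 := by simpa using h4
    have : r = 0 := le_antisymm (le_of_lt_succ' this) zero_le
    exact Or.inl ⟨q, by rw [h, this]; ring⟩
  · exact Or.inr ⟨q, by rw [h, h4]; ring⟩

theorem one_lt_two' : (1 : M) < 2 := by
  have := lt_add_one' (1 : M)
  rwa [one_add_one_eq_two] at this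

theorem even_ne_odd {q q' : M} : 2 * q ≠ 2 * q' + 1 := by
  intro h
  have h1 : q * 2 + 0 = q' * 2 + 1 := by rw [mul_comm q, mul_comm q', add_zero]; exact h
  have := (div_unique h1 (by norm_num) one_lt_two').2
  exact zero_ne_one this

/-! exponentials -/

theorem ex2_pos (x : M) : 0 < (ex2 x : M) := by
  refine ind_SN (fun x : M => 0 < (ex2 x : M)) (by rw [ex2_zero]; exact zero_lt_one) ?_ x
  intro x hx
  rw [ex2_succ]
  exact mul_pos (by norm_num) hx

theorem ex2_add (x y : M) : (ex2 (x + y) : M) = ex2 x * ex2 y := by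
  refine ind_SN (fun y : M => (ex2 (x + y) : M) = ex2 x * ex2 y) (by simp [ex2_zero]) ?_ y
  intro y hy
  rw [← add_assoc, ex2_succ, ex2_succ, hy]
  ring

theorem lt_ex2 (x : M) : x < ex2 x := by
  refine ind_SN (fun x : M => x < ex2 x) (by rw [ex2_zero]; exact zero_lt_one) ?_ x
  intro x hx
  rw [ex2_succ, two_mul]
  have : x + 1 ≤ ex2 x := succ_le_iff'.2 hx
  exact lt_of_le_of_lt this (lt_add_of_pos_right _ (ex2_pos x))

theorem ex2_le_ex2 {x y : M} (h : x ≤ y) : (ex2 x : M) ≤ ex2 y := by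
  obtain ⟨c, rfl⟩ := exists_add_of_le h
  rw [ex2_add]
  have : (1 : M) ≤ ex2 c := by
    have := ex2_pos c
    rwa [← succ_le_iff', zero_add] at this
  calc (ex2 x : M) = ex2 x * 1 := (mul_one _).symm
    _ ≤ ex2 x * ex2 c := mul_le_mul_of_nonneg_left this zero_le

theorem ex2_lt_ex2 {x y : M} (h : x < y) : (ex2 x : M) < ex2 y := by
  have h1 := ex2_le_ex2 (succ_le_iff'.2 h)
  rw [ex2_succ, two_mul] at h1
  exact lt_of_lt_of_le (lt_add_of_pos_right _ (ex2_pos x)) h1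

/-! binary digits -/

/-- the `x`-th binary digit of `c` is one -/
def Mem (x c : M) : Prop := ∃ q r, c = (2 * q + 1) * ex2 x + r ∧ r < ex2 x

theorem not_Mem_iff {x c : M} : ¬ Mem x c ↔ ∃ q r, c = (2 * q) * ex2 x + r ∧ r < ex2 x := by
  constructor
  · intro h
    obtain ⟨q, r, h1, h2⟩ := div_exists (ex2 x) (ex2_pos x) c
    rcases even_or_odd' q with ⟨q', rfl⟩ | ⟨q', rfl⟩
    · exact ⟨q', r, h1, h2⟩
    · exact absurd ⟨q', r, h1, h2⟩ h
  · rintro ⟨q, r, h1, h2⟩ ⟨q', r', h1', h2'⟩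
    have := (div_unique (h1.symm.trans h1') h2 h2').1
    exact even_ne_odd this

theorem D1_Mem : D1 (fun w : M × M => Mem w.1 w.2) := by
  refine ⟨?_, ?_⟩
  · unfold Mem; infer_instance
  · have : SN (fun w : M × M => ∃ q r, w.2 = (2 * q) * ex2 w.1 + r ∧ r < ex2 w.1) := inferInstance
    exact this.congr fun w => not_Mem_iff

instance (f g : Γ → M) [hf : Fn f] [hg : Fn g] : D1 (fun γ => Mem (f γ) (g γ)) :=
  D1_Mem.app2 f g

theorem Mem.ex2_le {x c : M} (h : Mem x c) : ex2 x ≤ c := by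
  obtain ⟨q, r, h1, _⟩ := h
  rw [h1, add_mul, one_mul]
  exact le_trans le_add_self le_self_add

theorem Mem.lt {x c : M} (h : Mem x c) : x < c := lt_of_lt_of_le (lt_ex2 x) h.ex2_le

theorem not_Mem_zero (x : M) : ¬ Mem x 0 := fun h => not_lt_zero h.lt

theorem lt_of_Mem_of_lt {x c b : M} (h : Mem x c) (hc : c < ex2 b) : x < b := by
  by_contra hx
  push Not at hx
  exact absurd (lt_of_le_of_lt ((ex2_le_ex2 hx).trans h.ex2_le) hc) (lt_irrefl _)

theorem Mem_lo {x y q r : M} (hy : y < x) : Mem y (q * ex2 x + r) ↔ Mem y r := by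
  obtain ⟨w, rfl⟩ := exists_add_of_le (succ_le_iff'.2 hy)
  have e : (ex2 (y + 1 + w) : M) = 2 * ex2 w * ex2 y := by
    rw [ex2_add, ex2_succ]; ring
  rw [e]
  by_cases h : Mem y r
  · simp only [h, iff_true]
    obtain ⟨k, s, h1, h2⟩ := h
    exact ⟨q * ex2 w + k, s, by rw [h1]; ring, h2⟩
  · simp only [h, iff_false]
    obtain ⟨k, s, h1, h2⟩ := not_Mem_iff.1 h
    exact not_Mem_iff.2 ⟨q * ex2 w + k, s, by rw [h1]; ring, h2⟩

theorem Mem_hi {x z q r : M} (hr : r < ex2 x) : Mem (x + z) (q * ex2 x + r) ↔ Mem z q := by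
  have hb : ∀ s : M, s < ex2 z → s * ex2 x + r < ex2 (x + z) := by
    intro s hs
    rw [ex2_add]
    have h1 : (s + 1) * ex2 x ≤ ex2 z * ex2 x :=
      mul_le_mul_of_nonneg_right (succ_le_iff'.2 hs) zero_le
    calc s * ex2 x + r < s * ex2 x + ex2 x := add_lt_add_of_le_of_lt le_rfl hr
      _ = (s + 1) * ex2 x := by ring
      _ ≤ ex2 z * ex2 x := h1
      _ = ex2 x * ex2 z := by ring
  by_cases h : Mem z q
  · simp only [h, iff_true]
    obtain ⟨k, s, h1, h2⟩ := h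
    exact ⟨k, s * ex2 x + r, by rw [h1, ex2_add]; ring, hb s h2⟩
  · simp only [h, iff_false]
    obtain ⟨k, s, h1, h2⟩ := not_Mem_iff.1 h
    exact not_Mem_iff.2 ⟨k, s * ex2 x + r, by rw [h1, ex2_add]; ring, hb s h2⟩

theorem Mem_zero_even {q : M} : ¬ Mem 0 (2 * q) := by
  rw [not_Mem_iff]
  exact ⟨q, 0, by rw [ex2_zero]; ring, by rw [ex2_zero]; exact zero_lt_one⟩

theorem Mem_zero_odd {q : M} : Mem 0 (2 * q + 1) :=
  ⟨q, 0, by rw [ex2_zero]; ring, by rw [ex2_zero]; exact zero_lt_one⟩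

theorem Mem_zero_one : Mem (0 : M) 1 := by
  have := Mem_zero_odd (q := (0 : M))
  simpa using this

theorem Mem_one {z : M} : Mem z (1 : M) ↔ z = 0 := by
  constructor
  · intro h
    exact le_antisymm (le_of_lt_succ' (by simpa using h.lt)) zero_le
  · rintro rfl
    exact Mem_zero_one

/-- setting a bit -/
theorem Mem_set {x c : M} (h : ¬ Mem x c) (y : M) : Mem y (c + ex2 x) ↔ Mem y c ∨ y = x := by
  obtain ⟨q, r, h1, h2⟩ := not_Mem_iff.1 h
  have e1 : c + ex2 x = (2 * q + 1) * ex2 x + r := by rw [h1]; ring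
  rw [e1]
  rcases lt_or_ge y x with hy | hy
  · rw [Mem_lo hy, h1, Mem_lo hy]
    simp [hy.ne]
  · obtain ⟨z, rfl⟩ := exists_add_of_le hy
    rw [Mem_hi h2, h1, Mem_hi h2]
    rcases zero_or_succ z with rfl | ⟨z', rfl⟩
    · simp only [add_zero, or_true, iff_true]
      exact Mem_zero_odd
    · have e3 : ∀ k : M, Mem (z' + 1) (2 * q + k) ↔ Mem (1 + z') (q * ex2 1 + k) := by
        intro k
        have : (ex2 1 : M) = 2 := by
          have := ex2_succ (0 : M)
          rw [ex2_zero, zero_add, mul_one] at this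
          exact this
        rw [this, add_comm z' 1, mul_comm q 2]
      have e4 : (ex2 1 : M) = 2 := by
        have := ex2_succ (0 : M)
        rw [ex2_zero, zero_add, mul_one] at this
        exact this
      rw [e3 1, Mem_hi (by rw [e4]; exact one_lt_two')]
      have := e3 0
      rw [add_zero] at this
      rw [this, Mem_hi (by rw [e4]; norm_num)]
      constructor
      · exact Or.inl
      · rintro (h3 | h3)
        · exact h3
        · exfalso
          have : x < x + (z' + 1) := by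
            rw [← add_assoc]
            exact lt_of_le_of_lt le_self_add (lt_add_one' _)
          exact absurd h3 this.ne'

theorem set_lt {x c b : M} (h : ¬ Mem x c) (hc : c < ex2 b) (hx : x < b) : c + ex2 x < ex2 b := by
  obtain ⟨q, r, h1, h2⟩ := not_Mem_iff.1 h
  obtain ⟨w, rfl⟩ := exists_add_of_le (succ_le_iff'.2 hx)
  have e : (ex2 (x + 1 + w) : M) = ex2 w * (2 * ex2 x) := by
    rw [ex2_add, ex2_succ]; ring
  rw [e] at hc ⊢
  have h3 : q < ex2 w := by
    by_contra hq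
    push Not at hq
    have : ex2 w * (2 * ex2 x) ≤ q * (2 * ex2 x) := mul_le_mul_of_nonneg_right hq zero_le
    have h4 : q * (2 * ex2 x) ≤ c := by
      rw [h1]
      calc q * (2 * ex2 x) = 2 * q * ex2 x := by ring
        _ ≤ _ := le_self_add
    exact absurd (lt_of_le_of_lt (this.trans h4) hc) (lt_irrefl _)
  have h5 : (q + 1) * (2 * ex2 x) ≤ ex2 w * (2 * ex2 x) :=
    mul_le_mul_of_nonneg_right (succ_le_iff'.2 h3) zero_le
  refine lt_of_lt_of_le ?_ h5
  calc c + ex2 x = q * (2 * ex2 x) + ex2 x + r := by rw [h1]; ring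
    _ < q * (2 * ex2 x) + ex2 x + ex2 x := add_lt_add_of_le_of_lt le_rfl h2
    _ = (q + 1) * (2 * ex2 x) := by ring

theorem Mem_ext {a b : M} (h : ∀ x, Mem x a ↔ Mem x b) : a = b := by
  have key : ∀ x : M, ∃ q q' r, a = q * ex2 x + r ∧ b = q' * ex2 x + r ∧ r < ex2 x := by
    intro x
    refine ind_SN (fun x : M => ∃ q q' r, a = q * ex2 x + r ∧ b = q' * ex2 x + r ∧ r < ex2 x)
      ⟨a, b, 0, by rw [ex2_zero]; ring, by rw [ex2_zero]; ring, by
        rw [ex2_zero]; exact zero_lt_one⟩ ?_ x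
    rintro x ⟨q, q', r, h1, h2, h3⟩
    have hx := h x
    have e1 : Mem x a ↔ Mem 0 q := by
      have := Mem_hi (z := 0) (q := q) h3
      rw [add_zero, ← h1] at this
      exact this
    have e2 : Mem x b ↔ Mem 0 q' := by
      have := Mem_hi (z := 0) (q := q') h3
      rw [add_zero, ← h2] at this
      exact this
    rw [e1, e2] at hx
    have hr : r < ex2 (x + 1) := h3.trans (ex2_lt_ex2 (lt_add_one' x))
    have hr' : ex2 x + r < ex2 (x + 1) := by
      rw [ex2_succ, two_mul]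
      exact add_lt_add_of_le_of_lt le_rfl h3
    rcases even_or_odd' q with ⟨k, rfl⟩ | ⟨k, rfl⟩
    · rcases even_or_odd' q' with ⟨k', rfl⟩ | ⟨k', rfl⟩
      · exact ⟨k, k', r, by rw [h1, ex2_succ]; ring, by rw [h2, ex2_succ]; ring, hr⟩
      · exact absurd (hx.2 Mem_zero_odd) Mem_zero_even
    · rcases even_or_odd' q' with ⟨k', rfl⟩ | ⟨k', rfl⟩
      · exact absurd (hx.1 Mem_zero_odd) Mem_zero_even
      · exact ⟨k, k', ex2 x + r, by rw [h1, ex2_succ]; ring, by rw [h2, ex2_succ]; ring, hr'⟩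
  obtain ⟨q, q', r, h1, h2, h3⟩ := key (max a b)
  have h4 : ∀ {a' q : M}, a' < ex2 (max a b) → a' = q * ex2 (max a b) + r → q = 0 := by
    intro a' q ha h
    by_contra hq
    have hq' : 1 ≤ q := by
      rcases zero_or_succ q with rfl | ⟨k, rfl⟩
      · exact absurd rfl hq
      · exact le_add_self
    have h5 : 1 * ex2 (max a b) ≤ q * ex2 (max a b) := mul_le_mul_of_nonneg_right hq' zero_le
    rw [one_mul] at h5
    exact absurd (lt_of_le_of_lt (h5.trans (le_self_add.trans h.symm.le)) ha) (lt_irrefl _)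
  have ha := h4 (lt_of_le_of_lt (le_max_left a b) (lt_ex2 _)) h1
  have hb := h4 (lt_of_le_of_lt (le_max_right a b) (lt_ex2 _)) h2
  rw [ha, zero_mul, zero_add] at h1
  rw [hb, zero_mul, zero_add] at h2
  exact h1.trans h2.symm

/-- comprehension for bounded Delta one sets -/
theorem compr_D1 (P : M → Prop) [hP : D1 (fun w : M × M => P w.2)] (b : M) :
    ∃ c, c < ex2 b ∧ ∀ x, Mem x c ↔ (x < b ∧ P x) := by
  have h3 : D1 (fun w : ((M × M) × M) × M => P w.2) := (D1.of1 hP).comp _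
  have key : ∀ b : M, ∃ c, c < ex2 b ∧ ∀ x, x < b → (Mem x c ↔ P x) := by
    intro b
    refine ind_SN (fun b : M => ∃ c, c < ex2 b ∧ ∀ x, x < b → (Mem x c ↔ P x))
      ⟨0, ex2_pos _, fun x hx => absurd hx not_lt_zero⟩ ?_ b
    rintro b ⟨c, hc, h⟩
    have hb : ¬ Mem b c := fun h' => lt_irrefl _ (lt_of_Mem_of_lt h' hc)
    by_cases hPb : P b
    · refine ⟨c + ex2 b, ?_, fun x hx => ?_⟩
      · rw [ex2_succ, two_mul]
        exact add_lt_add_of_lt_of_le hc le_rfl
      · rw [Mem_set hb]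
        rcases (le_of_lt_succ' hx).lt_or_eq with h1 | rfl
        · rw [h x h1]
          simp [h1.ne]
        · simp [hPb]
    · refine ⟨c, hc.trans (ex2_lt_ex2 (lt_add_one' b)), fun x hx => ?_⟩
      rcases (le_of_lt_succ' hx).lt_or_eq with h1 | rfl
      · exact h x h1
      · simp [hPb, hb]
  obtain ⟨c, hc, h⟩ := key b
  refine ⟨c, hc, fun x => ⟨fun hx => ?_, fun hx => (h x hx.1).2 hx.2⟩⟩
  have := lt_of_Mem_of_lt hx hc
  exact ⟨this, (h x this).1 hx⟩

/-- comprehension for bounded Sigma one sets -/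
theorem compr_SN (P : M → Prop) [hP : SN (fun w : M × M => P w.2)] (b : M) :
    ∃ c, c < ex2 b ∧ ∀ x, Mem x c ↔ (x < b ∧ P x) := by
  have h3 : SN (fun w : (M × M) × M => P w.2) := (SN.of1 hP).comp _
  obtain ⟨c, ⟨hc, h⟩, hmax⟩ := max_SN (fun c : M => c < ex2 b ∧ ∀ x, x < b → (Mem x c → P x))
    (a := 0) (b := ex2 b) ⟨ex2_pos _, fun x _ h => absurd h (not_Mem_zero x)⟩ (fun x hx => hx.1.le)
  refine ⟨c, hc, fun x => ⟨fun hx => ?_, fun hx => ?_⟩⟩
  · have := lt_of_Mem_of_lt hx hc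
    exact ⟨this, h x this hx⟩
  · by_contra hxc
    have h4 := hmax (c + ex2 x) ⟨set_lt hxc hc hx.1, fun y hy hyc => by
      rcases (Mem_set hxc y).1 hyc with h5 | rfl
      · exact h y hy h5
      · exact hx.2⟩
    exact absurd h4 (not_le.2 (lt_add_of_pos_right _ (ex2_pos x)))

/-- strong collection -/
theorem coll_SN (R : M → M → Prop) [hR : SN (fun w : M × M => R w.1 w.2)] (t : M)
    (h : ∀ x, x < t → ∃ y, R x y) : ∃ b, ∀ x, x < t → ∃ y, y < b ∧ R x y := by
  obtain ⟨θ, h1, h2⟩ := hR.sn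
  have i1 : D0 (fun w : (((M × M) × M) × M) × M => θ ((w.1.1.1.2, w.1.2), w.2)) := h1.comp _
  have hθ : D0 (fun w : M × M => ∃ a, a ≤ w.2 ∧ ∃ b, b ≤ w.2 ∧ θ ((w.1, a), b)) := by
    have i2 : D0 (fun w : ((M × M) × M) × M => θ ((w.1.1.1, w.1.2), w.2)) := h1.comp _
    infer_instance
  obtain ⟨b, hb⟩ := coll0 hθ t (by
    intro x hx
    obtain ⟨y, hy⟩ := h x hx
    obtain ⟨z, hz⟩ := (h2 (x, y)).1 hy
    exact ⟨max y z, y, le_max_left _ _, z, le_max_right _ _, hz⟩)
  refine ⟨b, fun x hx => ?_⟩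
  obtain ⟨y, hy, a, ha, c, hc, hθ⟩ := hb x hx
  exact ⟨a, lt_of_le_of_lt ha hy, (h2 (x, a)).2 ⟨c, hθ⟩⟩

theorem scoll_SN (R : M → M → Prop) [hR : SN (fun w : M × M => R w.1 w.2)] (t : M) :
    ∃ b, ∀ x, x < t → (∃ y, R x y) → ∃ y, y < b ∧ R x y := by
  have h0 : SN (fun w : (M × M) × M => R w.1.2 w.2) := hR.comp (fun w : (M × M) × M => (w.1.2, w.2))
  obtain ⟨c, hc, h⟩ := compr_SN (fun x : M => ∃ y, R x y) t
  have h1 : SN (fun w : M × M => R w.1 w.2 ∨ ¬ Mem w.1 c) := inferInstance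
  obtain ⟨b, hb⟩ := coll_SN (fun x y => R x y ∨ ¬ Mem x c) t (by
    intro x hx
    by_cases hxc : Mem x c
    · obtain ⟨y, hy⟩ := ((h x).1 hxc).2
      exact ⟨y, Or.inl hy⟩
    · exact ⟨0, Or.inr hxc⟩)
  refine ⟨b, fun x hx hy => ?_⟩
  obtain ⟨y, hy1, hy2⟩ := hb x hx
  rcases hy2 with hy2 | hy2
  · exact ⟨y, hy1, hy2⟩
  · exact absurd ((h x).2 ⟨hx, hy⟩) hy2

end

end Pool.Agent.H54
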