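import Mathlib

/-!
# Recursion theory in models of `P⁻ + IΣ₁`: the definitions used by the statement

Structures for the language `0, 1, +, ×, exp, <`, bounded and `Σ₁` formulas, models of
`P⁻ + IΣ₁`, `M`-finite sets coded by binary digits, c.e. and d.c.e. sets, Turing functionals,
setwise Turing reducibility, degrees, isolated and upper isolated degrees.
-/

namespace Pool.Agent.H54.BiIso

open FirstOrder FirstOrder.Language

universe u

/-- Function symbols of first-order arithmetic with exponentiation. -/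
inductive ArithFn : ℕ → Type
  | zero : ArithFn 0
  | one : ArithFn 0
  | add : ArithFn 2
  | mul : ArithFn 2
  | exp : ArithFn 1

/-- The only relation symbol is `<`. -/
inductive ArithRel : ℕ → Type
  | lt : ArithRel 2

/-- The language `0, 1, +, ×, exp, <`. -/
def LA : Language := ⟨ArithFn, ArithRel⟩

/-- A structure for the language `0, 1, +, ×, exp, <` (no axioms). -/
class ArithStr (M : Type u) extends Zero M, One M, Add M, Mul M, LT M where
  /-- the function interpreting `exp` (base two exponentiation) -/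
  exp : M → M

export ArithStr (exp)

/-- The `LA`-structure given by the operations. -/
instance instLAStr (M : Type u) [ArithStr M] : LA.Structure M where
  funMap {_} f := match f with
    | .zero => fun _ => 0
    | .one => fun _ => 1
    | .add => fun v => v 0 + v 1
    | .mul => fun v => v 0 * v 1
    | .exp => fun v => exp (v 0)
  RelMap {_} r := match r with
    | .lt => fun v => v 0 < v 1

/-- Bounded (`Δ₀`) formulas: closed under the connectives and under the bounded quantifier
`∀ x < t`, where the term `t` does not contain `x`. -/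
inductive IsDelta0 {α : Type u} : {n : ℕ} → LA.BoundedFormula α n → Prop
  | falsum {n : ℕ} : IsDelta0 (BoundedFormula.falsum : LA.BoundedFormula α n)
  | equal {n : ℕ} (s t : LA.Term (α ⊕ Fin n)) : IsDelta0 (BoundedFormula.equal s t)
  | lt {n : ℕ} (s t : LA.Term (α ⊕ Fin n)) :
      IsDelta0 (BoundedFormula.rel (L := LA) ArithRel.lt ![s, t])
  | imp {n : ℕ} {φ ψ : LA.BoundedFormula α n} : IsDelta0 φ → IsDelta0 ψ → IsDelta0 (φ.imp ψ)
  | ball {n : ℕ} (t : LA.Term (α ⊕ Fin n)) {φ : LA.BoundedFormula α (n + 1)} : IsDelta0 φ →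
      IsDelta0 (BoundedFormula.all (BoundedFormula.imp (BoundedFormula.rel (L := LA) ArithRel.lt
        ![Term.var (Sum.inr (Fin.last n)), t.relabel (Sum.map id Fin.castSucc)]) φ))

/-- `Σ₁` formulas: a block of existential quantifiers in front of a bounded formula. -/
inductive IsSigma1 {α : Type u} : {n : ℕ} → LA.BoundedFormula α n → Prop
  | delta0 {n : ℕ} {φ : LA.BoundedFormula α n} : IsDelta0 φ → IsSigma1 φ
  | ex {n : ℕ} {φ : LA.BoundedFormula α (n + 1)} : IsSigma1 φ → IsSigma1 φ.ex

/-- `M` is a model of `P⁻ + IΣ₁`: the Peano axioms for `0, 1, +, ×, exp, <` without induction,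
and induction for every `Σ₁` formula `φ(x)` with parameters from `M`
(the free variables of `φ : LA.BoundedFormula M 1` are elements of `M`, interpreted by
themselves). -/
structure ModelISigma1 (M : Type u) [ArithStr M] : Prop where
  succ_ne_zero : ∀ x : M, x + 1 ≠ 0
  succ_inj : ∀ x y : M, x + 1 = y + 1 → x = y
  add_zero : ∀ x : M, x + 0 = x
  add_succ : ∀ x y : M, x + (y + 1) = (x + y) + 1
  mul_zero : ∀ x : M, x * 0 = 0
  mul_succ : ∀ x y : M, x * (y + 1) = x * y + x
  exp_zero : (exp 0 : M) = 1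
  exp_succ : ∀ x : M, exp (x + 1) = exp x * (1 + 1)
  not_lt_zero : ∀ x : M, ¬ x < 0
  lt_succ : ∀ x y : M, x < y + 1 ↔ (x < y ∨ x = y)
  induction : ∀ φ : LA.BoundedFormula M 1, IsSigma1 φ → φ.Realize id ![0] →
    (∀ x : M, φ.Realize id ![x] → φ.Realize id ![x + 1]) → ∀ x : M, φ.Realize id ![x]

variable {M : Type u} [ArithStr M]

/-- `Dig x X`: the `x`-th binary digit of `X` is one, that is, `x` belongs to the `M`-finite set
coded by `X`. -/
def Dig (x X : M) : Prop := ∃ q r : M, X = ((1 + 1) * q + 1) * exp x + r ∧ r < exp x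

/-- A set is c.e. if it is `Σ₁`-definable with parameters. -/
def IsCE (A : Set M) : Prop :=
  ∃ φ : LA.BoundedFormula M 1, IsSigma1 φ ∧ ∀ x, x ∈ A ↔ φ.Realize id ![x]

/-- A set of quadruples is c.e. if it is `Σ₁`-definable with parameters. -/
def IsCE4 (Φ : M → M → M → M → Prop) : Prop :=
  ∃ φ : LA.BoundedFormula M 4, IsSigma1 φ ∧ ∀ X y P N, Φ X y P N ↔ φ.Realize id ![X, y, P, N]

/-- A set is d.c.e. if it is a difference of c.e. sets. -/
def IsDCE (A : Set M) : Prop := ∃ W V : Set M, IsCE W ∧ IsCE V ∧ A = W \ V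

/-- inclusion of the `M`-finite sets coded by `X` and `Y` -/
def CSub (X Y : M) : Prop := ∀ z, Dig z X → Dig z Y

/-- disjointness of the `M`-finite sets coded by `X` and `Y` -/
def CDisj (X Y : M) : Prop := ∀ z, Dig z X → ¬ Dig z Y

/-- Turing functionals: c.e. sets of quadruples `⟨X, y, P, N⟩`, with `P` and `N` disjoint, closed
under shrinking `X` and under enlarging `P` and `N` while keeping them disjoint, and
single-valued in `y` for fixed `X, P, N` with `X` nonempty. -/
structure IsFunctional (Φ : M → M → M → M → Prop) : Prop where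
  ce : IsCE4 Φ
  disj : ∀ X y P N, Φ X y P N → CDisj P N
  closed : ∀ X y P N X' P' N', Φ X y P N → CSub X' X → CSub P P' → CSub N N' → CDisj P' N' →
    Φ X' y P' N'
  single : ∀ X y y' P N, (∃ z, Dig z X) → Φ X y P N → Φ X y' P N → y = y'

/-- Setwise Turing reducibility `A ≤_T B`. -/
def TLE (A B : Set M) : Prop := ∃ Φ : M → M → M → M → Prop, IsFunctional Φ ∧ ∀ X : M,
  ((∀ z, Dig z X → z ∈ A) ↔
    ∃ P N, (∀ z, Dig z P → z ∈ B) ∧ (∀ z, Dig z N → z ∉ B) ∧ Φ X 1 P N) ∧
  ((∀ z, Dig z X → z ∉ A) ↔
    ∃ P N, (∀ z, Dig z P → z ∈ B) ∧ (∀ z, Dig z N → z ∉ B) ∧ Φ X 0 P N)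

/-- The Turing degree of `A`: the class of all sets Turing equivalent to `A`. -/
def deg (A : Set M) : Set (Set M) := {B | TLE A B ∧ TLE B A}

/-- `d` is a c.e. degree: a Turing degree which contains a c.e. set. -/
def CEDeg (d : Set (Set M)) : Prop := (∃ A, d = deg A) ∧ ∃ A ∈ d, IsCE A

/-- `d` is a d.c.e. degree: a Turing degree which contains a d.c.e. set. -/
def DCEDeg (d : Set (Set M)) : Prop := (∃ A, d = deg A) ∧ ∃ A ∈ d, IsDCE A

/-- the ordering of the degrees -/
def DLE (a b : Set (Set M)) : Prop := ∃ A ∈ a, ∃ B ∈ b, TLE A B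

/-- the strict ordering of the degrees -/
def DLT (a b : Set (Set M)) : Prop := DLE a b ∧ ¬ DLE b a

/-- `d` is isolated: some c.e. degree `a < d` bounds all c.e. degrees `c < d`. -/
def Isolated (d : Set (Set M)) : Prop :=
  ∃ a, CEDeg a ∧ DLT a d ∧ ∀ c, CEDeg c → DLT c d → DLE c a

/-- `d` is upper isolated: some c.e. degree `b > d` is below all c.e. degrees `c > d`. -/
def UpperIsolated (d : Set (Set M)) : Prop :=
  ∃ b, CEDeg b ∧ DLT d b ∧ ∀ c, CEDeg c → DLT d c → DLE b c

/-- `d` is a bi-isolated d.c.e. degree. -/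
def BiIsolated (d : Set (Set M)) : Prop := DCEDeg d ∧ Isolated d ∧ UpperIsolated d

end Pool.Agent.H54.BiIso
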