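import Pool.Agent.H54.Red

/-!
Finite powers as contexts.
-/

set_option synthInstance.maxSize 100000

namespace Pool.Agent.H54

universe u

section

variable {M : Type u} [IS1 M] {Γ Δ : Type u} [Cx M Γ] [Cx M Δ]

/-- finite powers as contexts -/
instance cxFin (n : ℕ) : Cx M (Fin n → M) where
  n := n
  e v := v
  d v := v
  de _ := rfl
  ed _ := rfl

theorem Tm.fin {n : ℕ} (g : Γ → (Fin n → M)) (hg : ∀ i, Tm (fun γ => g γ i)) : Tm g :=
  ⟨fun i => (hg i).tm 0⟩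

theorem Tm.coord {n : ℕ} (g : Γ → (Fin n → M)) (hg : Tm g) (i : Fin n) : Tm (fun γ => g γ i) :=
  ⟨fun _ => hg.tm i⟩

theorem SN_fin_D0 {n : ℕ} {R : (Fin n → M) → Prop} (hR : IsD0 R) : SN R := SN.of_D0 ⟨hR⟩

theorem SN_fin_ex {n : ℕ} {R : (Fin (n + 1) → M) → Prop} (hR : SN R) :
    SN (fun v : Fin n → M => ∃ x, R (Fin.snoc v x)) := by
  have i : Tm (fun w : (Fin n → M) × M => (Fin.snoc w.1 w.2 : Fin (n + 1) → M)) := by
    refine Tm.fin _ fun i => ?_
    refine Fin.lastCases ?_ (fun i => ?_) i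
    · simp only [Fin.snoc_last]
      infer_instance
    · simp only [Fin.snoc_castSucc]
      exact Tm.coord (fun w : (Fin n → M) × M => w.1) inferInstance i
  exact SN.ex' (hR.comp (fun w : (Fin n → M) × M => (Fin.snoc w.1 w.2 : Fin (n + 1) → M)))

theorem SN_fin_one {P : M → Prop} (h : SN (fun v : Fin 1 → M => P (v 0))) :
    SN (fun w : M × M => P w.2) := by
  have i : Tm (fun w : M × M => (fun _ => w.2 : Fin 1 → M)) := Tm.fin _ fun i => inferInstance
  exact h.comp (fun w : M × M => (fun _ => w.2 : Fin 1 → M))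

theorem SN_fin_four {Φ : M → M → M → M → Prop}
    (h : SN (fun v : Fin 4 → M => Φ (v 0) (v 1) (v 2) (v 3))) :
    SN (fun w : ((M × M) × M) × M => Φ w.1.1.1 w.1.1.2 w.1.2 w.2) := by
  have i : Tm (fun w : ((M × M) × M) × M => (![w.1.1.1, w.1.1.2, w.1.2, w.2] : Fin 4 → M)) :=
    Tm.fin _ fun i => by
      fin_cases i
      · exact (inferInstance : Tm (fun w : ((M × M) × M) × M => w.1.1.1))
      · exact (inferInstance : Tm (fun w : ((M × M) × M) × M => w.1.1.2))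
      · exact (inferInstance : Tm (fun w : ((M × M) × M) × M => w.1.2))
      · exact (inferInstance : Tm (fun w : ((M × M) × M) × M => w.2))
  exact h.comp (fun w : ((M × M) × M) × M => (![w.1.1.1, w.1.1.2, w.1.2, w.2] : Fin 4 → M))

theorem SN_one_matrix {P : M → Prop} (h : SN (fun w : M × M => P w.2)) :
    ∃ θ : (Fin 2 → M) → Prop, IsD0 θ ∧ ∀ x, P x ↔ ∃ y, θ ![x, y] := by
  obtain ⟨θ, h1, h2⟩ := (SN.of1 h).sn
  exact ⟨fun v => θ (v 0, v 1), h1.d0, fun x => h2 x⟩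

theorem SN_four_matrix {Φ : M → M → M → M → Prop}
    (h : SN (fun w : ((M × M) × M) × M => Φ w.1.1.1 w.1.1.2 w.1.2 w.2)) :
    ∃ θ : (Fin 5 → M) → Prop, IsD0 θ ∧ ∀ X y P N, Φ X y P N ↔ ∃ z, θ ![X, y, P, N, z] := by
  obtain ⟨θ, h1, h2⟩ := h.sn
  exact ⟨fun v => θ ((((v 0, v 1), v 2), v 3), v 4), h1.d0, fun X y P N => h2 (((X, y), P), N)⟩

end

end Pool.Agent.H54
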