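import Pool.Agent.H54.Main
import Pool.Agent.H54.FinCx
import Pool.Agent.H54.Defs

/-!
From first-order models of `P⁻ + IΣ₁` to the working class.
-/

namespace Pool.Agent.H54.BiIso

open FirstOrder FirstOrder.Language

universe u

section alg

variable {M : Type u} [ArithStr M]

/-- parameters -/
def cst {n : ℕ} (a : M) : LA.Term (M ⊕ Fin n) := Term.var (Sum.inl a)
/-- variables -/
def vr {n : ℕ} (i : Fin n) : LA.Term (M ⊕ Fin n) := Term.var (Sum.inr i)
def tadd {α : Type u} (s t : LA.Term α) : LA.Term α := Term.func (L := LA) ArithFn.add ![s, t]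
def tmul {α : Type u} (s t : LA.Term α) : LA.Term α := Term.func (L := LA) ArithFn.mul ![s, t]
def texp {α : Type u} (s : LA.Term α) : LA.Term α := Term.func (L := LA) ArithFn.exp ![s]

@[simp] theorem r_cst {n : ℕ} (a : M) (v : Fin n → M) :
    (cst a : LA.Term (M ⊕ Fin n)).realize (Sum.elim id v) = a := rfl
@[simp] theorem r_vr {n : ℕ} (i : Fin n) (v : Fin n → M) :
    (vr i : LA.Term (M ⊕ Fin n)).realize (Sum.elim id v) = v i := rfl
@[simp] theorem r_tadd {α : Type u} (s t : LA.Term α) (w : α → M) :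
    (tadd s t).realize w = s.realize w + t.realize w := rfl
@[simp] theorem r_tmul {α : Type u} (s t : LA.Term α) (w : α → M) :
    (tmul s t).realize w = s.realize w * t.realize w := rfl
@[simp] theorem r_texp {α : Type u} (s : LA.Term α) (w : α → M) :
    (texp s).realize w = exp (s.realize w) := rfl

@[simp] theorem R_falsum {n : ℕ} (v : Fin n → M) :
    (BoundedFormula.falsum : LA.BoundedFormula M n).Realize id v ↔ False := Iff.rfl
@[simp] theorem R_equal {n : ℕ} (s t : LA.Term (M ⊕ Fin n)) (v : Fin n → M) :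
    (BoundedFormula.equal s t : LA.BoundedFormula M n).Realize id v ↔
      s.realize (Sum.elim id v) = t.realize (Sum.elim id v) := Iff.rfl
@[simp] theorem R_lt {n : ℕ} (s t : LA.Term (M ⊕ Fin n)) (v : Fin n → M) :
    (BoundedFormula.rel (L := LA) ArithRel.lt ![s, t] : LA.BoundedFormula M n).Realize id v ↔
      s.realize (Sum.elim id v) < t.realize (Sum.elim id v) := Iff.rfl
@[simp] theorem R_imp {n : ℕ} (φ ψ : LA.BoundedFormula M n) (v : Fin n → M) :
    (φ.imp ψ).Realize id v ↔ (φ.Realize id v → ψ.Realize id v) := Iff.rfl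
theorem R_ex {n : ℕ} (φ : LA.BoundedFormula M (n + 1)) (v : Fin n → M) :
    (φ.ex).Realize id v ↔ ∃ x : M, φ.Realize id (Fin.snoc v x) := BoundedFormula.realize_ex
theorem R_ball {n : ℕ} (t : LA.Term (M ⊕ Fin n)) (φ : LA.BoundedFormula M (n + 1))
    (v : Fin n → M) :
    (BoundedFormula.all (BoundedFormula.imp (BoundedFormula.rel (L := LA) ArithRel.lt
        ![Term.var (Sum.inr (Fin.last n)), t.relabel (Sum.map id Fin.castSucc)]) φ)).Realize id v ↔
      ∀ x : M, x < t.realize (Sum.elim id v) → φ.Realize id (Fin.snoc v x) := by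
  rw [BoundedFormula.realize_all]
  refine forall_congr' fun x => ?_
  rw [R_imp, R_lt]
  have e1 : (Term.var (Sum.inr (Fin.last n)) : LA.Term (M ⊕ Fin (n + 1))).realize
      (Sum.elim id (Fin.snoc v x : Fin (n + 1) → M)) = x := by
    simp [Term.realize]
  have e2 : (t.relabel (Sum.map id Fin.castSucc) : LA.Term (M ⊕ Fin (n + 1))).realize
      (Sum.elim id (Fin.snoc v x : Fin (n + 1) → M)) = t.realize (Sum.elim id v) := by
    rw [Term.realize_relabel]
    congr 1
    funext i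
    rcases i with i | i
    · rfl
    · simp
  rw [e1, e2]

variable (h : ModelISigma1 M)

include h

theorem indEq (s t : LA.Term (M ⊕ Fin 1))
    (h0 : s.realize (Sum.elim id ![0]) = t.realize (Sum.elim id ![0]))
    (hs : ∀ x : M, s.realize (Sum.elim id ![x]) = t.realize (Sum.elim id ![x]) →
      s.realize (Sum.elim id ![x + 1]) = t.realize (Sum.elim id ![x + 1])) (x : M) :
    s.realize (Sum.elim id ![x]) = t.realize (Sum.elim id ![x]) :=
  h.induction (BoundedFormula.equal s t) (IsSigma1.delta0 (IsDelta0.equal s t)) h0 hs x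

theorem zero_add' (x : M) : 0 + x = x := by
  have := indEq h (tadd (cst 0) (vr 0)) (vr 0) (by simp [h.add_zero])
    (by intro x hx; simp at hx ⊢; rw [h.add_succ, hx]) x
  simpa using this

theorem succ_add' (a x : M) : (a + 1) + x = (a + x) + 1 := by
  have := indEq h (tadd (cst (a + 1)) (vr 0)) (tadd (tadd (cst a) (vr 0)) (cst 1))
    (by simp [h.add_zero])
    (by intro x hx; simp at hx ⊢; rw [h.add_succ, h.add_succ, hx]) x
  simpa using this

theorem add_comm' (a x : M) : a + x = x + a := by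
  have := indEq h (tadd (cst a) (vr 0)) (tadd (vr 0) (cst a))
    (by simp [h.add_zero, zero_add' h])
    (by intro x hx; simp at hx ⊢; rw [h.add_succ, succ_add' h, hx]) x
  simpa using this

theorem add_assoc' (a b x : M) : (a + b) + x = a + (b + x) := by
  have := indEq h (tadd (cst (a + b)) (vr 0)) (tadd (cst a) (tadd (cst b) (vr 0)))
    (by simp [h.add_zero])
    (by intro x hx; simp at hx ⊢; rw [h.add_succ, h.add_succ, h.add_succ, hx]) x
  simpa using this

theorem zero_mul' (x : M) : 0 * x = 0 := by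
  have := indEq h (tmul (cst 0) (vr 0)) (cst 0)
    (by simp [h.mul_zero])
    (by intro x hx; simp at hx ⊢; rw [h.mul_succ, hx, h.add_zero]) x
  simpa using this

theorem succ_mul' (a x : M) : (a + 1) * x = a * x + x := by
  have := indEq h (tmul (cst (a + 1)) (vr 0)) (tadd (tmul (cst a) (vr 0)) (vr 0))
    (by simp [h.mul_zero, h.add_zero])
    (by
      intro x hx; simp at hx ⊢
      rw [h.mul_succ, h.mul_succ, hx, add_assoc' h, add_assoc' h]
      congr 1
      rw [h.add_succ, h.add_succ, add_comm' h x a]) x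
  simpa using this

theorem mul_comm' (a x : M) : a * x = x * a := by
  have := indEq h (tmul (cst a) (vr 0)) (tmul (vr 0) (cst a))
    (by simp [h.mul_zero, zero_mul' h])
    (by intro x hx; simp at hx ⊢; rw [h.mul_succ, succ_mul' h, hx]) x
  simpa using this

theorem mul_add' (a b x : M) : a * (b + x) = a * b + a * x := by
  have := indEq h (tmul (cst a) (tadd (cst b) (vr 0))) (tadd (cst (a * b)) (tmul (cst a) (vr 0)))
    (by simp [h.mul_zero, h.add_zero])
    (by
      intro x hx; simp at hx ⊢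
      rw [h.add_succ, h.mul_succ, h.mul_succ, hx, add_assoc' h]) x
  simpa using this

theorem mul_assoc' (a b x : M) : (a * b) * x = a * (b * x) := by
  have := indEq h (tmul (cst (a * b)) (vr 0)) (tmul (cst a) (tmul (cst b) (vr 0)))
    (by simp [h.mul_zero])
    (by
      intro x hx; simp at hx ⊢
      rw [h.mul_succ, h.mul_succ, hx, mul_add' h]) x
  simpa using this

theorem mul_one' (a : M) : a * 1 = a := by
  have := h.mul_succ a 0
  rw [zero_add' h, h.mul_zero, zero_add' h] at this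
  exact this

theorem add_left_cancel' (a b x : M) (hx : x + a = x + b) : a = b := by
  rw [add_comm' h x a, add_comm' h x b] at hx
  have := h.induction ((BoundedFormula.equal (tadd (cst a) (vr 0)) (tadd (cst b) (vr 0))).imp
    (BoundedFormula.equal (cst a) (cst b)))
    (IsSigma1.delta0 (IsDelta0.imp (IsDelta0.equal _ _) (IsDelta0.equal _ _)))
    (by simp [h.add_zero])
    (by
      intro x hx
      simp at hx ⊢
      intro h1
      rw [h.add_succ, h.add_succ] at h1
      exact hx (h.succ_inj _ _ h1)) x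
  simp at this
  exact this hx

theorem zero_or_succ' (x : M) : x = 0 ∨ ∃ y, x = y + 1 := by
  have := h.induction (BoundedFormula.ex (((BoundedFormula.equal (vr 0) (cst 0)).imp
      BoundedFormula.falsum).imp (BoundedFormula.equal (vr 0) (tadd (vr 1) (cst 1)))))
    (IsSigma1.ex (IsSigma1.delta0 (IsDelta0.imp (IsDelta0.imp (IsDelta0.equal _ _)
      IsDelta0.falsum) (IsDelta0.equal _ _))))
    (by
      rw [R_ex]
      exact ⟨0, fun h0 => absurd rfl h0⟩)
    (by
      intro x _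
      rw [R_ex]
      exact ⟨x, fun _ => rfl⟩) x
  rw [R_ex] at this
  obtain ⟨y, hy⟩ := this
  by_cases hx : x = 0
  · exact Or.inl hx
  · exact Or.inr ⟨y, hy hx⟩

theorem lt_add_succ (a x : M) : a < a + (x + 1) := by
  have := h.induction (BoundedFormula.rel (L := LA) ArithRel.lt
      ![cst a, tadd (cst a) (tadd (vr 0) (cst 1))])
    (IsSigma1.delta0 (IsDelta0.lt _ _))
    (by
      simp
      rw [zero_add' h, h.lt_succ]
      exact Or.inr rfl)
    (by
      intro x hx
      simp at hx ⊢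
      rw [h.add_succ, h.lt_succ]
      exact Or.inl hx) x
  simpa using this

theorem lt_exists (a x : M) (hax : a < x) : ∃ z, x = a + (z + 1) := by
  have := h.induction (BoundedFormula.ex ((BoundedFormula.rel (L := LA) ArithRel.lt
      ![cst a, vr 0]).imp (BoundedFormula.equal (vr 0) (tadd (cst a) (tadd (vr 1) (cst 1))))))
    (IsSigma1.ex (IsSigma1.delta0 (IsDelta0.imp (IsDelta0.lt _ _) (IsDelta0.equal _ _))))
    (by
      rw [R_ex]
      exact ⟨0, fun h0 => absurd h0 (h.not_lt_zero a)⟩)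
    (by
      intro x hx
      rw [R_ex] at hx ⊢
      obtain ⟨z, hz⟩ := hx
      by_cases h1 : a < x
      · refine ⟨z + 1, fun _ => ?_⟩
        show x + 1 = a + ((z + 1) + 1)
        rw [h.add_succ]
        congr 1
        exact hz h1
      · refine ⟨0, fun h2 => ?_⟩
        have h3 : a < x + 1 := h2
        rcases (h.lt_succ a x).1 h3 with h4 | h4
        · exact absurd h4 h1
        · show x + 1 = a + (0 + 1)
          rw [h4, zero_add' h]) x
  rw [R_ex] at this
  obtain ⟨z, hz⟩ := this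
  exact ⟨z, hz hax⟩

theorem lt_irrefl' (a : M) : ¬ a < a := by
  intro ha
  obtain ⟨z, hz⟩ := lt_exists h a a ha
  have h1 : a + 0 = a + (z + 1) := by rw [h.add_zero]; exact hz
  exact h.succ_ne_zero z (add_left_cancel' h _ _ a h1).symm

theorem lt_trans' {a b c : M} (hab : a < b) (hbc : b < c) : a < c := by
  obtain ⟨z, rfl⟩ := lt_exists h a b hab
  obtain ⟨w, rfl⟩ := lt_exists h _ c hbc
  rw [add_assoc' h, h.add_succ (z + 1) w]
  exact lt_add_succ h a _

theorem trichotomy' (a x : M) : a < x ∨ a = x ∨ x < a := by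
  have := h.induction (((BoundedFormula.rel (L := LA) ArithRel.lt ![cst a, vr 0]).imp
      BoundedFormula.falsum).imp (((BoundedFormula.equal (cst a) (vr 0)).imp
      BoundedFormula.falsum).imp (BoundedFormula.rel (L := LA) ArithRel.lt ![vr 0, cst a])))
    (IsSigma1.delta0 (IsDelta0.imp (IsDelta0.imp (IsDelta0.lt _ _) IsDelta0.falsum)
      (IsDelta0.imp (IsDelta0.imp (IsDelta0.equal _ _) IsDelta0.falsum) (IsDelta0.lt _ _))))
    (by
      simp
      intro _ h2
      rcases zero_or_succ' h a with h3 | ⟨y, rfl⟩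
      · exact absurd h3 h2
      · have := lt_add_succ h 0 y
        rwa [zero_add' h] at this)
    (by
      intro x hx
      simp at hx ⊢
      intro h1 h2
      have h3 : ¬ a < x := fun h4 => h1 ((h.lt_succ a x).2 (Or.inl h4))
      have h4 : ¬ a = x := fun h4 => h1 ((h.lt_succ a x).2 (Or.inr h4))
      obtain ⟨z, hz⟩ := lt_exists h x a (hx h3 h4)
      rcases zero_or_succ' h z with rfl | ⟨w, rfl⟩
      · rw [zero_add' h] at hz
        exact absurd hz h2
      · have e : x + ((w + 1) + 1) = (x + 1) + (w + 1) :=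
          (h.add_succ x (w + 1)).trans (succ_add' h x (w + 1)).symm
        rw [hz, e]
        exact lt_add_succ h _ _) x
  simp at this
  tauto

theorem mul_pos' {a b : M} (ha : 0 < a) (hb : 0 < b) : 0 < a * b := by
  obtain ⟨z, hz⟩ := lt_exists h 0 a ha
  obtain ⟨w, hw⟩ := lt_exists h 0 b hb
  rw [zero_add' h] at hz hw
  rw [hz, hw, h.mul_succ, h.add_succ]
  have := lt_add_succ h 0 ((z + 1) * w + z)
  rwa [zero_add' h] at this

theorem add_lt' {a b : M} (c : M) (hab : a < b) : a + c < b + c := by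
  obtain ⟨z, rfl⟩ := lt_exists h a b hab
  rw [add_assoc' h, add_comm' h (z + 1) c, ← add_assoc' h]
  exact lt_add_succ h _ _

theorem mul_lt' {a b c : M} (hab : a < b) (hc : 0 < c) : a * c < b * c := by
  obtain ⟨z, rfl⟩ := lt_exists h a b hab
  rw [mul_comm' h (a + (z + 1)) c, mul_add' h, mul_comm' h a c]
  have h1 : 0 < c * (z + 1) := mul_pos' h hc (by
    have := lt_add_succ h 0 z
    rwa [zero_add' h] at this)
  obtain ⟨w, hw⟩ := lt_exists h 0 _ h1
  rw [zero_add' h] at hw
  rw [hw]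
  exact lt_add_succ h _ _

theorem one_ne_zero' : (1 : M) ≠ 0 := by
  have := h.succ_ne_zero 0
  rwa [zero_add' h] at this

end alg

open Classical in
/-- the working structure of a model -/
@[instance_reducible] noncomputable def asOf {M : Type u} [ArithStr M] (h : ModelISigma1 M) : AS M where
  add := (· + ·)
  zero := 0
  one := 1
  mul := (· * ·)
  add_assoc a b c := add_assoc' h a b c
  zero_add := zero_add' h
  add_zero := h.add_zero
  add_comm := add_comm' h
  mul_assoc a b c := mul_assoc' h a b c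
  one_mul a := (mul_comm' h 1 a).trans (mul_one' h a)
  mul_one := mul_one' h
  zero_mul := zero_mul' h
  mul_zero := h.mul_zero
  left_distrib a b c := mul_add' h a b c
  right_distrib a b c := by
    show (a + b) * c = a * c + b * c
    rw [mul_comm' h, mul_add' h, mul_comm' h c a, mul_comm' h c b]
  mul_comm := mul_comm' h
  nsmul := nsmulRec
  npow := npowRec
  le a b := a < b ∨ a = b
  lt a b := a < b
  le_refl a := Or.inr rfl
  le_trans a b c := by
    rintro (h1 | rfl) (h2 | rfl)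
    · exact Or.inl (lt_trans' h h1 h2)
    · exact Or.inl h1
    · exact Or.inl h2
    · exact Or.inr rfl
  lt_iff_le_not_ge a b := by
    constructor
    · intro h1
      refine ⟨Or.inl h1, ?_⟩
      rintro (h2 | rfl)
      · exact lt_irrefl' h _ (lt_trans' h h1 h2)
      · exact lt_irrefl' h _ h1
    · rintro ⟨h1 | rfl, h2⟩
      · exact h1
      · exact absurd (Or.inr rfl) h2
  le_antisymm a b := by
    rintro (h1 | rfl) h2
    · rcases h2 with h2 | rfl
      · exact absurd (lt_trans' h h1 h2) (lt_irrefl' h _)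
      · rfl
    · rfl
  le_total a b := by
    rcases trichotomy' h a b with h1 | h1 | h1
    · exact Or.inl (Or.inl h1)
    · exact Or.inl (Or.inr h1)
    · exact Or.inr (Or.inl h1)
  toDecidableLE := Classical.decRel _
  add_le_add_left a b hab c := by
    rcases hab with h1 | rfl
    · exact Or.inl (add_lt' h c h1)
    · exact Or.inr rfl
  le_of_add_le_add_left a b c := by
    rintro (h1 | h1)
    · rcases trichotomy' h b c with h2 | h2 | h2
      · exact Or.inl h2
      · exact Or.inr h2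
      · have h3 := add_lt' h a h2
        rw [add_comm' h c a, add_comm' h b a] at h3
        exact absurd (lt_trans' h h1 h3) (lt_irrefl' h _)
    · exact Or.inr (add_left_cancel' h b c a h1)
  zero_le_one := Or.inl (by
    have := lt_add_succ h 0 0
    rwa [zero_add' h, zero_add' h] at this)
  exists_pair_ne := ⟨0, 1, (one_ne_zero' h).symm⟩
  mul_lt_mul_of_pos_left a ha b c hbc := by
    show a * b < a * c
    rw [mul_comm' h a b, mul_comm' h a c]
    exact mul_lt' h hbc ha
  mul_lt_mul_of_pos_right a ha b c hbc := mul_lt' h hbc ha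
  exists_add_of_le {a b} hab := by
    rcases hab with h1 | rfl
    · obtain ⟨z, hz⟩ := lt_exists h a b h1
      exact ⟨z + 1, hz⟩
    · exact ⟨0, (h.add_zero a).symm⟩
  le_add_self a b := by
    show a < b + a ∨ a = b + a
    rw [add_comm' h b a]
    rcases zero_or_succ' h b with rfl | ⟨z, rfl⟩
    · exact Or.inr (h.add_zero a).symm
    · exact Or.inl (lt_add_succ h a z)
  le_self_add a b := by
    rcases zero_or_succ' h b with rfl | ⟨z, rfl⟩
    · exact Or.inr (h.add_zero a).symm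
    · exact Or.inl (lt_add_succ h a z)
  ex2 := exp
  ex2_zero := h.exp_zero
  ex2_dbl x := by
    show exp (x + 1) = exp x + exp x
    rw [h.exp_succ, h.mul_succ, mul_one' h]
  lt_succ x y := h.lt_succ x y

section translate

variable {M : Type u} [ArithStr M] (h : ModelISigma1 M)

include h

theorem Tm0_term {n : ℕ} {t : (Fin n → M) → M} (ht : @Tm0 M (asOf h) n t) :
    ∃ τ : LA.Term (M ⊕ Fin n), ∀ v, τ.realize (Sum.elim id v) = t v := by
  induction ht with
  | var i => exact ⟨vr i, fun v => rfl⟩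
  | const a => exact ⟨cst a, fun v => rfl⟩
  | add _ _ h1 h2 =>
    obtain ⟨a, ha⟩ := h1
    obtain ⟨b, hb⟩ := h2
    exact ⟨tadd a b, fun v => by rw [r_tadd, ha, hb]⟩
  | mul _ _ h1 h2 =>
    obtain ⟨a, ha⟩ := h1
    obtain ⟨b, hb⟩ := h2
    exact ⟨tmul a b, fun v => by rw [r_tmul, ha, hb]⟩
  | exp _ h1 =>
    obtain ⟨a, ha⟩ := h1
    exact ⟨texp a, fun v => by rw [r_texp, ha]; rfl⟩

theorem IsD0_formula {n : ℕ} {R : (Fin n → M) → Prop} (hR : @IsD0 M (asOf h) n R) :
    ∃ φ : LA.BoundedFormula M n, IsDelta0 φ ∧ ∀ v, φ.Realize id v ↔ R v := by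
  induction hR with
  | eq h1 h2 =>
    obtain ⟨a, ha⟩ := Tm0_term h h1
    obtain ⟨b, hb⟩ := Tm0_term h h2
    exact ⟨BoundedFormula.equal a b, IsDelta0.equal _ _, fun v => by rw [R_equal, ha, hb]⟩
  | lt h1 h2 =>
    obtain ⟨a, ha⟩ := Tm0_term h h1
    obtain ⟨b, hb⟩ := Tm0_term h h2
    exact ⟨BoundedFormula.rel (L := LA) ArithRel.lt ![a, b], IsDelta0.lt _ _,
      fun v => by rw [R_lt, ha, hb]⟩
  | bot => exact ⟨BoundedFormula.falsum, IsDelta0.falsum, fun v => Iff.rfl⟩
  | imp _ _ h1 h2 =>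
    obtain ⟨φ, h3, h4⟩ := h1
    obtain ⟨ψ, h5, h6⟩ := h2
    exact ⟨φ.imp ψ, h3.imp h5, fun v => by rw [R_imp, h4, h6]⟩
  | ball ht _ ih =>
    obtain ⟨τ, hτ⟩ := Tm0_term h ht
    obtain ⟨φ, h3, h4⟩ := ih
    refine ⟨_, IsDelta0.ball τ h3, fun v => ?_⟩
    rw [R_ball, hτ]
    simp only [h4]

theorem term_Tm0 {n : ℕ} (τ : LA.Term (M ⊕ Fin n)) :
    @Tm0 M (asOf h) n (fun v => τ.realize (Sum.elim id v)) := by
  let _ := asOf h
  induction τ with
  | var a =>
    rcases a with a | a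
    · exact Tm0.const a
    · exact Tm0.var a
  | @func l f ts ih =>
    match l, f, ts, ih with
    | _, .zero, ts, ih => exact Tm0.const (0 : M)
    | _, .one, ts, ih => exact Tm0.const (1 : M)
    | _, .add, ts, ih => exact Tm0.add (ih 0) (ih 1)
    | _, .mul, ts, ih => exact Tm0.mul (ih 0) (ih 1)
    | _, .exp, ts, ih => exact Tm0.exp (ih 0)

theorem formula_IsD0 {n : ℕ} {φ : LA.BoundedFormula M n} (hφ : IsDelta0 φ) :
    @IsD0 M (asOf h) n (fun v => φ.Realize id v) := by
  let _ := asOf h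
  induction hφ with
  | falsum => exact IsD0.bot
  | equal s t => exact IsD0.eq (term_Tm0 h s) (term_Tm0 h t)
  | lt s t => exact IsD0.lt (term_Tm0 h s) (term_Tm0 h t)
  | imp _ _ h1 h2 => exact IsD0.imp h1 h2
  | ball t _ ih =>
    have := IsD0.ball (term_Tm0 h t) ih
    convert this using 2 with v
    rw [R_ball]

end translate

/-- the working class instance of a model -/
@[instance_reducible] noncomputable def is1Of {M : Type u} [ArithStr M] (h : ModelISigma1 M) :
    IS1 M :=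
  { asOf h with
    ind := by
      intro θ hθ h0 hs
      obtain ⟨φ, h1, h2⟩ := IsD0_formula h hθ.d0
      have h2' : ∀ v : Fin 2 → M, BoundedFormula.Realize (l := 2) φ id v ↔ θ (v 0, v 1) := h2
      have h3 : ∀ x : M, (BoundedFormula.ex (n := 1) φ).Realize id ![x] ↔ ∃ y, θ (x, y) := by
        intro x
        rw [R_ex]
        refine exists_congr fun y => ?_
        rw [h2']
        rfl
      intro x
      rw [← h3]
      refine h.induction _ (IsSigma1.ex (IsSigma1.delta0 h1)) ((h3 _).2 h0) (fun x hx => ?_) x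
      exact (h3 _).2 (hs x ((h3 _).1 hx)) }

section sigma

variable {M : Type u} [ArithStr M] (h : ModelISigma1 M)

include h

theorem SN_of_sigma1 {n : ℕ} {φ : LA.BoundedFormula M n} (hφ : IsSigma1 φ) :
    @SN M (is1Of h) (Fin n → M) (cxFin n) (fun v => φ.Realize id v) := by
  let _ := is1Of h
  induction hφ with
  | delta0 h1 => exact SN_fin_D0 (formula_IsD0 h h1)
  | ex _ ih =>
    have := SN_fin_ex ih
    exact this.congr fun v => R_ex _ v

theorem isCE_iff (A : Set M) : IsCE A ↔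
    @SN M (is1Of h) (M × M) _ (fun w : M × M => w.2 ∈ A) := by
  let _ := is1Of h
  constructor
  · rintro ⟨φ, h1, h2⟩
    have h3 := SN_of_sigma1 h h1
    refine SN_fin_one (P := fun x => x ∈ A) (h3.congr fun v => ?_)
    show v 0 ∈ A ↔ _
    rw [h2]
    have : (![v 0] : Fin 1 → M) = v := by
      funext i; rw [Subsingleton.elim i 0]; rfl
    rw [this]
  · intro h1
    obtain ⟨θ, h2, h3⟩ := SN_one_matrix (P := fun x => x ∈ A) h1
    obtain ⟨φ, h4, h5⟩ := IsD0_formula h h2
    refine ⟨φ.ex, IsSigma1.ex (IsSigma1.delta0 h4), fun x => ?_⟩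
    rw [R_ex, h3]
    refine exists_congr fun y => ?_
    rw [h5]
    have : (Fin.snoc ![x] y : Fin 2 → M) = ![x, y] := by
      funext i; fin_cases i <;> rfl
    rw [this]

theorem isCE4_iff (Φ : M → M → M → M → Prop) : IsCE4 Φ ↔
    @SN M (is1Of h) (((M × M) × M) × M) _
      (fun w : ((M × M) × M) × M => Φ w.1.1.1 w.1.1.2 w.1.2 w.2) := by
  let _ := is1Of h
  constructor
  · rintro ⟨φ, h1, h2⟩
    have h3 := SN_of_sigma1 h h1
    refine SN_fin_four (Φ := Φ) (h3.congr fun v => ?_)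
    show Φ (v 0) (v 1) (v 2) (v 3) ↔ _
    rw [h2]
    have : (![v 0, v 1, v 2, v 3] : Fin 4 → M) = v := by
      funext i; fin_cases i <;> rfl
    rw [this]
  · intro h1
    obtain ⟨θ, h2, h3⟩ := SN_four_matrix (Φ := Φ) h1
    obtain ⟨φ, h4, h5⟩ := IsD0_formula h h2
    refine ⟨φ.ex, IsSigma1.ex (IsSigma1.delta0 h4), fun X y P N => ?_⟩
    rw [R_ex, h3]
    refine exists_congr fun z => ?_
    rw [h5]
    have : (Fin.snoc ![X, y, P, N] z : Fin 5 → M) = ![X, y, P, N, z] := by
      funext i; fin_cases i <;> rfl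
    rw [this]

theorem Dig_iff (x X : M) : Dig x X ↔ @Mem M (is1Of h) x X := by
  let _ := is1Of h
  have e : ((1 : M) + 1) = 2 := one_add_one_eq_two
  unfold Dig Mem
  rw [← e]
  exact Iff.rfl

theorem CSub_iff (X Y : M) : CSub X Y ↔ @Sub M (is1Of h) X Y := by
  unfold CSub Sub
  simp only [Dig_iff h]

theorem CDisj_iff (X Y : M) : CDisj X Y ↔ @Dj M (is1Of h) X Y := by
  unfold CDisj Dj
  simp only [Dig_iff h]

theorem func_iff (Φ : M → M → M → M → Prop) : IsFunctional Φ ↔ @Func M (is1Of h) Φ := by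
  constructor
  · rintro ⟨h1, h2, h3, h4⟩
    refine @Func.mk M (is1Of h) Φ ((isCE4_iff h Φ).1 h1) ?_ ?_ ?_
    · intro X y P N hh
      exact (CDisj_iff h _ _).1 (h2 X y P N hh)
    · intro X y P N X' P' N' hh k1 k2 k3 k4
      exact h3 X y P N X' P' N' hh ((CSub_iff h _ _).2 k1) ((CSub_iff h _ _).2 k2)
        ((CSub_iff h _ _).2 k3) ((CDisj_iff h _ _).2 k4)
    · rintro X y y' P N ⟨z, hz⟩ hh hh'
      exact h4 X y y' P N ⟨z, (Dig_iff h _ _).2 hz⟩ hh hh'
  · rintro ⟨h1, h2, h3, h4⟩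
    refine ⟨(isCE4_iff h Φ).2 h1, ?_, ?_, ?_⟩
    · intro X y P N hh
      exact (CDisj_iff h _ _).2 (h2 X y P N hh)
    · intro X y P N X' P' N' hh k1 k2 k3 k4
      exact h3 X y P N X' P' N' hh ((CSub_iff h _ _).1 k1) ((CSub_iff h _ _).1 k2)
        ((CSub_iff h _ _).1 k3) ((CDisj_iff h _ _).1 k4)
    · rintro X y y' P N ⟨z, hz⟩ hh hh'
      exact h4 X y y' P N ⟨z, (Dig_iff h _ _).1 hz⟩ hh hh'

theorem TLE_iff (A B : Set M) : TLE A B ↔ @TR M (is1Of h) (fun x => x ∈ A) (fun x => x ∈ B) := by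
  let _ := is1Of h
  unfold TLE TR Tr
  simp only [func_iff h, Dig_iff h, and_assoc]

theorem TLE_refl (A : Set M) : TLE A A := by
  rw [TLE_iff h]
  exact @TR_refl M (is1Of h) _

theorem TLE_trans {A B C : Set M} (h1 : TLE A B) (h2 : TLE B C) : TLE A C := by
  rw [TLE_iff h] at h1 h2 ⊢
  exact @TR_trans M (is1Of h) _ _ _ h1 h2

/-- the three sets -/
theorem exists_sets : ∃ A D B : Set M, IsCE A ∧ IsDCE D ∧ IsCE B ∧ TLE A D ∧ TLE D B ∧
    ¬ TLE D A ∧ ¬ TLE B D ∧ (∀ C : Set M, IsCE C → TLE C D → TLE C A) ∧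
    (∀ C : Set M, IsCE C → TLE D C → TLE B C) := by
  let _ := is1Of h
  refine ⟨{x | As x}, {x | Ds x}, {x | Bs x}, (isCE_iff h _).2 SN_As,
    ⟨{x | Bs x}, {x | Xs x}, (isCE_iff h _).2 SN_Bs, (isCE_iff h _).2 SN_Xs, rfl⟩,
    (isCE_iff h _).2 SN_Bs, (TLE_iff h _ _).2 TR_As_Ds, (TLE_iff h _ _).2 TR_Ds_Bs,
    fun h1 => not_TR_Ds_As ((TLE_iff h _ _).1 h1), fun h1 => not_TR_Bs_Ds ((TLE_iff h _ _).1 h1),
    fun C h1 h2 => ?_, fun C h1 h2 => ?_⟩
  · exact (TLE_iff h _ _).2 (TR_As_of_TR_Ds (fun x => x ∈ C) ((isCE_iff h C).1 h1)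
      ((TLE_iff h _ _).1 h2))
  · exact (TLE_iff h _ _).2 (TR_Bs_of_TR_Ds (fun x => x ∈ C) ((isCE_iff h C).1 h1)
      ((TLE_iff h _ _).1 h2))

theorem mem_deg (A : Set M) : A ∈ deg A := ⟨TLE_refl h A, TLE_refl h A⟩

theorem DLE_deg {a b : Set (Set M)} {A B : Set M} (ha : ∃ A0, a = deg A0) (hb : ∃ B0, b = deg B0)
    (hA : A ∈ a) (hB : B ∈ b) : DLE a b ↔ TLE A B := by
  obtain ⟨A0, rfl⟩ := ha
  obtain ⟨B0, rfl⟩ := hb
  constructor
  · rintro ⟨A1, hA1, B1, hB1, h1⟩
    exact TLE_trans h (TLE_trans h (TLE_trans h hA.2 hA1.1) h1) (TLE_trans h hB1.2 hB.1)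
  · exact fun h1 => ⟨A, hA, B, hB, h1⟩

theorem exists_biIsolated : ∃ d : Set (Set M), BiIsolated d := by
  obtain ⟨A, D, B, hA, hD, hB, hAD, hDB, hDA, hBD, h1, h2⟩ := exists_sets h
  have mA := mem_deg h A
  have mD := mem_deg h D
  have mB := mem_deg h B
  refine ⟨deg D, ⟨⟨D, rfl⟩, D, mD, hD⟩, ⟨deg A, ⟨⟨A, rfl⟩, A, mA, hA⟩, ⟨?_, ?_⟩, ?_⟩,
    ⟨deg B, ⟨⟨B, rfl⟩, B, mB, hB⟩, ⟨?_, ?_⟩, ?_⟩⟩
  · exact (DLE_deg h ⟨A, rfl⟩ ⟨D, rfl⟩ mA mD).2 hAD
  · rwa [DLE_deg h ⟨D, rfl⟩ ⟨A, rfl⟩ mD mA]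
  · rintro c ⟨hc, C, hC1, hC2⟩ ⟨h3, _⟩
    rw [DLE_deg h hc ⟨D, rfl⟩ hC1 mD] at h3
    rw [DLE_deg h hc ⟨A, rfl⟩ hC1 mA]
    exact h1 C hC2 h3
  · exact (DLE_deg h ⟨D, rfl⟩ ⟨B, rfl⟩ mD mB).2 hDB
  · rwa [DLE_deg h ⟨B, rfl⟩ ⟨D, rfl⟩ mB mD]
  · rintro c ⟨hc, C, hC1, hC2⟩ ⟨h3, _⟩
    rw [DLE_deg h ⟨D, rfl⟩ hc mD hC1] at h3
    rw [DLE_deg h ⟨B, rfl⟩ hc mB hC1]
    exact h2 C hC2 h3

end sigma

end Pool.Agent.H54.BiIso
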