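import Pool.Agent.H54.Red

/-!
The construction: a recursive set of stages.
-/

set_option synthInstance.maxSize 100000

namespace Pool.Agent.H54

universe u

section

variable {M : Type u} [IS1 M] {Γ Δ : Type u} [Cx M Γ] [Cx M Δ]

/-- priority of a stage -/
noncomputable def pri (s : M) : M := fs (fs s)
/-- type of the action of a stage: zero enter, one request, two grant -/
noncomputable def tg (s : M) : M := fs (sn (fs s))
/-- data of a stage; for grants this is the request which is granted -/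
noncomputable def dt (s : M) : M := sn (sn (fs s))
noncomputable def rm (s : M) : M := fs (dt s)
noncomputable def rt (s : M) : M := fs (sn (dt s))
noncomputable def rP (s : M) : M := fs (sn (sn (dt s)))
noncomputable def rN (s : M) : M := sn (sn (sn (dt s)))

instance instFnpri (f : Γ → M) [hf : Fn f] : Fn (fun γ => pri (f γ)) := by
  unfold H54.pri; infer_instance
instance instFntg (f : Γ → M) [hf : Fn f] : Fn (fun γ => tg (f γ)) := by
  unfold H54.tg; infer_instance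
instance instFndt (f : Γ → M) [hf : Fn f] : Fn (fun γ => dt (f γ)) := by
  unfold H54.dt; infer_instance
instance instFnrm (f : Γ → M) [hf : Fn f] : Fn (fun γ => rm (f γ)) := by
  unfold H54.rm; infer_instance
instance instFnrt (f : Γ → M) [hf : Fn f] : Fn (fun γ => rt (f γ)) := by
  unfold H54.rt; infer_instance
instance instFnrP (f : Γ → M) [hf : Fn f] : Fn (fun γ => rP (f γ)) := by
  unfold H54.rP; infer_instance
instance instFnrN (f : Γ → M) [hf : Fn f] : Fn (fun γ => rN (f γ)) := by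
  unfold H54.rN; infer_instance

/-- numbers entered before stage `s` -/
def FF (H : M → Prop) (s x : M) : Prop := ∃ t, t < s ∧ (H t ∧ tg t = 0 ∧ rm t = x)

/-- `x` is taken out at the grant stage `g` -/
def Ext (H : M → Prop) (g x : M) : Prop :=
  tg g = 2 ∧ Mem x (rN (dt g)) ∧ FF H g x ∧ ¬ FF H (rt (dt g)) x

/-- numbers taken out before stage `s` -/
def XX (H : M → Prop) (s x : M) : Prop := ∃ g, g < s ∧ (H g ∧ Ext H g x)

/-- the even part -/
def AA (H : M → Prop) (s y : M) : Prop := ∃ t, t < s ∧ (H t ∧ tg t = 0 ∧ XX H s (rm t) ∧ y = 2 * t)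

def DD (H : M → Prop) (s x : M) : Prop := AA H s x ∨ (FF H s x ∧ ¬ XX H s x)

def TT (H : M → Prop) (p s x : M) : Prop := (∃ n, n ≤ x ∧ (x = 2 * n ∧ Us (sn p) n s)) ∨ FF H s x

def Val (H : M → Prop) (s P N : M) : Prop := (∀ x, Mem x P → DD H s x) ∧ (∀ x, Mem x N → ¬ DD H s x)

/-- no event of priority at most `p` in `[t, s)` -/
def NoEv (H : M → Prop) (p t s : M) : Prop := ∀ v, v < s → (t ≤ v ∧ H v) → p < pri v

/-- no event of priority less than `p` in `[t, s)` -/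
def NoLt (H : M → Prop) (p t s : M) : Prop := ∀ v, v < s → (t ≤ v ∧ H v) → p ≤ pri v

def Won (H : M → Prop) (p s : M) : Prop := ∃ g, g < s ∧ (H g ∧ tg g = 2 ∧ pri g = p ∧ NoLt H p g s)

def Agr (H : M → Prop) (k d s : M) : Prop := ∀ x, x ≤ d → ∃ P, P < s ∧ ∃ N, N < s ∧
  ((∀ y, Mem y P → Us (sn k) y s) ∧ (∀ y, Mem y N → ¬ Us (sn k) y s) ∧
    ((DD H s x ∧ Us (fs k) (q4 (ex2 x) 1 P N) s) ∨ (¬ DD H s x ∧ Us (fs k) (q4 (ex2 x) 0 P N) s)))

def Permit (H : M → Prop) (k d s : M) : Prop := ∃ t, t < s ∧ ((H t ∧ tg t = 0 ∧ rm t = d) ∧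
  ((∀ s', s' ≤ t → (d < s' → ¬ Agr H k d s')) ∨ (∃ s', s' ≤ s ∧ (t < s' ∧ Agr H k d s'))))

def Blk (H : M → Prop) (k j s : M) : Prop :=
  ∃ d, Mem d (rN j) ∧ (FF H s d ∧ ¬ FF H (rt j) d ∧ ¬ Permit H k d s)

def Grantable (H : M → Prop) (p j s : M) : Prop := ∀ k, k ≤ p → ¬ Blk H k j s

def Act (H : M → Prop) (p j s : M) : Prop := j < s ∧ H j ∧ tg j ≤ 1 ∧ pri j = p ∧ NoLt H p j s

def ReqOK (H : M → Prop) (s : M) : Prop :=
  rt s < s ∧ NoEv H (pri s) (rt s) s ∧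
  Us (fs (pri s)) (pr (rm s) (pr (rP s) (rN s))) (rt s) ∧ rP s < rt s ∧ rN s < rt s ∧
  Val H (rt s) (rP s) (rN s) ∧ ¬ TT H (pri s) (rt s) (rm s) ∧
  (∀ x, Mem x (rN s) → ¬ AA H s x) ∧ (∀ x, Mem x (rP s) → ¬ XX H s x)

def Fresh (H : M → Prop) (s : M) : Prop :=
  ∃ r, r ≤ rt s ∧ (rm s = 2 * pr (pri s) r + 1 ∧ NoEv H (pri s) r s)

/-- eligibility of the action of stage `s` -/
def Elig (H : M → Prop) (s : M) : Prop :=
  ¬ Won H (pri s) s ∧
  ((tg s = 2 ∧ Act H (pri s) (dt s) s ∧ Grantable H (pri s) (dt s) s) ∨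
   (tg s ≤ 1 ∧ (∀ j, j < s → (Act H (pri s) j s → ¬ Grantable H (pri s) j s)) ∧ ReqOK H s ∧
     ((tg s = 0 ∧ Fresh H s) ∨ (tg s = 1 ∧ TT H (pri s) s (rm s)))))

/-! Definability for coded histories. -/

/-- membership predicate of a coded set -/
abbrev mm (h : M) : M → Prop := fun t => Mem t h

theorem D1_FF : D1 (fun w : (M × M) × M => FF (mm w.1.1) w.1.2 w.2) := by
  unfold FF; infer_instance
instance instD1FF (f g h : Γ → M) [hf : Fn f] [hg : Fn g] [hh : Fn h] :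
    D1 (fun γ => FF (mm (f γ)) (g γ) (h γ)) :=
  D1.app3 (P := fun a b c => FF (mm a) b c) D1_FF f g h

theorem D1_Ext : D1 (fun w : (M × M) × M => Ext (mm w.1.1) w.1.2 w.2) := by
  unfold Ext; infer_instance
instance instD1Ext (f g h : Γ → M) [hf : Fn f] [hg : Fn g] [hh : Fn h] :
    D1 (fun γ => Ext (mm (f γ)) (g γ) (h γ)) :=
  D1.app3 (P := fun a b c => Ext (mm a) b c) D1_Ext f g h

theorem D1_XX : D1 (fun w : (M × M) × M => XX (mm w.1.1) w.1.2 w.2) := by
  unfold XX; infer_instance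
instance instD1XX (f g h : Γ → M) [hf : Fn f] [hg : Fn g] [hh : Fn h] :
    D1 (fun γ => XX (mm (f γ)) (g γ) (h γ)) :=
  D1.app3 (P := fun a b c => XX (mm a) b c) D1_XX f g h

theorem D1_AA : D1 (fun w : (M × M) × M => AA (mm w.1.1) w.1.2 w.2) := by
  unfold AA; infer_instance
instance instD1AA (f g h : Γ → M) [hf : Fn f] [hg : Fn g] [hh : Fn h] :
    D1 (fun γ => AA (mm (f γ)) (g γ) (h γ)) :=
  D1.app3 (P := fun a b c => AA (mm a) b c) D1_AA f g h

theorem D1_DD : D1 (fun w : (M × M) × M => DD (mm w.1.1) w.1.2 w.2) := by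
  unfold DD; infer_instance
instance instD1DD (f g h : Γ → M) [hf : Fn f] [hg : Fn g] [hh : Fn h] :
    D1 (fun γ => DD (mm (f γ)) (g γ) (h γ)) :=
  D1.app3 (P := fun a b c => DD (mm a) b c) D1_DD f g h

theorem D1_TT : D1 (fun w : ((M × M) × M) × M => TT (mm w.1.1.1) w.1.1.2 w.1.2 w.2) := by
  unfold TT; infer_instance
instance instD1TT (f g h k : Γ → M) [hf : Fn f] [hg : Fn g] [hh : Fn h] [hk : Fn k] :
    D1 (fun γ => TT (mm (f γ)) (g γ) (h γ) (k γ)) :=
  D1.app4 (P := fun a b c d => TT (mm a) b c d) D1_TT f g h k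

theorem D1_Val : D1 (fun w : ((M × M) × M) × M => Val (mm w.1.1.1) w.1.1.2 w.1.2 w.2) := by
  unfold Val; infer_instance
instance instD1Val (f g h k : Γ → M) [hf : Fn f] [hg : Fn g] [hh : Fn h] [hk : Fn k] :
    D1 (fun γ => Val (mm (f γ)) (g γ) (h γ) (k γ)) :=
  D1.app4 (P := fun a b c d => Val (mm a) b c d) D1_Val f g h k

theorem D1_NoEv : D1 (fun w : ((M × M) × M) × M => NoEv (mm w.1.1.1) w.1.1.2 w.1.2 w.2) := by
  unfold NoEv; infer_instance
instance instD1NoEv (f g h k : Γ → M) [hf : Fn f] [hg : Fn g] [hh : Fn h] [hk : Fn k] :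
    D1 (fun γ => NoEv (mm (f γ)) (g γ) (h γ) (k γ)) :=
  D1.app4 (P := fun a b c d => NoEv (mm a) b c d) D1_NoEv f g h k

theorem D1_NoLt : D1 (fun w : ((M × M) × M) × M => NoLt (mm w.1.1.1) w.1.1.2 w.1.2 w.2) := by
  unfold NoLt; infer_instance
instance instD1NoLt (f g h k : Γ → M) [hf : Fn f] [hg : Fn g] [hh : Fn h] [hk : Fn k] :
    D1 (fun γ => NoLt (mm (f γ)) (g γ) (h γ) (k γ)) :=
  D1.app4 (P := fun a b c d => NoLt (mm a) b c d) D1_NoLt f g h k

theorem D1_Won : D1 (fun w : (M × M) × M => Won (mm w.1.1) w.1.2 w.2) := by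
  unfold Won; infer_instance
instance instD1Won (f g h : Γ → M) [hf : Fn f] [hg : Fn g] [hh : Fn h] :
    D1 (fun γ => Won (mm (f γ)) (g γ) (h γ)) :=
  D1.app3 (P := fun a b c => Won (mm a) b c) D1_Won f g h

theorem D1_Agr : D1 (fun w : ((M × M) × M) × M => Agr (mm w.1.1.1) w.1.1.2 w.1.2 w.2) := by
  unfold Agr; infer_instance
instance instD1Agr (f g h k : Γ → M) [hf : Fn f] [hg : Fn g] [hh : Fn h] [hk : Fn k] :
    D1 (fun γ => Agr (mm (f γ)) (g γ) (h γ) (k γ)) :=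
  D1.app4 (P := fun a b c d => Agr (mm a) b c d) D1_Agr f g h k

theorem D1_Permit : D1 (fun w : ((M × M) × M) × M => Permit (mm w.1.1.1) w.1.1.2 w.1.2 w.2) := by
  unfold Permit; infer_instance
instance instD1Permit (f g h k : Γ → M) [hf : Fn f] [hg : Fn g] [hh : Fn h] [hk : Fn k] :
    D1 (fun γ => Permit (mm (f γ)) (g γ) (h γ) (k γ)) :=
  D1.app4 (P := fun a b c d => Permit (mm a) b c d) D1_Permit f g h k

theorem D1_Blk : D1 (fun w : ((M × M) × M) × M => Blk (mm w.1.1.1) w.1.1.2 w.1.2 w.2) := by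
  unfold Blk; infer_instance
instance instD1Blk (f g h k : Γ → M) [hf : Fn f] [hg : Fn g] [hh : Fn h] [hk : Fn k] :
    D1 (fun γ => Blk (mm (f γ)) (g γ) (h γ) (k γ)) :=
  D1.app4 (P := fun a b c d => Blk (mm a) b c d) D1_Blk f g h k

theorem D1_Grantable :
    D1 (fun w : ((M × M) × M) × M => Grantable (mm w.1.1.1) w.1.1.2 w.1.2 w.2) := by
  unfold Grantable; infer_instance
instance instD1Grantable (f g h k : Γ → M) [hf : Fn f] [hg : Fn g] [hh : Fn h] [hk : Fn k] :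
    D1 (fun γ => Grantable (mm (f γ)) (g γ) (h γ) (k γ)) :=
  D1.app4 (P := fun a b c d => Grantable (mm a) b c d) D1_Grantable f g h k

theorem D1_Act : D1 (fun w : ((M × M) × M) × M => Act (mm w.1.1.1) w.1.1.2 w.1.2 w.2) := by
  unfold Act; infer_instance
instance instD1Act (f g h k : Γ → M) [hf : Fn f] [hg : Fn g] [hh : Fn h] [hk : Fn k] :
    D1 (fun γ => Act (mm (f γ)) (g γ) (h γ) (k γ)) :=
  D1.app4 (P := fun a b c d => Act (mm a) b c d) D1_Act f g h k

theorem D1_ReqOK : D1 (fun w : M × M => ReqOK (mm w.1) w.2) := by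
  unfold ReqOK; infer_instance
instance instD1ReqOK (f g : Γ → M) [hf : Fn f] [hg : Fn g] :
    D1 (fun γ => ReqOK (mm (f γ)) (g γ)) :=
  D1.app2 (P := fun a b => ReqOK (mm a) b) D1_ReqOK f g

theorem D1_Fresh : D1 (fun w : M × M => Fresh (mm w.1) w.2) := by
  unfold Fresh; infer_instance
instance instD1Fresh (f g : Γ → M) [hf : Fn f] [hg : Fn g] :
    D1 (fun γ => Fresh (mm (f γ)) (g γ)) :=
  D1.app2 (P := fun a b => Fresh (mm a) b) D1_Fresh f g

theorem D1_Elig : D1 (fun w : M × M => Elig (mm w.1) w.2) := by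
  unfold Elig; infer_instance
instance instD1Elig (f g : Γ → M) [hf : Fn f] [hg : Fn g] :
    D1 (fun γ => Elig (mm (f γ)) (g γ)) :=
  D1.app2 (P := fun a b => Elig (mm a) b) D1_Elig f g

/-! Locality -/

theorem dt_le (s : M) : dt s ≤ s := (sn_le _).trans ((sn_le _).trans (fs_le _))
theorem pri_le (s : M) : pri s ≤ s := (fs_le _).trans (fs_le _)
theorem rt_le (s : M) : rt s ≤ s := (fs_le _).trans ((sn_le _).trans (dt_le _))

/-- agreement below `s` -/
def AgB (H H' : M → Prop) (s : M) : Prop := ∀ t, t < s → (H t ↔ H' t)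

theorem AgB.symm {H H' : M → Prop} {s : M} (h : AgB H H' s) : AgB H' H s := fun t ht => (h t ht).symm

theorem AgB.mono {H H' : M → Prop} {s s' : M} (h : AgB H H' s) (hs : s' ≤ s) : AgB H H' s' :=
  fun t ht => h t (lt_of_lt_of_le ht hs)

theorem AgB.FF1 {H H' : M → Prop} {s x : M} (h : AgB H H' s) (hF : FF H s x) : FF H' s x := by
  obtain ⟨t, ht, h1, h2⟩ := hF
  exact ⟨t, ht, (h t ht).1 h1, h2⟩

theorem AgB.FF {H H' : M → Prop} {s x : M} (h : AgB H H' s) : FF H s x ↔ FF H' s x :=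
  ⟨h.FF1, h.symm.FF1⟩

theorem AgB.Ext {H H' : M → Prop} {s x : M} (h : AgB H H' s) : Ext H s x ↔ Ext H' s x := by
  unfold H54.Ext
  rw [h.FF, (h.mono ((rt_le _).trans (dt_le _))).FF]

theorem AgB.XX1 {H H' : M → Prop} {s x : M} (h : AgB H H' s) (hF : XX H s x) : XX H' s x := by
  obtain ⟨t, ht, h1, h2⟩ := hF
  exact ⟨t, ht, (h t ht).1 h1, (h.mono ht.le).Ext.1 h2⟩

theorem AgB.XX {H H' : M → Prop} {s x : M} (h : AgB H H' s) : XX H s x ↔ XX H' s x :=
  ⟨h.XX1, h.symm.XX1⟩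

theorem AgB.AA1 {H H' : M → Prop} {s x : M} (h : AgB H H' s) (hF : AA H s x) : AA H' s x := by
  obtain ⟨t, ht, h1, h2, h3, h4⟩ := hF
  exact ⟨t, ht, (h t ht).1 h1, h2, h.XX.1 h3, h4⟩

theorem AgB.AA {H H' : M → Prop} {s x : M} (h : AgB H H' s) : AA H s x ↔ AA H' s x :=
  ⟨h.AA1, h.symm.AA1⟩

theorem AgB.DD {H H' : M → Prop} {s x : M} (h : AgB H H' s) : DD H s x ↔ DD H' s x := by
  unfold H54.DD
  rw [h.FF, h.XX, h.AA]

theorem AgB.TT {H H' : M → Prop} {p s x : M} (h : AgB H H' s) : TT H p s x ↔ TT H' p s x := by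
  unfold H54.TT
  rw [h.FF]

theorem AgB.Val {H H' : M → Prop} {s P N : M} (h : AgB H H' s) : Val H s P N ↔ Val H' s P N := by
  unfold H54.Val
  simp only [h.DD]

theorem AgB.NoEv1 {H H' : M → Prop} {p t s : M} (h : AgB H H' s) (hF : NoEv H p t s) :
    NoEv H' p t s := fun v hv hv' => hF v hv ⟨hv'.1, (h v hv).2 hv'.2⟩

theorem AgB.NoEv {H H' : M → Prop} {p t s : M} (h : AgB H H' s) : NoEv H p t s ↔ NoEv H' p t s :=
  ⟨h.NoEv1, h.symm.NoEv1⟩

theorem AgB.NoLt1 {H H' : M → Prop} {p t s : M} (h : AgB H H' s) (hF : NoLt H p t s) :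
    NoLt H' p t s := fun v hv hv' => hF v hv ⟨hv'.1, (h v hv).2 hv'.2⟩

theorem AgB.NoLt {H H' : M → Prop} {p t s : M} (h : AgB H H' s) : NoLt H p t s ↔ NoLt H' p t s :=
  ⟨h.NoLt1, h.symm.NoLt1⟩

theorem AgB.Won1 {H H' : M → Prop} {p s : M} (h : AgB H H' s) (hF : Won H p s) : Won H' p s := by
  obtain ⟨t, ht, h1, h2, h3, h4⟩ := hF
  exact ⟨t, ht, (h t ht).1 h1, h2, h3, h.NoLt.1 h4⟩

theorem AgB.Won {H H' : M → Prop} {p s : M} (h : AgB H H' s) : Won H p s ↔ Won H' p s :=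
  ⟨h.Won1, h.symm.Won1⟩

theorem AgB.Agr {H H' : M → Prop} {k d s : M} (h : AgB H H' s) : Agr H k d s ↔ Agr H' k d s := by
  unfold H54.Agr
  simp only [h.DD]

theorem AgB.Permit1 {H H' : M → Prop} {k d s : M} (h : AgB H H' s) (hF : Permit H k d s) :
    Permit H' k d s := by
  obtain ⟨t, ht, ⟨h1, h2, h3⟩, h4⟩ := hF
  refine ⟨t, ht, ⟨(h t ht).1 h1, h2, h3⟩, h4.imp (fun h5 s' hs' hd hA => ?_) (fun h5 => ?_)⟩
  · exact h5 s' hs' hd ((h.mono (hs'.trans ht.le)).Agr.2 hA)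
  · obtain ⟨s', hs', hts, hA⟩ := h5
    exact ⟨s', hs', hts, (h.mono hs').Agr.1 hA⟩

theorem AgB.Permit {H H' : M → Prop} {k d s : M} (h : AgB H H' s) :
    Permit H k d s ↔ Permit H' k d s := ⟨h.Permit1, h.symm.Permit1⟩

theorem AgB.Blk {H H' : M → Prop} {k j s : M} (h : AgB H H' s) (hj : j ≤ s) :
    Blk H k j s ↔ Blk H' k j s := by
  unfold H54.Blk
  simp only [h.FF, h.Permit, (h.mono ((rt_le j).trans hj)).FF]

theorem AgB.Grantable {H H' : M → Prop} {k j s : M} (h : AgB H H' s) (hj : j ≤ s) :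
    Grantable H k j s ↔ Grantable H' k j s := by
  unfold H54.Grantable
  simp only [h.Blk hj]

theorem AgB.Act1 {H H' : M → Prop} {p j s : M} (h : AgB H H' s) (hF : Act H p j s) :
    Act H' p j s :=
  ⟨hF.1, (h j hF.1).1 hF.2.1, hF.2.2.1, hF.2.2.2.1, h.NoLt.1 hF.2.2.2.2⟩

theorem AgB.Act {H H' : M → Prop} {p j s : M} (h : AgB H H' s) : Act H p j s ↔ Act H' p j s :=
  ⟨h.Act1, h.symm.Act1⟩

theorem AgB.ReqOK {H H' : M → Prop} {s : M} (h : AgB H H' s) : ReqOK H s ↔ ReqOK H' s := by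
  unfold H54.ReqOK
  simp only [h.NoEv, (h.mono (rt_le s)).Val, (h.mono (rt_le s)).TT, h.AA, h.XX]

theorem AgB.Fresh {H H' : M → Prop} {s : M} (h : AgB H H' s) : Fresh H s ↔ Fresh H' s := by
  unfold H54.Fresh
  simp only [h.NoEv]

theorem AgB.Elig1 {H H' : M → Prop} {s : M} (h : AgB H H' s) (hE : Elig H s) : Elig H' s := by
  refine ⟨fun h1 => hE.1 (h.Won.2 h1), ?_⟩
  rcases hE.2 with ⟨h1, h2, h3⟩ | ⟨h1, h2, h3, h4⟩
  · exact Or.inl ⟨h1, h.Act.1 h2, (h.Grantable h2.1.le).1 h3⟩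
  · refine Or.inr ⟨h1, fun j hj hA hG => h2 j hj (h.Act.2 hA) ((h.Grantable hj.le).2 hG),
      h.ReqOK.1 h3, ?_⟩
    rwa [← h.Fresh, ← h.TT]

theorem AgB.Elig {H H' : M → Prop} {s : M} (h : AgB H H' s) : Elig H s ↔ Elig H' s :=
  ⟨h.Elig1, h.symm.Elig1⟩

/-! The history -/

/-- `h` codes the history below `s` -/
def IsH (h s : M) : Prop := h < ex2 s ∧ ∀ t, t < s → (Mem t h ↔ Elig (mm h) t)

theorem D1_IsH : D1 (fun w : M × M => IsH w.1 w.2) := by
  unfold IsH; infer_instance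

theorem exists_IsH (s : M) : ∃ h, IsH h s := by
  have hI : D1 (fun w : (M × M) × M => IsH w.2 w.1.2) := D1_IsH.comp (fun w : (M × M) × M => (w.2, w.1.2))
  refine ind_SN (fun s : M => ∃ h, IsH h s) ⟨0, ex2_pos _, fun t ht => absurd ht not_lt_zero⟩ ?_ s
  rintro s ⟨h, h1, h2⟩
  have hs : ¬ Mem s h := fun h' => lt_irrefl _ (lt_of_Mem_of_lt h' h1)
  by_cases hE : Elig (mm h) s
  · refine ⟨h + ex2 s, ?_, fun t ht => ?_⟩
    · rw [ex2_succ, two_mul]
      exact add_lt_add_of_lt_of_le h1 le_rfl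
    · have hag : AgB (mm h) (mm (h + ex2 s)) t := by
        intro u hu
        show Mem u h ↔ Mem u (h + ex2 s)
        rw [Mem_set hs]
        have : u ≠ s := (lt_of_lt_of_le hu (le_of_lt_succ' ht)).ne
        simp [this]
      rw [← hag.Elig, Mem_set hs]
      rcases (le_of_lt_succ' ht).lt_or_eq with h3 | rfl
      · rw [h2 t h3]
        simp [h3.ne]
      · simp [hE]
  · refine ⟨h, h1.trans (ex2_lt_ex2 (lt_add_one' s)), fun t ht => ?_⟩
    rcases (le_of_lt_succ' ht).lt_or_eq with h3 | rfl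
    · exact h2 t h3
    · exact ⟨fun h' => absurd h' hs, fun h' => absurd h' hE⟩

theorem IsH.agree {h s h' s' : M} (H1 : IsH h s) (H2 : IsH h' s') (hs : s ≤ s') :
    ∀ t, t < s → (Mem t h ↔ Mem t h') := by
  have key := sind_SN (fun t : M => t < s → (Mem t h ↔ Mem t h')) (by
    intro t ih ht
    have hag : AgB (mm h) (mm h') t := fun u hu => ih u hu (hu.trans ht)
    rw [H1.2 t ht, H2.2 t (lt_of_lt_of_le ht hs), hag.Elig])
  exact key

theorem IsH.unique {h h' s : M} (H1 : IsH h s) (H2 : IsH h' s) : h = h' := by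
  refine Mem_ext fun x => ?_
  by_cases hx : x < s
  · exact H1.agree H2 le_rfl x hx
  · exact ⟨fun h => absurd (lt_of_Mem_of_lt h H1.1) hx, fun h => absurd (lt_of_Mem_of_lt h H2.1) hx⟩

/-- the code of the history below `s` -/
noncomputable def hh (s : M) : M := (exists_IsH s).choose

theorem hh_spec (s : M) : IsH (hh s) s := (exists_IsH s).choose_spec

theorem hh_fn : Fn (fun w : M × M => hh w.2) := by
  constructor
  have h1 : SN (fun w : (M × M) × M => IsH w.2 w.1.2) :=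
    (D1_IsH.comp (fun w : (M × M) × M => (w.2, w.1.2))).pos
  refine h1.congr fun w => ?_
  constructor
  · intro h
    rw [← h]
    exact hh_spec _
  · intro h
    exact (hh_spec _).unique h

instance instFnhh (f : Γ → M) [hf : Fn f] : Fn (fun γ => hh (f γ)) := (Fn.of1 hh_fn).app1 f

/-- the set of performed stages -/
def HH (t : M) : Prop := Mem t (hh (t + 1))

theorem HH_iff {s t : M} (ht : t < s) : HH t ↔ Mem t (hh s) :=
  (hh_spec (t + 1)).agree (hh_spec s) (succ_le_iff'.2 ht) t (lt_add_one' t)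

theorem HH_agree (s : M) : AgB HH (mm (hh s)) s := fun _ ht => HH_iff ht

theorem HH_Elig (s : M) : HH s ↔ Elig HH s := by
  unfold HH
  rw [(hh_spec (s + 1)).2 s (lt_add_one' s)]
  exact ((HH_agree (s + 1)).mono (lt_add_one' s).le).Elig.symm

theorem D1_HH : D1 (fun w : M × M => HH w.2) := by
  unfold HH; infer_instance

instance instD1HH (f : Γ → M) [hf : Fn f] : D1 (fun γ => HH (f γ)) := (D1.of1 D1_HH).app1 f

end

end Pool.Agent.H54
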