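import Pool.Agent.H54.Verif

/-!
The requirements are met.
-/

set_option synthInstance.maxSize 100000
set_option linter.unusedSectionVars false

namespace Pool.Agent.H54

universe u

section

variable {M : Type u} [IS1 M] {Γ Δ : Type u} [Cx M Γ] [Cx M Δ]

section comb

variable {H : M → Prop} (hH : ∀ s, H s ↔ Elig H s)

include hH

/-- between an active request and its grant there is no other grant of the same priority -/
theorem between_grant {g g' : M} (hg : H g) (htg : tg g = 2) (hg' : H g') (htg' : tg g' = 2)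
    (h1 : dt g < g') (h2 : g' < g) : pri g < pri g' := by
  obtain ⟨⟨h3, h4, h5, h6, h7⟩, _⟩ := grant_of hH hg htg
  have h8 := h7 g' h2 ⟨h1.le, hg'⟩
  rcases h8.lt_or_eq with h | h
  · exact h
  · exfalso
    refine ((hH g).1 hg).1 ⟨g', h2, hg', htg', h.symm, fun v hv hv' => ?_⟩
    exact h7 v hv ⟨h1.le.trans hv'.1, hv'.2⟩

theorem grant_P {g x : M} (hg : H g) (htg : tg g = 2) (hx : Mem x (rP (dt g))) :
    DD H (g + 1) x := by
  obtain ⟨⟨h3, h4, h5, h6, h7⟩, _⟩ := grant_of hH hg htg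
  have rq := req_of hH h4 h5
  have hxj : x < dt g := hx.lt.trans (rq.2.2.2.1.trans rq.1)
  have hjg : rt (dt g) ≤ g + 1 := (rq.1.trans (h3.trans (lt_add_one' g))).le
  rcases rq.2.2.2.2.2.1.1 x hx with h | ⟨h, _⟩
  · exact Or.inl (AA.mono hH h hjg)
  · refine Or.inr ⟨FF.mono hH h hjg, ?_⟩
    rintro ⟨g', hg', h8, h9⟩
    rcases lt_trichotomy g' (dt g) with h10 | h10 | h10
    · exact rq.2.2.2.2.2.2.2.2 x hx ⟨g', h10, h8, h9⟩
    · rw [h10] at h9
      rw [h9.1] at h5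
      exact absurd h5 (not_le.2 one_lt_two')
    · rcases (le_of_lt_succ' hg').lt_or_eq with h11 | h11
      · have h12 := between_grant hH hg htg h8 h9.1 h10 h11
        obtain ⟨u, hu1, hu2, hu3, hu4, hu5⟩ := Ext.late hH h9 h8 h4 h10 (by rw [h6]; exact h12)
        have h13 := late_large hH hu3 hu4 h4 hu1
          (by rw [h6]; exact h7 u (hu2.trans h11) ⟨hu1.le, hu3⟩)
        rw [hu5] at h13
        exact lt_asymm h13 hxj
      · rw [h11] at h9
        exact rq.2.2.2.2.2.1.2 x h9.2.1 (rq.2.2.2.2.2.1.1 x hx)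

theorem grant_N {g x : M} (hg : H g) (htg : tg g = 2) (hx : Mem x (rN (dt g))) :
    ¬ DD H (g + 1) x := by
  obtain ⟨⟨h3, h4, h5, h6, h7⟩, _⟩ := grant_of hH hg htg
  have rq := req_of hH h4 h5
  have hxt : x < rt (dt g) := hx.lt.trans rq.2.2.2.2.1
  have hjg : rt (dt g) ≤ g + 1 := (rq.1.trans (h3.trans (lt_add_one' g))).le
  rintro (⟨t, ht, ht1, ht2, ⟨g', hg', h8, h9⟩, ht3⟩ | ⟨hF, hX⟩)
  · have htt : t < rt (dt g) := lt_of_le_of_lt ((le_two_mul' hH t).trans ht3.ge) hxt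
    have htj : t < dt g := htt.trans rq.1
    rcases lt_trichotomy g' (dt g) with h10 | h10 | h10
    · exact rq.2.2.2.2.2.2.2.1 x hx ⟨t, htj, ht1, ht2, ⟨g', h10, h8, h9⟩, ht3⟩
    · rw [h10] at h9
      rw [h9.1] at h5
      exact absurd h5 (not_le.2 one_lt_two')
    · rcases (le_of_lt_succ' hg').lt_or_eq with h11 | h11
      · have h12 := between_grant hH hg htg h8 h9.1 h10 h11
        obtain ⟨u, hu1, hu2, hu3, hu4, hu5⟩ := Ext.late hH h9 h8 h4 h10 (by rw [h6]; exact h12)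
        have := entry_unique hH hu3 hu4 ht1 ht2 hu5
        rw [this] at hu1
        exact lt_asymm hu1 htj
      · rw [h11] at h9
        exact h9.2.2.2 ⟨t, htt, ht1, ht2, rfl⟩
  · obtain ⟨u, hu, hu1, hu2, hu3⟩ := hF
    have hug : u < g := by
      rcases (le_of_lt_succ' hu).lt_or_eq with h | h
      · exact h
      · rw [h, htg] at hu2
        exact absurd hu2 two_ne_zero
    by_cases hF' : FF H (rt (dt g)) x
    · have : XX H (rt (dt g)) x := by
        by_contra h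
        exact rq.2.2.2.2.2.1.2 x hx (Or.inr ⟨hF', h⟩)
      exact hX (XX.mono hH this hjg)
    · exact hX ⟨g, lt_add_one' g, hg, htg, hx, ⟨u, hug, hu1, hu2, hu3⟩, hF'⟩

end comb

/-! The final sets -/

/-- the even set -/
def As (x : M) : Prop := ∃ s, AA HH s x
/-- the numbers taken out -/
def Xs (x : M) : Prop := ∃ s, XX HH s x
/-- the upper set -/
def Bs (x : M) : Prop := ∃ s, AA HH s x ∨ FF HH s x
/-- the middle set -/
def Ds (x : M) : Prop := Bs x ∧ ¬ Xs x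

theorem SN_As : SN (fun w : M × M => As w.2) := by unfold As; infer_instance
theorem SN_Xs : SN (fun w : M × M => Xs w.2) := by unfold Xs; infer_instance
theorem SN_Bs : SN (fun w : M × M => Bs w.2) := by unfold Bs; infer_instance

theorem Reg_As : Reg (As : M → Prop) := haveI : SN (fun w : M × M => As w.2) := SN_As; Reg_SN _
theorem Reg_Bs : Reg (Bs : M → Prop) := haveI : SN (fun w : M × M => Bs w.2) := SN_Bs; Reg_SN _
theorem Reg_Xs : Reg (Xs : M → Prop) := haveI : SN (fun w : M × M => Xs w.2) := SN_Xs; Reg_SN _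
theorem Reg_Ds : Reg (Ds : M → Prop) := Reg_Bs.diff Reg_Xs

theorem As_even {x : M} (h : As x) : ∃ t, x = 2 * t := by
  obtain ⟨s, t, _, _, _, _, h⟩ := h
  exact ⟨t, h⟩

theorem not_even_of_FF {s x t : M} (h : FF HH s x) : x ≠ 2 * t := by
  obtain ⟨k, hk⟩ := FF_odd HH_Elig h
  intro h'
  exact even_ne_odd (h'.symm.trans hk)

theorem not_Xs_of_As {x : M} (h : As x) : ¬ Xs x := by
  rintro ⟨s, hs⟩
  obtain ⟨t, ht⟩ := As_even h
  exact not_even_of_FF (XX_FF HH_Elig hs) ht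

theorem Ds_of_As {x : M} (h : As x) : Ds x := by
  obtain ⟨s, hs⟩ := h
  exact ⟨⟨s, Or.inl hs⟩, not_Xs_of_As ⟨s, hs⟩⟩

theorem As_of_Bs_even {t : M} (h : Bs (2 * t)) : As (2 * t) := by
  obtain ⟨s, hs | hs⟩ := h
  · exact ⟨s, hs⟩
  · exact absurd rfl (not_even_of_FF hs)

theorem cancel_two {a b : M} (h : 2 * a = 2 * b) : a = b := by
  have h3 : a * 2 + 0 = b * 2 + 0 := by
    rw [mul_comm, mul_comm b]; simpa using h
  exact (div_unique h3 (by norm_num) (by norm_num)).1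

theorem As_two_mul {u : M} (hu : HH u) (h0 : tg u = 0) : As (2 * u) ↔ Xs (rm u) := by
  constructor
  · rintro ⟨s, t, _, h1, h2, h3, h4⟩
    have := cancel_two h4
    subst this
    exact ⟨s, h3⟩
  · rintro ⟨s, hs⟩
    refine ⟨max s (u + 1), u, lt_of_lt_of_le (lt_add_one' u) (le_max_right _ _), hu, h0,
      XX.mono HH_Elig hs (le_max_left _ _), rfl⟩

/-- stabilisation -/
theorem stab_D (b : M) : ∃ t1, ∀ t, t1 ≤ t → ∀ x, x < b → (DD HH t x ↔ Ds x) := by
  obtain ⟨B1, hB1⟩ := scoll_SN (fun x s : M => AA HH s x ∨ FF HH s x) b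
  obtain ⟨B2, hB2⟩ := scoll_SN (fun x s : M => XX HH s x) b
  refine ⟨max B1 B2, fun t ht x hx => ?_⟩
  have ht1 : B1 ≤ t := (le_max_left _ _).trans ht
  have ht2 : B2 ≤ t := (le_max_right _ _).trans ht
  constructor
  · intro h
    refine ⟨⟨t, ?_⟩, ?_⟩
    · rcases h with h | h
      · exact Or.inl h
      · exact Or.inr h.1
    · intro hX
      obtain ⟨y, hy, hy'⟩ := hB2 x hx hX
      exact DD_not_XX HH_Elig h (XX.mono HH_Elig hy' (hy.le.trans ht2))
  · rintro ⟨hB, hX⟩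
    obtain ⟨y, hy, hy'⟩ := hB1 x hx hB
    rcases hy' with hy' | hy'
    · exact Or.inl (AA.mono HH_Elig hy' (hy.le.trans ht1))
    · exact Or.inr ⟨FF.mono HH_Elig hy' (hy.le.trans ht1), fun h => hX ⟨t, h⟩⟩

theorem stab_B (b : M) : ∃ t1, ∀ t, t1 ≤ t → ∀ x, x < b → ((AA HH t x ∨ FF HH t x) ↔ Bs x) := by
  obtain ⟨B1, hB1⟩ := scoll_SN (fun x s : M => AA HH s x ∨ FF HH s x) b
  refine ⟨B1, fun t ht x hx => ⟨fun h => ⟨t, h⟩, fun hB => ?_⟩⟩
  obtain ⟨y, hy, hy'⟩ := hB1 x hx hB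
  rcases hy' with hy' | hy'
  · exact Or.inl (AA.mono HH_Elig hy' (hy.le.trans ht))
  · exact Or.inr (FF.mono HH_Elig hy' (hy.le.trans ht))

/-- the effect of winning for ever -/
theorem won_true {p g : M} (hg : HH g) (htg : tg g = 2) (hp : pri g = p)
    (hno : ∀ v, g ≤ v → HH v → p ≤ pri v) :
    ∃ m P N : M, (∃ t, Us (fs p) (pr m (pr P N)) t) ∧ Tr Ds P N ∧ ∃ s, TT HH p s m := by
  obtain ⟨⟨h3, h4, h5, h6, h7⟩, _⟩ := grant_of HH_Elig hg htg
  have rq := req_of HH_Elig h4 h5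
  rw [hp] at h6
  have hno' : ∀ s, NoEv HH (pri g) (g + 1) s := by
    rintro s v hv ⟨hv1, hv2⟩
    have hgv : g < v := succ_le_iff'.1 hv1
    rcases (hno v hgv.le hv2).lt_or_eq with h | h
    · rw [hp]; exact h
    · exfalso
      refine ((HH_Elig v).1 hv2).1 ⟨g, hgv, hg, htg, by rw [hp, h], fun w hw hw' => ?_⟩
      rw [← h]
      exact hno w hw'.1 hw'.2
  have hb : rt (dt g) < g := rq.1.trans h3
  refine ⟨rm (dt g), rP (dt g), rN (dt g), ⟨rt (dt g), ?_⟩, ⟨fun x hx => ?_, fun x hx => ?_⟩, ?_⟩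
  · have := rq.2.2.1
    rwa [h6] at this
  · obtain ⟨t1, ht1⟩ := stab_D (x + 1)
    rw [← ht1 (max t1 (g + 1)) (le_max_left _ _) x (lt_add_one' x)]
    rw [pres_DD HH_Elig hg (lt_of_lt_of_le (lt_add_one' g) (le_max_right _ _)) (hno' _)
      (hx.lt.trans (rq.2.2.2.1.trans hb)).le]
    exact grant_P HH_Elig hg htg hx
  · obtain ⟨t1, ht1⟩ := stab_D (x + 1)
    rw [← ht1 (max t1 (g + 1)) (le_max_left _ _) x (lt_add_one' x)]
    rw [pres_DD HH_Elig hg (lt_of_lt_of_le (lt_add_one' g) (le_max_right _ _)) (hno' _)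
      (hx.lt.trans (rq.2.2.2.2.1.trans hb)).le]
    exact grant_N HH_Elig hg htg hx
  · rcases ((HH_Elig _).1 h4).2 with ⟨h1, _⟩ | ⟨_, _, _, ⟨h8, _⟩ | ⟨_, h8⟩⟩
    · rw [h1] at h5
      exact absurd h5 (not_le.2 one_lt_two')
    · exact ⟨dt g + 1, Or.inr ⟨dt g, lt_add_one' _, h4, h8, rfl⟩⟩
    · rw [h6] at h8
      exact ⟨dt g, h8⟩

theorem Permit.mono {k d s s' : M} (h : Permit HH k d s) (hs : s ≤ s') : Permit HH k d s' := by
  obtain ⟨t, ht, h1, h2⟩ := h
  refine ⟨t, lt_of_lt_of_le ht hs, h1, h2.imp id ?_⟩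
  rintro ⟨s'', h3, h4⟩
  exact ⟨s'', h3.trans hs, h4⟩

/-- no active request is grantable at late stages -/
theorem late_not_grantable {p s0 : M} (h0 : ∀ s, s0 ≤ s → HH s → p < pri s)
    (hW : ∀ s, s0 ≤ s → ¬ Won HH p s) {j s1 : M} (hs1 : s0 ≤ s1) (hA : Act HH p j s1) :
    ¬ Grantable HH p j s1 := by
  intro hG
  obtain ⟨h1, h2, h3, h4, h5⟩ := hA
  set s : M := pr (pr p (pr 2 j)) s1 with hs
  have hss : s1 ≤ s := le_pr_right _ _
  have e1 : pri s = p := by simp [pri, hs]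
  have e2 : tg s = 2 := by simp [tg, hs]
  have e3 : dt s = j := by simp [dt, hs]
  have hNL : NoLt HH p j s := by
    rintro v hv ⟨hv1, hv2⟩
    rcases lt_or_ge v s1 with h | h
    · exact h5 v h ⟨hv1, hv2⟩
    · exact (h0 v (hs1.trans h) hv2).le
  have rq := req_of HH_Elig h2 h3
  have hE : Elig HH s := by
    refine ⟨by rw [e1]; exact hW s (hs1.trans hss), Or.inl ⟨e2, ?_, ?_⟩⟩
    · rw [e1, e3]
      exact ⟨lt_of_lt_of_le h1 hss, h2, h3, h4, hNL⟩
    · rw [e1, e3]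
      rintro k hk ⟨d, hd, ⟨td, htd, htd1, htd2, htd3⟩, hd2, hd3⟩
      refine hG k hk ⟨d, hd, ⟨td, ?_, htd1, htd2, htd3⟩, hd2, fun h => hd3 (h.mono hss)⟩
      by_contra h
      push Not at h
      have h6 : j < td := lt_of_lt_of_le h1 h
      have h7 := late_large HH_Elig htd1 htd2 h2 h6
        (by rw [h4]; exact (h0 td (hs1.trans h) htd1).le)
      rw [htd3] at h7
      exact lt_asymm h7 (hd.lt.trans (rq.2.2.2.2.1.trans rq.1))
  have := h0 s (hs1.trans hss) ((HH_Elig s).2 hE)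
  rw [e1] at this
  exact lt_irrefl _ this

/-- persistent requests do not exist -/
theorem no_request {p s0 : M} (h0 : ∀ s, s0 ≤ s → HH s → p < pri s)
    (hW : ∀ s, s0 ≤ s → ¬ Won HH p s) {m t P N : M} (ht : s0 ≤ t)
    (hU : Us (fs p) (pr m (pr P N)) t) (hP : P < t) (hN : N < t) (hV : Val HH t P N)
    (hT : ¬ TT HH p t m) (hNA : ∀ x, Mem x N → ¬ As x) (hPX : ∀ x, Mem x P → ¬ Xs x)
    (hor : (∃ s, TT HH p s m) ∨ (∃ r, s0 ≤ r ∧ r ≤ t ∧ m = 2 * pr p r + 1)) : False := by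
  have main : ∀ tag s1 : M, t < s1 → tag ≤ 1 →
      (tag = 0 ∧ (∃ r, s0 ≤ r ∧ r ≤ t ∧ m = 2 * pr p r + 1) ∨ tag = 1 ∧ TT HH p s1 m) → False := by
    intro tag s1 hts1 htag hcase
    set s : M := pr (pr p (pr tag (pr m (pr t (pr P N))))) s1 with hs
    have hss : s1 ≤ s := le_pr_right _ _
    have e1 : pri s = p := by simp [pri, hs]
    have e2 : tg s = tag := by simp [tg, hs]
    have e3 : rm s = m := by simp [rm, dt, hs]
    have e4 : rt s = t := by simp [rt, dt, hs]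
    have e5 : rP s = P := by simp [rP, dt, hs]
    have e6 : rN s = N := by simp [rN, dt, hs]
    have hs0 : s0 ≤ s := ht.trans (hts1.le.trans hss)
    have hE : Elig HH s := by
      refine ⟨by rw [e1]; exact hW s hs0, Or.inr ⟨by rw [e2]; exact htag, ?_, ?_, ?_⟩⟩
      · intro j hj hA
        rw [e1] at hA ⊢
        exact late_not_grantable h0 hW hs0 hA
      · refine ⟨?_, ?_, ?_, ?_, ?_, ?_, ?_, ?_, ?_⟩
        · rw [e4]; exact lt_of_lt_of_le hts1 hss
        · rw [e1, e4]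
          rintro v _ ⟨hv1, hv2⟩
          exact h0 v (ht.trans hv1) hv2
        · rw [e1, e3, e4, e5, e6]; exact hU
        · rw [e4, e5]; exact hP
        · rw [e4, e6]; exact hN
        · rw [e4, e5, e6]; exact hV
        · rw [e1, e3, e4]; exact hT
        · rw [e6]; exact fun x hx h => hNA x hx ⟨s, h⟩
        · rw [e5]; exact fun x hx h => hPX x hx ⟨s, h⟩
      · rw [e2]
        rcases hcase with ⟨h1, r, hr0, hr1, hr2⟩ | ⟨h1, h2⟩
        · refine Or.inl ⟨h1, r, by rw [e4]; exact hr1, by rw [e3, e1]; exact hr2, ?_⟩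
          rw [e1]
          rintro v _ ⟨hv1, hv2⟩
          exact h0 v (hr0.trans hv1) hv2
        · refine Or.inr ⟨h1, ?_⟩
          rw [e1, e3]
          exact TT.mono HH_Elig h2 hss
    have := h0 s hs0 ((HH_Elig s).2 hE)
    rw [e1] at this
    exact lt_irrefl _ this
  rcases hor with ⟨s, hs⟩ | h
  · exact main 1 (max s (t + 1)) (lt_of_lt_of_le (lt_add_one' t) (le_max_right _ _)) le_rfl
      (Or.inr ⟨rfl, TT.mono HH_Elig hs (le_max_left _ _)⟩)
  · exact main 0 (t + 1) (lt_add_one' t) zero_le (Or.inl ⟨rfl, h⟩)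

theorem not_won {p s0 : M} (h0 : ∀ s, s0 ≤ s → HH s → p < pri s)
    (h : ∀ m P N : M, (∃ t, Us (fs p) (pr m (pr P N)) t) → Tr Ds P N → (∃ s, TT HH p s m) → False) :
    ∀ s, s0 ≤ s → ¬ Won HH p s := by
  rintro s hs ⟨g, hg, hg1, hg2, hg3, hg4⟩
  obtain ⟨m, P, N, h1, h2, h3⟩ := won_true hg1 hg2 hg3 (by
    intro v hv1 hv2
    rcases lt_or_ge v s with h | h
    · exact hg4 v h ⟨hv1, hv2⟩
    · exact (h0 v (hs.trans h) hv2).le)
  exact h m P N h1 h2 h3

end

end Pool.Agent.H54
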