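import Pool.Agent.H54.Final

/-!
The three families of requirements and the basic reductions.
-/

set_option synthInstance.maxSize 100000
set_option linter.unusedSectionVars false

namespace Pool.Agent.H54

universe u

section

variable {M : Type u} [IS1 M] {Γ Δ : Type u} [Cx M Γ] [Cx M Δ]

instance instSNAs (f : Γ → M) [hf : Fn f] : SN (fun γ => As (f γ)) := (SN.of1 SN_As).app1 f
instance instSNBs (f : Γ → M) [hf : Fn f] : SN (fun γ => Bs (f γ)) := (SN.of1 SN_Bs).app1 f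
instance instSNXs (f : Γ → M) [hf : Fn f] : SN (fun γ => Xs (f γ)) := (SN.of1 SN_Xs).app1 f

/-- even numbers -/
def Ev (x : M) : Prop := ∃ t, t ≤ x ∧ x = 2 * t

theorem D1_Ev : D1 (fun w : M × M => Ev w.2) := by unfold Ev; infer_instance
instance instD1Ev (f : Γ → M) [hf : Fn f] : D1 (fun γ => Ev (f γ)) := (D1.of1 D1_Ev).app1 f

theorem Ev_two_mul (t : M) : Ev (2 * t) := ⟨t, by rw [two_mul]; exact le_self_add, rfl⟩

theorem not_Ev_of_FF {s x : M} (h : FF HH s x) : ¬ Ev x := fun ⟨_, _, h'⟩ => not_even_of_FF h h'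

theorem Ev_of_As {x : M} (h : As x) : Ev x := by
  obtain ⟨t, rfl⟩ := As_even h
  exact Ev_two_mul t

theorem Tr_zero_right {B : M → Prop} {P : M} (h : ∀ z, Mem z P → B z) : Tr B P 0 :=
  ⟨h, fun z hz => absurd hz (not_Mem_zero z)⟩

theorem Tr_zero_left {B : M → Prop} {N : M} (h : ∀ z, Mem z N → ¬ B z) : Tr B 0 N :=
  ⟨fun z hz => absurd hz (not_Mem_zero z), h⟩

/-- `As` is reducible to `Ds` -/
theorem TR_As_Ds : TR (As : M → Prop) Ds := by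
  refine TR_of As Ds Reg_Ds (fun X y P N => (y = 1 ∧ Sub X P ∧ ∀ x, Mem x X → Ev x) ∨
    (y = 0 ∧ ∀ x, Mem x X → (Ev x → Mem x N))) inferInstance ?_ ?_ ?_
  · rintro X y P N (⟨h1, h2, h3⟩ | ⟨h1, h2⟩) hT
    · refine Or.inl ⟨h1, fun z hz => ?_⟩
      obtain ⟨t, _, rfl⟩ := h3 z hz
      exact As_of_Bs_even (hT.1 _ (h2 _ hz)).1
    · refine Or.inr ⟨h1, fun z hz hA => ?_⟩
      exact hT.2 z (h2 z hz (Ev_of_As hA)) (Ds_of_As hA)
  · intro X _ h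
    exact ⟨X, 0, Tr_zero_right fun z hz => Ds_of_As (h z hz),
      Or.inl ⟨rfl, fun z hz => hz, fun z hz => Ev_of_As (h z hz)⟩⟩
  · intro X _ h
    obtain ⟨N, hN⟩ := exists_restrict (fun x : M => Ev x) X
    refine ⟨0, N, Tr_zero_left fun z hz hD => ?_, Or.inr ⟨rfl, fun x hx hE => (hN x).2 ⟨hx, hE⟩⟩⟩
    obtain ⟨h1, t, _, rfl⟩ := (hN z).1 hz
    exact h _ h1 (As_of_Bs_even hD.1)

/-- quadruples for the reduction of `Ds` to `Bs` -/
def G1 (X y P N : M) : Prop := (y = 1 ∧ Sub X P ∧ ∃ s, ∀ x, Mem x X →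
      (Ev x ∨ ∃ u, u < s ∧ (HH u ∧ tg u = 0 ∧ rm u = x ∧ Mem (2 * u) N))) ∨
    (y = 0 ∧ ∃ s, ∀ x, Mem x X →
      (Mem x N ∨ ∃ u, u < s ∧ (HH u ∧ tg u = 0 ∧ rm u = x ∧ Mem (2 * u) P)))

theorem SN_G1 : SN (fun w : ((M × M) × M) × M => G1 w.1.1.1 w.1.1.2 w.1.2 w.2) := by
  unfold G1; infer_instance

/-- `Ds` is reducible to `Bs` -/
theorem TR_Ds_Bs : TR (Ds : M → Prop) Bs := by
  refine TR_of Ds Bs Reg_Bs G1 SN_G1 ?_ ?_ ?_
  · rintro X y P N (⟨h1, h2, s, h3⟩ | ⟨h1, s, h2⟩) hT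
    · refine Or.inl ⟨h1, fun z hz => ⟨hT.1 z (h2 z hz), ?_⟩⟩
      rintro ⟨s', hX⟩
      rcases h3 z hz with h | ⟨u, _, hu1, hu2, hu3, hu4⟩
      · exact not_Ev_of_FF (XX_FF HH_Elig hX) h
      · obtain ⟨s2, hs2⟩ := (As_two_mul hu1 hu2).2 (hu3.symm ▸ ⟨s', hX⟩)
        exact hT.2 _ hu4 ⟨s2, Or.inl hs2⟩
    · refine Or.inr ⟨h1, fun z hz hD => ?_⟩
      rcases h2 z hz with h | ⟨u, _, hu1, hu2, hu3, hu4⟩
      · exact hT.2 z h hD.1
      · have h5 := (As_two_mul hu1 hu2).1 (As_of_Bs_even (hT.1 _ hu4))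
        rw [hu3] at h5
        exact hD.2 h5
  · intro X _ h
    obtain ⟨B, hB⟩ := scoll_SN (fun x s : M => FF HH s x) X
    obtain ⟨N, _, hN⟩ := compr_D1 (fun y : M => ∃ u, u < B ∧
      (HH u ∧ tg u = 0 ∧ y = 2 * u ∧ Mem (rm u) X)) (2 * B)
    refine ⟨X, N, ⟨fun z hz => (h z hz).1, fun z hz hBz => ?_⟩,
      Or.inl ⟨rfl, fun z hz => hz, B, fun x hx => ?_⟩⟩
    · obtain ⟨_, u, _, hu1, hu2, rfl, hu4⟩ := (hN z).1 hz
      exact (h _ hu4).2 ((As_two_mul hu1 hu2).1 (As_of_Bs_even hBz))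
    · obtain ⟨s, hs | hs⟩ := (h x hx).1
      · exact Or.inl (Ev_of_As ⟨s, hs⟩)
      · obtain ⟨y, hy, u, hu, hu1, hu2, hu3⟩ := hB x hx.lt ⟨s, hs⟩
        have huB : u < B := hu.trans hy
        refine Or.inr ⟨u, huB, hu1, hu2, hu3, (hN _).2 ⟨?_, u, huB, hu1, hu2, rfl, hu3 ▸ hx⟩⟩
        exact mul_lt_mul_of_pos_left huB (by norm_num)
  · intro X _ h
    obtain ⟨c, hc⟩ := Reg_Bs.compl X
    obtain ⟨N, hN⟩ := exists_restrict (fun x : M => Mem x c) X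
    obtain ⟨B, hB⟩ := scoll_SN (fun x s : M => XX HH s x) X
    obtain ⟨P, _, hP⟩ := compr_D1 (fun y : M => ∃ u, u < B ∧
      (HH u ∧ tg u = 0 ∧ y = 2 * u ∧ Mem (rm u) X ∧ XX HH B (rm u))) (2 * B)
    refine ⟨P, N, ⟨fun z hz => ?_, fun z hz => ((hc z).1 ((hN z).1 hz).2).2⟩,
      Or.inr ⟨rfl, B, fun x hx => ?_⟩⟩
    · obtain ⟨_, u, _, hu1, hu2, rfl, hu4, hu5⟩ := (hP z).1 hz
      obtain ⟨s2, hs2⟩ := (As_two_mul hu1 hu2).2 ⟨_, hu5⟩
      exact ⟨s2, Or.inl hs2⟩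
    · by_cases hBx : Bs x
      · have hXx : Xs x := by
          by_contra h'
          exact h x hx ⟨hBx, h'⟩
        obtain ⟨y, hy, hy'⟩ := hB x hx.lt hXx
        have hXB : XX HH B x := XX.mono HH_Elig hy' hy.le
        obtain ⟨u, hu, hu1, hu2, hu3⟩ := XX_FF HH_Elig hXB
        refine Or.inr ⟨u, hu, hu1, hu2, hu3, (hP _).2 ⟨?_, u, hu, hu1, hu2, rfl, ?_, ?_⟩⟩
        · exact mul_lt_mul_of_pos_left hu (by norm_num)
        · rw [hu3]; exact hx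
        · rw [hu3]; exact hXB
      · exact Or.inl ((hN x).2 ⟨hx, (hc x).2 ⟨hx.lt, hBx⟩⟩)

/-- a true neighbourhood of `Ds` is valid at late stages -/
theorem late_Val {P N : M} (hT : Tr Ds P N) : ∃ t1, ∀ t, t1 ≤ t → Val HH t P N := by
  obtain ⟨t1, ht1⟩ := stab_D (max P N)
  refine ⟨t1, fun t ht => ⟨fun x hx => ?_, fun x hx => ?_⟩⟩
  · rw [ht1 t ht x (lt_of_lt_of_le hx.lt (le_max_left _ _))]
    exact hT.1 x hx
  · rw [ht1 t ht x (lt_of_lt_of_le hx.lt (le_max_right _ _))]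
    exact hT.2 x hx

theorem Mem_ex2_iff {z n : M} (Q : M → Prop) : (∀ z, Mem z (ex2 n) → Q z) ↔ Q n :=
  ⟨fun h => h n (Mem_ex2.2 rfl), fun h z hz => by rw [Mem_ex2.1 hz]; exact h⟩

/-- `Bs` is not reducible to `Ds` -/
theorem not_TR_Bs_Ds : ¬ TR (Bs : M → Prop) Ds := by
  rintro ⟨Ψ, hΨ, hred⟩
  have iΨ : ∀ {Γ : Type u} [Cx M Γ] (f g h k : Γ → M) [Fn f] [Fn g] [Fn h] [Fn k],
      SN (fun γ => Ψ (f γ) (g γ) (h γ) (k γ)) := fun f g h k => hΨ.ce.app4 f g h k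
  obtain ⟨e, he⟩ := universal (fun z : M => Ψ (ex2 (fs z)) 0 (fs (sn z)) (sn (sn z)))
  obtain ⟨w, hw⟩ := universal (fun _ : M => False)
  set p : M := pr e w with hp
  have hp1 : fs p = e := by simp [hp]
  have hp2 : sn p = w := by simp [hp]
  obtain ⟨s0, hs0⟩ := bounded_events p
  have hUs : ∀ m P N : M, (∃ t, Us (fs p) (pr m (pr P N)) t) ↔ Ψ (ex2 m) 0 P N := by
    intro m P N
    rw [hp1, ← he]
    simp
  have hW : ∀ n s : M, ¬ Us (sn p) n s := by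
    intro n s h
    rw [hp2] at h
    exact (hw n).2 ⟨s, h⟩
  have hT : ∀ s m : M, TT HH p s m → FF HH s m := by
    rintro s m (⟨n, _, _, h⟩ | h)
    · exact absurd h (hW n s)
    · exact h
  have hnw := not_won hs0 (by
    rintro m P N h1 h2 ⟨s, h3⟩
    have h4 := (hred (ex2 m)).2.2 ⟨P, N, h2, (hUs m P N).1 h1⟩ m (Mem_ex2.2 rfl)
    exact h4 ⟨s, Or.inr (hT s m h3)⟩)
  set m : M := 2 * pr p s0 + 1 with hm
  have hnF : ∀ s, ¬ FF HH s m := by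
    rintro s ⟨u, _, hu1, hu2, hu3⟩
    obtain ⟨r, hr, hr1, hr2⟩ := fresh_of HH_Elig hu1 hu2
    rw [hu3, hm] at hr1
    have h1 := cancel_two (add_right_cancel hr1)
    obtain ⟨h2, h3⟩ := pr_inj.1 h1
    have h4 : rt u < u := (req_of HH_Elig hu1 (by rw [hu2]; exact zero_le)).1
    have h5 := hs0 u (by rw [h3]; exact hr.trans h4.le) hu1
    rw [← h2] at h5
    exact lt_irrefl _ h5
  have hnB : ¬ Bs m := by
    rintro ⟨s, hs | hs⟩
    · obtain ⟨t, ht⟩ := As_even ⟨s, hs⟩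
      exact even_ne_odd ht.symm
    · exact hnF s hs
  obtain ⟨P, N, hTr, hPsi⟩ := (hred (ex2 m)).2.1 ((Mem_ex2_iff (z := m) (fun z => ¬ Bs z)).2 hnB)
  obtain ⟨t0, ht0⟩ := (hUs m P N).2 hPsi
  obtain ⟨t1, ht1⟩ := late_Val hTr
  set t : M := max (max t0 t1) (max s0 (max (P + 1) (N + 1))) with ht
  have l1 : t0 ≤ t := (le_max_left _ _).trans (le_max_left _ _)
  have l2 : t1 ≤ t := (le_max_right _ _).trans (le_max_left _ _)
  have l3 : s0 ≤ t := (le_max_left _ _).trans (le_max_right _ _)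
  have l4 : P + 1 ≤ t := (le_max_left _ _).trans ((le_max_right _ _).trans (le_max_right _ _))
  have l5 : N + 1 ≤ t := (le_max_right _ _).trans ((le_max_right _ _).trans (le_max_right _ _))
  exact no_request hs0 hnw (m := m) (t := t) (P := P) (N := N) l3 (ht0.mono l1)
    (lt_of_lt_of_le (lt_add_one' P) l4) (lt_of_lt_of_le (lt_add_one' N) l5) (ht1 t l2)
    (fun h => hnF t (hT t m h)) (fun x hx hA => hTr.2 x hx (Ds_of_As hA))
    (fun x hx => (hTr.1 x hx).2) (Or.inr ⟨s0, le_rfl, l3, rfl⟩)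

/-- quadruples for the reduction to `As` -/
def G2 (C : M → Prop) (p s0 X y _P' N' : M) : Prop := (y = 1 ∧ ∀ z, Mem z X → C z) ∨
    (y = 0 ∧ ∃ t, s0 ≤ t ∧ ∃ P, P < t ∧ ∃ N, N < t ∧ (Val HH t P N ∧
      (∀ n, Mem n X → (Us (fs p) (pr (2 * n) (pr P N)) t ∧ ¬ Us (sn p) n t)) ∧
      (∀ x, Mem x N → (Ev x → Mem x N')) ∧
      (∀ u, u < t → ((HH u ∧ tg u = 0 ∧ Mem (rm u) P) → Mem (2 * u) N'))))

theorem SN_G2 (C : M → Prop) (hC : SN (fun w : M × M => C w.2)) (p s0 : M) :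
    SN (fun w : ((M × M) × M) × M => G2 C p s0 w.1.1.1 w.1.1.2 w.1.2 w.2) := by
  have iC : ∀ {Γ : Type u} [Cx M Γ] (f : Γ → M) [Fn f], SN (fun γ => C (f γ)) :=
    fun f => (SN.of1 hC).app1 f
  unfold G2; infer_instance

/-- every Sigma one set reducible to `Ds` is reducible to `As` -/
theorem TR_As_of_TR_Ds (C : M → Prop) (hC : SN (fun w : M × M => C w.2)) (hCD : TR C Ds) :
    TR C As := by
  obtain ⟨Φ, hΦ, hred⟩ := hCD
  have iΦ : ∀ {Γ : Type u} [Cx M Γ] (f g h k : Γ → M) [Fn f] [Fn g] [Fn h] [Fn k],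
      SN (fun γ => Φ (f γ) (g γ) (h γ) (k γ)) := fun f g h k => hΦ.ce.app4 f g h k
  have iC : ∀ {Γ : Type u} [Cx M Γ] (f : Γ → M) [Fn f], SN (fun γ => C (f γ)) :=
    fun f => (SN.of1 hC).app1 f
  obtain ⟨e, he⟩ := universal (fun z : M => ∃ n, fs z = 2 * n ∧
    Φ (ex2 n) 0 (fs (sn z)) (sn (sn z)))
  obtain ⟨w, hw⟩ := universal C
  set p : M := pr e w with hp
  have hp1 : fs p = e := by simp [hp]
  have hp2 : sn p = w := by simp [hp]
  obtain ⟨s0, hs0⟩ := bounded_events p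
  have hUs : ∀ m P N : M, (∃ t, Us (fs p) (pr m (pr P N)) t) ↔ ∃ n, m = 2 * n ∧ Φ (ex2 n) 0 P N := by
    intro m P N
    rw [hp1, ← he]
    simp
  have hUs2 : ∀ n P N : M, (∃ t, Us (fs p) (pr (2 * n) (pr P N)) t) ↔ Φ (ex2 n) 0 P N := by
    intro n P N
    rw [hUs]
    constructor
    · rintro ⟨n', h1, h2⟩
      rw [cancel_two h1]; exact h2
    · exact fun h => ⟨n, rfl, h⟩
  have hT : ∀ s n : M, TT HH p s (2 * n) ↔ Us (sn p) n s := by
    intro s n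
    constructor
    · rintro (⟨n', _, h1, h2⟩ | h)
      · rw [cancel_two h1]; exact h2
      · exact absurd rfl (not_even_of_FF h)
    · exact fun h => Or.inl ⟨n, by rw [two_mul]; exact le_self_add, rfl, h⟩
  have hCw : ∀ n : M, C n ↔ ∃ s, Us (sn p) n s := by rw [hp2]; exact hw
  have hnw := not_won hs0 (by
    rintro m P N h1 h2 ⟨s, h3⟩
    obtain ⟨n, rfl, h4⟩ := (hUs m P N).1 h1
    exact (hred (ex2 n)).2.2 ⟨P, N, h2, h4⟩ n (Mem_ex2.2 rfl) ((hCw n).2 ⟨s, (hT s n).1 h3⟩))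
  refine TR_of C As Reg_As (G2 C p s0) (SN_G2 C hC p s0) ?_ ?_ ?_
  · rintro X y P' N' (⟨h1, h2⟩ | ⟨h1, t, ht, P, hP, N, hN, hV, hX, hN', hu⟩) hTr
    · exact Or.inl ⟨h1, h2⟩
    · refine Or.inr ⟨h1, fun n hn hCn => ?_⟩
      obtain ⟨s, hs⟩ := (hCw n).1 hCn
      refine no_request hs0 hnw (m := 2 * n) (t := t) (P := P) (N := N) ht (hX n hn).1 hP hN hV
        (fun h => (hX n hn).2 ((hT t n).1 h)) (fun x hx hA => hTr.2 x (hN' x hx (Ev_of_As hA)) hA)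
        (fun x hx hXs => ?_) (Or.inl ⟨s, (hT s n).2 hs⟩)
      rcases hV.1 x hx with h | ⟨⟨u, hu0, hu1, hu2, hu3⟩, _⟩
      · exact not_Xs_of_As ⟨t, h⟩ hXs
      · refine hTr.2 (2 * u) (hu u hu0 ⟨hu1, hu2, by rw [hu3]; exact hx⟩) ?_
        rw [As_two_mul hu1 hu2, hu3]
        exact hXs
  · exact fun X _ h => ⟨0, 0, Tr_zero_right fun z hz => absurd hz (not_Mem_zero z), Or.inl ⟨rfl, h⟩⟩
  · intro X _ h
    obtain ⟨P, N, hTr, hPhi⟩ := (hred X).2.1 h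
    have hsing : ∀ n, Mem n X → Φ (ex2 n) 0 P N := fun n hn =>
      hΦ.closed _ _ _ _ _ _ _ hPhi (fun z hz => by rw [Mem_ex2.1 hz]; exact hn)
        (fun z hz => hz) (fun z hz => hz) hTr.dj
    have iU : SN (fun w : M × M => Mem w.1 X → Us (fs p) (pr (2 * w.1) (pr P N)) w.2) :=
      inferInstance
    obtain ⟨t0, ht0⟩ := coll_SN (fun n t : M => Mem n X → Us (fs p) (pr (2 * n) (pr P N)) t) X (by
      intro n _
      by_cases hn : Mem n X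
      · obtain ⟨t, ht⟩ := (hUs2 n P N).2 (hsing n hn)
        exact ⟨t, fun _ => ht⟩
      · exact ⟨0, fun h => absurd h hn⟩)
    obtain ⟨t1, ht1⟩ := late_Val hTr
    set t : M := max (max t0 t1) (max s0 (max (P + 1) (N + 1))) with ht
    have l1 : t0 ≤ t := (le_max_left _ _).trans (le_max_left _ _)
    have l2 : t1 ≤ t := (le_max_right _ _).trans (le_max_left _ _)
    have l3 : s0 ≤ t := (le_max_left _ _).trans (le_max_right _ _)
    have l4 : P + 1 ≤ t := (le_max_left _ _).trans ((le_max_right _ _).trans (le_max_right _ _))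
    have l5 : N + 1 ≤ t := (le_max_right _ _).trans ((le_max_right _ _).trans (le_max_right _ _))
    obtain ⟨N', _, hN'⟩ := compr_D1 (fun y : M => (Mem y N ∧ Ev y) ∨ ∃ u, u < t ∧
      ((HH u ∧ tg u = 0 ∧ Mem (rm u) P) ∧ y = 2 * u)) (N + 2 * t)
    refine ⟨0, N', Tr_zero_left fun z hz hA => ?_, Or.inr ⟨rfl, t, l3, P,
      lt_of_lt_of_le (lt_add_one' P) l4, N, lt_of_lt_of_le (lt_add_one' N) l5, ht1 t l2,
      fun n hn => ⟨?_, fun h' => h n hn ((hCw n).2 ⟨t, h'⟩)⟩, fun x hx hE => (hN' x).2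
        ⟨lt_of_lt_of_le hx.lt le_self_add, Or.inl ⟨hx, hE⟩⟩, fun u hu hu1 => (hN' _).2
        ⟨?_, Or.inr ⟨u, hu, hu1, rfl⟩⟩⟩⟩
    · rcases ((hN' z).1 hz).2 with ⟨h1, _⟩ | ⟨u, _, ⟨hu1, hu2, hu3⟩, rfl⟩
      · exact hTr.2 z h1 (Ds_of_As hA)
      · exact (hTr.1 _ hu3).2 ((As_two_mul hu1 hu2).1 hA)
    · obtain ⟨y, hy, hy'⟩ := ht0 n hn.lt
      exact (hy' hn).mono (hy.le.trans l1)
    · exact lt_of_lt_of_le (mul_lt_mul_of_pos_left hu (by norm_num)) le_add_self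

/-- every Sigma one set which computes `Ds` computes `Bs` -/
theorem TR_Bs_of_TR_Ds (C : M → Prop) (hC : SN (fun w : M × M => C w.2)) (hDC : TR Ds C) :
    TR Bs C := by
  obtain ⟨Φ, hΦ, hred⟩ := hDC
  obtain ⟨e, he⟩ := universal4 Φ hΦ.ce
  obtain ⟨w, hw⟩ := universal C
  set k : M := pr e w with hk
  have hk1 : fs k = e := by simp [hk]
  have hk2 : sn k = w := by simp [hk]
  have hC' : ∀ z : M, C z ↔ ∃ s, Us (sn k) z s := by rw [hk2]; exact hw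
  have he' : ∀ X y P N : M, Φ X y P N ↔ ∃ s, Us (fs k) (q4 X y P N) s := by rw [hk1]; exact he
  obtain ⟨s0, hs0⟩ := bounded_events k
  have hRegC : Reg C := Reg_SN C
  refine TR_of Bs C hRegC (fun X y P N => ∃ s, s0 ≤ s ∧ X ≤ s ∧
    (∀ z, Mem z P → Us (sn k) z s) ∧ (∀ z, Mem z N → ¬ Us (sn k) z s) ∧
    (∀ x, x < X → ((DD HH s x ∧ Us (fs k) (q4 (ex2 x) 1 P N) s) ∨
      (¬ DD HH s x ∧ Us (fs k) (q4 (ex2 x) 0 P N) s))) ∧
    ((y = 1 ∧ ∀ x, Mem x X → (AA HH s x ∨ FF HH s x)) ∨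
      (y = 0 ∧ ∀ x, Mem x X → ¬ (AA HH s x ∨ FF HH s x)))) inferInstance ?_ ?_ ?_
  · rintro X y P N ⟨s, hs, hX, hP, hN, hag, hy⟩ hTr
    have key : ∀ x, Mem x X → Bs x → (AA HH s x ∨ FF HH s x) := by
      intro x hx hBx
      by_contra hnB
      have hnD : ¬ DD HH s x := by
        rintro (h | ⟨h, _⟩)
        · exact hnB (Or.inl h)
        · exact hnB (Or.inr h)
      have hPhi0 : Φ (ex2 x) 0 P N := by
        rcases hag x hx.lt with ⟨h, _⟩ | ⟨_, h⟩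
        · exact absurd h hnD
        · exact (he' _ _ _ _).2 ⟨s, h⟩
      have hnDs : ¬ Ds x := (hred (ex2 x)).2.2 ⟨P, N, hTr, hPhi0⟩ x (Mem_ex2.2 rfl)
      have hXx : Xs x := by
        by_contra h
        exact hnDs ⟨hBx, h⟩
      obtain ⟨s1, g1, hg1, hg1'⟩ := hXx
      obtain ⟨g, ⟨hg, hE⟩, hgmin⟩ := lnp_SN (fun g : M => HH g ∧ Ext HH g x) hg1'
      obtain ⟨htg, hxN, ⟨u, hug, hu1, hu2, hu3⟩, hnF⟩ := hE
      have hsu : s ≤ u := by
        by_contra h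
        push Not at h
        exact hnB (Or.inr ⟨u, h, hu1, hu2, hu3⟩)
      have hkg : k < pri g := hs0 g (hs.trans (hsu.trans hug.le)) hg
      obtain ⟨_, hGr⟩ := grant_of HH_Elig hg htg
      have hPm : Permit HH k x g := by
        by_contra h
        exact hGr k hkg.le ⟨x, hxN, ⟨u, hug, hu1, hu2, hu3⟩, hnF, h⟩
      obtain ⟨t, htg', ⟨ht1, ht2, ht3⟩, hcase⟩ := hPm
      have htu : t = u := entry_unique HH_Elig ht1 ht2 hu1 hu2 (by rw [ht3, hu3])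
      subst htu
      rcases hcase with h | ⟨s', hs'g, hus', hAgr⟩
      · refine h s hsu (lt_of_lt_of_le hx.lt hX) ?_
        intro x' hx'
        have hx'X : x' < X := lt_of_le_of_lt hx' hx.lt
        have hb : P < s ∧ N < s := by
          rcases hag x' hx'X with ⟨_, h⟩ | ⟨_, h⟩
          · exact (q4_lt h.lt).2.2
          · exact (q4_lt h.lt).2.2
        exact ⟨P, hb.1, N, hb.2, hP, hN, hag x' hx'X⟩
      · obtain ⟨P2, _, N2, _, hP2, hN2, hh⟩ := hAgr x le_rfl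
        have hDx : DD HH s' x := by
          refine Or.inr ⟨⟨t, hus', hu1, hu2, hu3⟩, ?_⟩
          rintro ⟨g', hg', hg'1, hg'2⟩
          exact hgmin g' (lt_of_lt_of_le hg' hs'g) ⟨hg'1, hg'2⟩
        have hPhi1 : Φ (ex2 x) 1 P2 N2 := by
          rcases hh with ⟨_, h⟩ | ⟨h, _⟩
          · exact (he' _ _ _ _).2 ⟨s', h⟩
          · exact absurd hDx h
        obtain ⟨P3, hP3⟩ := exists_union P P2
        obtain ⟨N3, hN3⟩ := exists_union N N2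
        have hss' : s ≤ s' := hsu.trans hus'.le
        have hdj : Dj P3 N3 := by
          intro z hz1 hz2
          rcases (hP3 z).1 hz1 with a | a <;> rcases (hN3 z).1 hz2 with b | b
          · exact hTr.dj z a b
          · exact hN2 z b ((hP z a).mono hss')
          · exact hTr.2 z b ((hC' z).2 ⟨s', hP2 z a⟩)
          · exact hN2 z b (hP2 z a)
        have e1 := hΦ.closed _ _ _ _ (ex2 x) P3 N3 hPhi0 (fun z hz => hz)
          (fun z hz => (hP3 z).2 (Or.inl hz)) (fun z hz => (hN3 z).2 (Or.inl hz)) hdj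
        have e2 := hΦ.closed _ _ _ _ (ex2 x) P3 N3 hPhi1 (fun z hz => hz)
          (fun z hz => (hP3 z).2 (Or.inr hz)) (fun z hz => (hN3 z).2 (Or.inr hz)) hdj
        exact zero_ne_one (hΦ.single _ _ _ _ _ ⟨x, Mem_ex2.2 rfl⟩ e1 e2)
    rcases hy with ⟨h1, h2⟩ | ⟨h1, h2⟩
    · exact Or.inl ⟨h1, fun z hz => ⟨s, h2 z hz⟩⟩
    · exact Or.inr ⟨h1, fun z hz hB => h2 z hz (key z hz hB)⟩
  all_goals
    intro X _ h
    obtain ⟨c1, hc1⟩ := Reg_Ds X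
    obtain ⟨c0, hc0⟩ := Reg_Ds.compl X
    obtain ⟨P1, N1, hT1, hF1⟩ := (hred c1).1.1 (fun z hz => ((hc1 z).1 hz).2)
    obtain ⟨P0, N0, hT0, hF0⟩ := (hred c0).2.1 (fun z hz => ((hc0 z).1 hz).2)
    obtain ⟨P, hP⟩ := exists_union P1 P0
    obtain ⟨N, hN⟩ := exists_union N1 N0
    have hT : Tr C P N := hT1.union hT0 hP hN
    have f1 : ∀ x, x < X → Ds x → Φ (ex2 x) 1 P N := fun x hx hD =>
      hΦ.closed _ _ _ _ _ _ _ hF1 (fun z hz => by rw [Mem_ex2.1 hz]; exact (hc1 x).2 ⟨hx, hD⟩)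
        (fun z hz => (hP z).2 (Or.inl hz)) (fun z hz => (hN z).2 (Or.inl hz)) hT.dj
    have f0 : ∀ x, x < X → ¬ Ds x → Φ (ex2 x) 0 P N := fun x hx hD =>
      hΦ.closed _ _ _ _ _ _ _ hF0 (fun z hz => by rw [Mem_ex2.1 hz]; exact (hc0 x).2 ⟨hx, hD⟩)
        (fun z hz => (hP z).2 (Or.inr hz)) (fun z hz => (hN z).2 (Or.inr hz)) hT.dj
    obtain ⟨b1, hb1⟩ := coll_SN (fun x s : M => (Mem x c1 ∧ Us (fs k) (q4 (ex2 x) 1 P N) s) ∨
      (Mem x c0 ∧ Us (fs k) (q4 (ex2 x) 0 P N) s)) X (by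
        intro x hx
        by_cases hD : Ds x
        · obtain ⟨s, hs⟩ := (he' _ _ _ _).1 (f1 x hx hD)
          exact ⟨s, Or.inl ⟨(hc1 x).2 ⟨hx, hD⟩, hs⟩⟩
        · obtain ⟨s, hs⟩ := (he' _ _ _ _).1 (f0 x hx hD)
          exact ⟨s, Or.inr ⟨(hc0 x).2 ⟨hx, hD⟩, hs⟩⟩)
    obtain ⟨b2, hb2⟩ := coll_SN (fun z s : M => Mem z P → Us (sn k) z s) P (by
        intro z _
        by_cases hz : Mem z P
        · obtain ⟨s, hs⟩ := (hC' z).1 (hT.1 z hz)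
          exact ⟨s, fun _ => hs⟩
        · exact ⟨0, fun h => absurd h hz⟩)
    obtain ⟨b3, hb3⟩ := stab_D X
    obtain ⟨b4, hb4⟩ := stab_B X
    set s : M := max (max b1 b2) (max (max b3 b4) (max s0 X)) with hs
    have l1 : b1 ≤ s := (le_max_left _ _).trans (le_max_left _ _)
    have l2 : b2 ≤ s := (le_max_right _ _).trans (le_max_left _ _)
    have l3 : b3 ≤ s := (le_max_left _ _).trans ((le_max_left _ _).trans (le_max_right _ _))
    have l4 : b4 ≤ s := (le_max_right _ _).trans ((le_max_left _ _).trans (le_max_right _ _))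
    have l5 : s0 ≤ s := (le_max_left _ _).trans ((le_max_right _ _).trans (le_max_right _ _))
    have l6 : X ≤ s := (le_max_right _ _).trans ((le_max_right _ _).trans (le_max_right _ _))
    have g1 : ∀ x, x < X → ((DD HH s x ∧ Us (fs k) (q4 (ex2 x) 1 P N) s) ∨
        (¬ DD HH s x ∧ Us (fs k) (q4 (ex2 x) 0 P N) s)) := by
      intro x hx
      rw [hb3 s l3 x hx]
      obtain ⟨y, hy, ⟨h1, h2⟩ | ⟨h1, h2⟩⟩ := hb1 x hx
      · exact Or.inl ⟨((hc1 x).1 h1).2, h2.mono (hy.le.trans l1)⟩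
      · exact Or.inr ⟨((hc0 x).1 h1).2, h2.mono (hy.le.trans l1)⟩
    have g2 : ∀ z, Mem z P → Us (sn k) z s := by
      intro z hz
      obtain ⟨y, hy, hy'⟩ := hb2 z hz.lt
      exact (hy' hz).mono (hy.le.trans l2)
    have g3 : ∀ z, Mem z N → ¬ Us (sn k) z s := fun z hz h => hT.2 z hz ((hC' z).2 ⟨s, h⟩)
  · exact ⟨P, N, hT, s, l5, l6, g2, g3, g1, Or.inl ⟨rfl, fun x hx => (hb4 s l4 x hx.lt).2 (h x hx)⟩⟩
  · exact ⟨P, N, hT, s, l5, l6, g2, g3, g1,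
      Or.inr ⟨rfl, fun x hx hB => h x hx ((hb4 s l4 x hx.lt).1 hB)⟩⟩

/-- the middle set is not reducible to the lower one -/
theorem not_TR_Ds_As : ¬ TR (Ds : M → Prop) As := fun h =>
  not_TR_Bs_Ds (TR_trans (TR_Bs_of_TR_Ds As SN_As h) TR_As_Ds)

end

end Pool.Agent.H54
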