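import Pool.Agent.H54.Bits

/-!
Pairing and projections.
-/

namespace Pool.Agent.H54

universe u

section

variable {M : Type u} [IS1 M] {Γ Δ : Type u} [Cx M Γ] [Cx M Δ]

/-- pairing function -/
def pr (x y : M) : M := (x + y) * (x + y) + x

theorem pr_fn : Fn (fun w : M × M => pr w.1 w.2) := by
  unfold pr; infer_instance

instance Fn.pr (f g : Γ → M) [hf : Fn f] [hg : Fn g] : Fn (fun γ => pr (f γ) (g γ)) :=
  Fn.app2 pr_fn f g

theorem self_le_sq (a : M) : a ≤ a * a := by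
  rcases zero_or_succ a with rfl | ⟨b, rfl⟩
  · simp
  · calc b + 1 = (b + 1) * 1 := (mul_one _).symm
      _ ≤ (b + 1) * (b + 1) := mul_le_mul_of_nonneg_left le_add_self zero_le

theorem le_pr_left (x y : M) : x ≤ pr x y := le_add_self

theorem le_pr_right (x y : M) : y ≤ pr x y :=
  le_trans (le_trans le_add_self (self_le_sq (x + y))) le_self_add

theorem pr_inj {x y x' y' : M} : pr x y = pr x' y' ↔ x = x' ∧ y = y' := by
  constructor
  · intro h
    have key : ∀ {x y x' y' : M}, pr x y = pr x' y' → ¬ x + y < x' + y' := by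
      intro x y x' y' h hlt
      have h1 : (x + y + 1) * (x + y + 1) ≤ (x' + y') * (x' + y') :=
        mul_le_mul (succ_le_iff'.2 hlt) (succ_le_iff'.2 hlt) zero_le zero_le
      have h2 : pr x y < (x + y + 1) * (x + y + 1) := by
        have e : (x + y + 1) * (x + y + 1) = pr x y + (y + (x + y) + 1) := by
          unfold pr; ring
        rw [e]
        exact lt_add_of_pos_right _ (pos_iff_succ.2 ⟨_, rfl⟩)
      have h3 : pr x y < pr x' y' := lt_of_lt_of_le h2 (h1.trans le_self_add)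
      exact absurd h h3.ne
    have hs : x + y = x' + y' := le_antisymm (not_lt.1 (key h.symm)) (not_lt.1 (key h))
    have hx : x = x' := by
      unfold pr at h
      rw [hs] at h
      exact add_left_cancel h
    subst hx
    exact ⟨rfl, add_left_cancel hs⟩
  · rintro ⟨rfl, rfl⟩; rfl

open Classical in
/-- first projection -/
noncomputable def fs (z : M) : M := if h : ∃ x y, z = pr x y then h.choose else 0

open Classical in
/-- second projection -/
noncomputable def sn (z : M) : M := if h : ∃ y x, z = pr x y then h.choose else 0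

@[simp] theorem fs_pr (x y : M) : fs (pr x y) = x := by
  have h : ∃ x' y', pr x y = pr x' y' := ⟨x, y, rfl⟩
  rw [fs, dif_pos h]
  obtain ⟨y', hy'⟩ := h.choose_spec
  exact (pr_inj.1 hy').1.symm

@[simp] theorem sn_pr (x y : M) : sn (pr x y) = y := by
  have h : ∃ y' x', pr x y = pr x' y' := ⟨y, x, rfl⟩
  rw [sn, dif_pos h]
  obtain ⟨y', hy'⟩ := h.choose_spec
  exact (pr_inj.1 hy').2.symm

theorem fs_of_not {z : M} (h : ¬ ∃ x y, z = pr x y) : fs z = 0 := by
  rw [fs, dif_neg h]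

theorem sn_of_not {z : M} (h : ¬ ∃ x y, z = pr x y) : sn z = 0 := by
  rw [sn, dif_neg]
  rintro ⟨y, x, hxy⟩
  exact h ⟨x, y, hxy⟩

theorem fs_le (z : M) : fs z ≤ z := by
  by_cases h : ∃ x y, z = pr x y
  · obtain ⟨x, y, rfl⟩ := h
    rw [fs_pr]; exact le_pr_left x y
  · rw [fs_of_not h]; exact zero_le

theorem sn_le (z : M) : sn z ≤ z := by
  by_cases h : ∃ x y, z = pr x y
  · obtain ⟨x, y, rfl⟩ := h
    rw [sn_pr]; exact le_pr_right x y
  · rw [sn_of_not h]; exact zero_le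

theorem not_pair_iff {z : M} :
    (¬ ∃ x y, z = pr x y) ↔ ∀ x, x ≤ z → ∀ y, y ≤ z → z ≠ pr x y := by
  constructor
  · intro h x _ y _ hz
    exact h ⟨x, y, hz⟩
  · rintro h ⟨x, y, hz⟩
    exact h x (hz ▸ le_pr_left x y) y (hz ▸ le_pr_right x y) hz

theorem fs_fn : Fn (fun w : M × M => fs w.2) := by
  constructor
  have : SN (fun w : (M × M) × M => (∃ y, w.1.2 = pr w.2 y) ∨
      ((∀ x, x ≤ w.1.2 → ∀ y, y ≤ w.1.2 → w.1.2 ≠ pr x y) ∧ w.2 = 0)) := by
    have h1 : D1 (fun w : (((M × M) × M) × M) × M => w.1.1.1.2 ≠ pr w.1.2 w.2) :=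
      D1.not (fun w : (((M × M) × M) × M) × M => w.1.1.1.2 = pr w.1.2 w.2)
    infer_instance
  refine this.congr fun w => ?_
  rw [← not_pair_iff]
  constructor
  · intro h
    by_cases h1 : ∃ x y, w.1.2 = pr x y
    · obtain ⟨x, y, hxy⟩ := h1
      rw [hxy, fs_pr] at h
      subst h
      exact Or.inl ⟨y, hxy⟩
    · rw [fs_of_not h1] at h
      exact Or.inr ⟨h1, h.symm⟩
  · rintro (⟨y, hy⟩ | ⟨h1, h2⟩)
    · rw [hy, fs_pr]
    · rw [fs_of_not h1, h2]

theorem sn_fn : Fn (fun w : M × M => sn w.2) := by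
  constructor
  have : SN (fun w : (M × M) × M => (∃ x, w.1.2 = pr x w.2) ∨
      ((∀ x, x ≤ w.1.2 → ∀ y, y ≤ w.1.2 → w.1.2 ≠ pr x y) ∧ w.2 = 0)) := by
    have h1 : D1 (fun w : (((M × M) × M) × M) × M => w.1.1.1.2 ≠ pr w.1.2 w.2) :=
      D1.not (fun w : (((M × M) × M) × M) × M => w.1.1.1.2 = pr w.1.2 w.2)
    infer_instance
  refine this.congr fun w => ?_
  rw [← not_pair_iff]
  constructor
  · intro h
    by_cases h1 : ∃ x y, w.1.2 = pr x y
    · obtain ⟨x, y, hxy⟩ := h1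
      rw [hxy, sn_pr] at h
      subst h
      exact Or.inl ⟨x, hxy⟩
    · rw [sn_of_not h1] at h
      exact Or.inr ⟨h1, h.symm⟩
  · rintro (⟨y, hy⟩ | ⟨h1, h2⟩)
    · rw [hy, sn_pr]
    · rw [sn_of_not h1, h2]

theorem Fn.of1 {F : M → M} (h : Fn (fun w : M × M => F w.2)) : Fn F :=
  h.comp (fun x : M => (x, x))

instance Fn.fs (f : Γ → M) [hf : Fn f] : Fn (fun γ => fs (f γ)) := (Fn.of1 fs_fn).app1 f
instance Fn.sn (f : Γ → M) [hf : Fn f] : Fn (fun γ => sn (f γ)) := (Fn.of1 sn_fn).app1 f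

instance D1.ne (f g : Γ → M) [hf : Fn f] [hg : Fn g] : D1 (fun γ => f γ ≠ g γ) :=
  D1.not (fun γ => f γ = g γ)

theorem pr_mono {x y x' y' : M} (h1 : x ≤ x') (h2 : y ≤ y') : pr x y ≤ pr x' y' := by
  unfold pr
  gcongr

theorem zero_lt_pr {x y : M} (h : 0 < x) : 0 < pr x y := lt_of_lt_of_le h (le_pr_left _ _)

theorem lt_pr_right {x y : M} (h : 0 < x) : y < pr x y := by
  unfold pr
  refine lt_of_le_of_lt ?_ (lt_add_of_pos_right _ h)
  exact le_trans le_add_self (self_le_sq (x + y))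

end

end Pool.Agent.H54
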