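import Pool.Agent.H54.Univ

/-!
Turing functionals and setwise Turing reducibility.
-/

set_option synthInstance.maxSize 100000

namespace Pool.Agent.H54

universe u

section

variable {M : Type u} [IS1 M] {Γ Δ : Type u} [Cx M Γ] [Cx M Δ]

instance SN.ball_mem (f : Γ → M) (R : Γ → M → Prop) [hf : Fn f]
    [hR : SN (fun w : Γ × M => R w.1 w.2)] : SN (fun γ => ∀ z, Mem z (f γ) → R γ z) := by
  have h1 : Fn (fun w : Γ × M => f w.1) := hf.comp _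
  have h2 : SN (fun γ => ∀ z, z < f γ → (Mem z (f γ) → R γ z)) := inferInstance
  exact h2.congr fun γ => ⟨fun h z _ hz => h z hz, fun h z hz => h z hz.lt hz⟩

instance D1.ball_mem (f : Γ → M) (R : Γ → M → Prop) [hf : Fn f]
    [hR : D1 (fun w : Γ × M => R w.1 w.2)] : D1 (fun γ => ∀ z, Mem z (f γ) → R γ z) := by
  have h1 : Fn (fun w : Γ × M => f w.1) := hf.comp _
  have h2 : D1 (fun γ => ∀ z, z < f γ → (Mem z (f γ) → R γ z)) := inferInstance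
  exact h2.congr fun γ => ⟨fun h z _ hz => h z hz, fun h z hz => h z hz.lt hz⟩

instance D1.bex_mem (f : Γ → M) (R : Γ → M → Prop) [hf : Fn f]
    [hR : D1 (fun w : Γ × M => R w.1 w.2)] : D1 (fun γ => ∃ z, Mem z (f γ) ∧ R γ z) := by
  have h1 : Fn (fun w : Γ × M => f w.1) := hf.comp _
  have h2 : D1 (fun γ => ∃ z, z < f γ ∧ (Mem z (f γ) ∧ R γ z)) := inferInstance
  exact h2.congr fun γ => ⟨fun ⟨z, hz⟩ => ⟨z, hz.1.lt, hz⟩, fun ⟨z, _, hz⟩ => ⟨z, hz⟩⟩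

/-- inclusion of coded sets -/
def Sub (a b : M) : Prop := ∀ z, Mem z a → Mem z b

/-- disjointness of coded sets -/
def Dj (a b : M) : Prop := ∀ z, Mem z a → ¬ Mem z b

theorem D1_Sub : D1 (fun w : M × M => Sub w.1 w.2) := by unfold Sub; infer_instance
theorem D1_Dj : D1 (fun w : M × M => Dj w.1 w.2) := by unfold Dj; infer_instance

instance D1.Sub (f g : Γ → M) [hf : Fn f] [hg : Fn g] : D1 (fun γ => Sub (f γ) (g γ)) :=
  D1_Sub.app2 f g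
instance D1.Dj (f g : Γ → M) [hf : Fn f] [hg : Fn g] : D1 (fun γ => Dj (f γ) (g γ)) :=
  D1_Dj.app2 f g

/-- Turing functionals -/
structure Func (Φ : M → M → M → M → Prop) : Prop where
  ce : SN (fun w : ((M × M) × M) × M => Φ w.1.1.1 w.1.1.2 w.1.2 w.2)
  dj : ∀ X y P N, Φ X y P N → Dj P N
  closed : ∀ X y P N X' P' N', Φ X y P N → Sub X' X → Sub P P' → Sub N N' → Dj P' N' →
    Φ X' y P' N'
  single : ∀ X y y' P N, (∃ z, Mem z X) → Φ X y P N → Φ X y' P N → y = y'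

/-- `(P, N)` is a true neighbourhood of `B` -/
def Tr (B : M → Prop) (P N : M) : Prop := (∀ z, Mem z P → B z) ∧ (∀ z, Mem z N → ¬ B z)

/-- setwise Turing reducibility -/
def TR (A B : M → Prop) : Prop := ∃ Φ, Func Φ ∧ ∀ X : M,
  ((∀ z, Mem z X → A z) ↔ ∃ P N, Tr B P N ∧ Φ X 1 P N) ∧
  ((∀ z, Mem z X → ¬ A z) ↔ ∃ P N, Tr B P N ∧ Φ X 0 P N)

theorem Tr.dj {B : M → Prop} {P N : M} (h : Tr B P N) : Dj P N := fun z h1 h2 => h.2 z h2 (h.1 z h1)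

theorem Tr.union {B : M → Prop} {P N P' N' P'' N'' : M} (h : Tr B P N) (h' : Tr B P' N')
    (hP : ∀ z, Mem z P'' ↔ Mem z P ∨ Mem z P') (hN : ∀ z, Mem z N'' ↔ Mem z N ∨ Mem z N') :
    Tr B P'' N'' :=
  ⟨fun z hz => ((hP z).1 hz).elim (h.1 z) (h'.1 z), fun z hz => ((hN z).1 hz).elim (h.2 z) (h'.2 z)⟩

/-- bounded parts are coded -/
def Reg (B : M → Prop) : Prop := ∀ b : M, ∃ c : M, ∀ z, Mem z c ↔ z < b ∧ B z

theorem Reg_SN (B : M → Prop) [hB : SN (fun w : M × M => B w.2)] : Reg B := fun b => by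
  obtain ⟨c, _, hc⟩ := compr_SN B b
  exact ⟨c, hc⟩

theorem Reg.diff {A B : M → Prop} (hA : Reg A) (hB : Reg B) : Reg (fun x => A x ∧ ¬ B x) := fun b => by
  obtain ⟨c, hc⟩ := hA b
  obtain ⟨d, hd⟩ := hB b
  obtain ⟨e, _, he⟩ := compr_D1 (fun z : M => Mem z c ∧ ¬ Mem z d) b
  refine ⟨e, fun z => ?_⟩
  rw [he, hc, hd]
  tauto

theorem Reg.compl {A : M → Prop} (hA : Reg A) : Reg (fun x => ¬ A x) := fun b => by
  obtain ⟨c, hc⟩ := hA b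
  obtain ⟨e, _, he⟩ := compr_D1 (fun z : M => ¬ Mem z c) b
  refine ⟨e, fun z => ?_⟩
  rw [he, hc]
  tauto

theorem exists_restrict (P : M → Prop) [hP : D1 (fun w : M × M => P w.2)] (a : M) :
    ∃ c, ∀ z, Mem z c ↔ Mem z a ∧ P z := by
  have h1 : D1 (fun w : M × M => Mem w.2 a ∧ P w.2) := inferInstance
  obtain ⟨c, _, hc⟩ := compr_D1 (fun z : M => Mem z a ∧ P z) a
  exact ⟨c, fun z => by rw [hc]; exact ⟨fun h => h.2, fun h => ⟨h.1.lt, h⟩⟩⟩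

/-- code of a quadruple -/
def q4 (X y P N : M) : M := pr (pr (pr X y) P) N

instance Fn.q4 (f g h k : Γ → M) [hf : Fn f] [hg : Fn g] [hh : Fn h] [hk : Fn k] :
    Fn (fun γ => q4 (f γ) (g γ) (h γ) (k γ)) := by
  unfold H54.q4; infer_instance

theorem q4_lt {X y P N s : M} (h : q4 X y P N < s) : X < s ∧ y < s ∧ P < s ∧ N < s := by
  have h1 : pr (pr X y) P < s := lt_of_le_of_lt (le_pr_left _ _) h
  have h2 : pr X y < s := lt_of_le_of_lt (le_pr_left _ _) h1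
  exact ⟨lt_of_le_of_lt (le_pr_left _ _) h2, lt_of_le_of_lt (le_pr_right _ _) h2,
    lt_of_le_of_lt (le_pr_right _ _) h1, lt_of_le_of_lt (le_pr_right _ _) h⟩

/-- indices for Sigma one relations of arity four -/
theorem universal4 (Φ : M → M → M → M → Prop)
    (hΦ : SN (fun w : ((M × M) × M) × M => Φ w.1.1.1 w.1.1.2 w.1.2 w.2)) :
    ∃ e : M, ∀ X y P N, Φ X y P N ↔ ∃ s, Us e (q4 X y P N) s := by
  have h1 : ∀ {Γ : Type u} [Cx M Γ] (f g h k : Γ → M) [Fn f] [Fn g] [Fn h] [Fn k],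
      SN (fun γ => Φ (f γ) (g γ) (h γ) (k γ)) := fun f g h k => hΦ.app4 f g h k
  obtain ⟨e, he⟩ := universal (fun z : M => Φ (fs (fs (fs z))) (sn (fs (fs z))) (sn (fs z)) (sn z))
  refine ⟨e, fun X y P N => ?_⟩
  rw [← he]
  simp [q4]

/-- stagewise consistency of a set of quadruples with respect to a neighbourhood -/
def Cons (e s P N : M) : Prop :=
  ∀ X, X < s → ∀ y, y < s → ∀ P', P' < s → ∀ N', N' < s →
  ∀ X2, X2 < s → ∀ y2, y2 < s → ∀ P2, P2 < s → ∀ N2, N2 < s →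
    (Us e (q4 X y P' N') s ∧ Us e (q4 X2 y2 P2 N2) s ∧ Sub P' P ∧ Sub N' N ∧ Sub P2 P ∧ Sub N2 N) →
    (∃ z, Mem z X ∧ Mem z X2) → y = y2

theorem D1_Cons : D1 (fun w : ((M × M) × M) × M => Cons w.1.1.1 w.1.1.2 w.1.2 w.2) := by
  unfold Cons
  infer_instance

instance D1.Cons (f g h k : Γ → M) [hf : Fn f] [hg : Fn g] [hh : Fn h] [hk : Fn k] :
    D1 (fun γ => Cons (f γ) (g γ) (h γ) (k γ)) := D1_Cons.app4 f g h k

/-- the functional obtained from a set of quadruples -/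
def mkF (e X y P N : M) : Prop :=
  Dj P N ∧ ((∀ z, ¬ Mem z X) ∨ ∃ s, (∀ z, z < s → Mem z P ∨ Mem z N) ∧ Cons e s P N ∧
    ∃ X', X' < s ∧ ∃ P', P' < s ∧ ∃ N', N' < s ∧
      (Us e (q4 X' y P' N') s ∧ Sub X X' ∧ Sub P' P ∧ Sub N' N))

theorem mkF_func (e : M) : Func (mkF e) := by
  have hne : D1 (fun w : ((M × M) × M) × M => ∀ z, ¬ Mem z w.1.1.1) := by
    have h1 : D1 (fun w : ((M × M) × M) × M => ¬ ∃ z, Mem z w.1.1.1 ∧ True) := inferInstance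
    exact h1.congr fun w => by simp
  refine ⟨?_, fun X y P N h => h.1, ?_, ?_⟩
  · unfold mkF
    infer_instance
  · rintro X y P N X' P' N' ⟨h1, h2⟩ hX hP hN hdj
    refine ⟨hdj, ?_⟩
    rcases h2 with h2 | ⟨s, h3, h4, Y, hY, Q, hQ, R, hR, h5, h6, h7, h8⟩
    · exact Or.inl fun z hz => h2 z (hX z hz)
    · refine Or.inr ⟨s, fun z hz => (h3 z hz).imp (hP z) (hN z), ?_, Y, hY, Q, hQ, R, hR, h5,
        fun z hz => h6 z (hX z hz), fun z hz => hP z (h7 z hz), fun z hz => hN z (h8 z hz)⟩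
      intro A1 hA1 y1 hy1 P1 hP1 N1 hN1 A2 hA2 y2 hy2 P2 hP2 N2 hN2 hh hz
      have key1 : ∀ Q, Q < s → Sub Q P' → Sub Q P := by
        intro Q hQ h z hz
        rcases h3 z (hz.lt.trans hQ) with h9 | h9
        · exact h9
        · exact absurd (hN z h9) (hdj z (h z hz))
      have key2 : ∀ Q, Q < s → Sub Q N' → Sub Q N := by
        intro Q hQ h z hz
        rcases h3 z (hz.lt.trans hQ) with h9 | h9
        · exact absurd (h z hz) (hdj z (hP z h9))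
        · exact h9
      exact h4 A1 hA1 y1 hy1 P1 hP1 N1 hN1 A2 hA2 y2 hy2 P2 hP2 N2 hN2
        ⟨hh.1, hh.2.1, key1 _ hP1 hh.2.2.1, key2 _ hN1 hh.2.2.2.1, key1 _ hP2 hh.2.2.2.2.1,
          key2 _ hN2 hh.2.2.2.2.2⟩ hz
  · rintro X y y' P N ⟨z, hz⟩ ⟨h1, h2⟩ ⟨_, h2'⟩
    rcases h2 with h2 | ⟨s, h3, h4, Y, hY, Q, hQ, R, hR, h5, h6, h7, h8⟩
    · exact absurd hz (h2 z)
    rcases h2' with h2' | ⟨s', h3', h4', Y', hY', Q', hQ', R', hR', h5', h6', h7', h8'⟩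
    · exact absurd hz (h2' z)
    have hy := (q4_lt h5.lt).2.1
    have hy' := (q4_lt h5'.lt).2.1
    rcases le_total s s' with hss | hss
    · exact h4' Y (hY.trans_le hss) y (hy.trans_le hss) Q (hQ.trans_le hss) R (hR.trans_le hss)
        Y' hY' y' hy' Q' hQ' R' hR' ⟨h5.mono hss, h5', h7, h8, h7', h8'⟩ ⟨z, h6 z hz, h6' z hz⟩
    · exact h4 Y hY y hy Q hQ R hR
        Y' (hY'.trans_le hss) y' (hy'.trans_le hss) Q' (hQ'.trans_le hss) R' (hR'.trans_le hss)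
        ⟨h5, h5'.mono hss, h7, h8, h7', h8'⟩ ⟨z, h6 z hz, h6' z hz⟩

/-- reducibility from a sound and complete Sigma one set of quadruples -/
theorem TR_of (A B : M → Prop) (hB : Reg B) (G : M → M → M → M → Prop)
    (hG : SN (fun w : ((M × M) × M) × M => G w.1.1.1 w.1.1.2 w.1.2 w.2))
    (sound : ∀ X y P N, G X y P N → Tr B P N →
      (y = 1 ∧ ∀ z, Mem z X → A z) ∨ (y = 0 ∧ ∀ z, Mem z X → ¬ A z))
    (comp1 : ∀ X, (∃ z, Mem z X) → (∀ z, Mem z X → A z) → ∃ P N, Tr B P N ∧ G X 1 P N)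
    (comp0 : ∀ X, (∃ z, Mem z X) → (∀ z, Mem z X → ¬ A z) → ∃ P N, Tr B P N ∧ G X 0 P N) :
    TR A B := by
  obtain ⟨e, he⟩ := universal4 G hG
  refine ⟨mkF e, mkF_func e, fun X => ?_⟩
  have hne : (0 : M) ≠ 1 := zero_ne_one
  have key : ∀ y : M, ∀ P N, Tr B P N → G X y P N → ∃ P N, Tr B P N ∧ mkF e X y P N := by
    intro y P N hT hGG
    obtain ⟨s, hs⟩ := (he X y P N).1 hGG
    obtain ⟨P', hP'⟩ := hB s
    obtain ⟨N', hN'⟩ := hB.compl s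
    have hT' : Tr B P' N' := ⟨fun z hz => ((hP' z).1 hz).2, fun z hz => ((hN' z).1 hz).2⟩
    obtain ⟨hX, hy, hPs, hNs⟩ := q4_lt hs.lt
    refine ⟨P', N', hT', hT'.dj, Or.inr ⟨s, fun z hz => ?_, ?_, X, hX, P, hPs, N, hNs, hs,
      fun z hz => hz, fun z hz => (hP' z).2 ⟨hz.lt.trans hPs, hT.1 z hz⟩,
      fun z hz => (hN' z).2 ⟨hz.lt.trans hNs, hT.2 z hz⟩⟩⟩
    · by_cases h : B z
      · exact Or.inl ((hP' z).2 ⟨hz, h⟩)
      · exact Or.inr ((hN' z).2 ⟨hz, h⟩)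
    · intro A1 _ y1 _ P1 _ N1 _ A2 _ y2 _ P2 _ N2 _ hh hz
      obtain ⟨z, hz1, hz2⟩ := hz
      have t1 : Tr B P1 N1 := ⟨fun z hz => hT'.1 z (hh.2.2.1 z hz), fun z hz => hT'.2 z (hh.2.2.2.1 z hz)⟩
      have t2 : Tr B P2 N2 := ⟨fun z hz => hT'.1 z (hh.2.2.2.2.1 z hz),
        fun z hz => hT'.2 z (hh.2.2.2.2.2 z hz)⟩
      rcases sound _ _ _ _ ((he A1 y1 P1 N1).2 ⟨s, hh.1⟩) t1 with ⟨h1, h2⟩ | ⟨h1, h2⟩ <;>
      rcases sound _ _ _ _ ((he A2 y2 P2 N2).2 ⟨s, hh.2.1⟩) t2 with ⟨h3, h4⟩ | ⟨h3, h4⟩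
      · rw [h1, h3]
      · exact absurd (h2 z hz1) (h4 z hz2)
      · exact absurd (h4 z hz2) (h2 z hz1)
      · rw [h1, h3]
  have key0 : ∀ y : M, (∀ z, ¬ Mem z X) → ∃ P N, Tr B P N ∧ mkF e X y P N := fun y hX =>
    ⟨0, 0, ⟨fun z hz => absurd hz (not_Mem_zero z), fun z hz => absurd hz (not_Mem_zero z)⟩,
      fun z hz => absurd hz (not_Mem_zero z), Or.inl hX⟩
  have snd : ∀ y : M, ∀ P N, (∃ z, Mem z X) → Tr B P N → mkF e X y P N →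
      (y = 1 ∧ ∀ z, Mem z X → A z) ∨ (y = 0 ∧ ∀ z, Mem z X → ¬ A z) := by
    rintro y P N ⟨z, hz⟩ hT ⟨_, h2⟩
    rcases h2 with h2 | ⟨s, h3, h4, Y, hY, Q, hQ, R, hR, h5, h6, h7, h8⟩
    · exact absurd hz (h2 z)
    · have := sound Y y Q R ((he _ _ _ _).2 ⟨s, h5⟩)
        ⟨fun z hz => hT.1 z (h7 z hz), fun z hz => hT.2 z (h8 z hz)⟩
      rcases this with ⟨h, h'⟩ | ⟨h, h'⟩
      · exact Or.inl ⟨h, fun z hz => h' z (h6 z hz)⟩
      · exact Or.inr ⟨h, fun z hz => h' z (h6 z hz)⟩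
  by_cases hX : ∃ z, Mem z X
  · refine ⟨⟨fun h => ?_, ?_⟩, ⟨fun h => ?_, ?_⟩⟩
    · obtain ⟨P, N, h1, h2⟩ := comp1 X hX h
      exact key 1 P N h1 h2
    · rintro ⟨P, N, h1, h2⟩
      rcases snd 1 P N hX h1 h2 with h | h
      · exact h.2
      · exact absurd h.1.symm hne
    · obtain ⟨P, N, h1, h2⟩ := comp0 X hX h
      exact key 0 P N h1 h2
    · rintro ⟨P, N, h1, h2⟩
      rcases snd 0 P N hX h1 h2 with h | h
      · exact absurd h.1 hne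
      · exact h.2
  · push Not at hX
    exact ⟨⟨fun _ => key0 1 hX, fun _ z hz => absurd hz (hX z)⟩,
      ⟨fun _ => key0 0 hX, fun _ z hz => absurd hz (hX z)⟩⟩

theorem TR_refl (A : M → Prop) : TR A A := by
  have hne : D1 (fun w : ((M × M) × M) × M => ∀ z, ¬ Mem z w.1.1.1) := by
    have h1 : D1 (fun w : ((M × M) × M) × M => ¬ ∃ z, Mem z w.1.1.1 ∧ True) := inferInstance
    exact h1.congr fun w => by simp
  refine ⟨fun X y P N => Dj P N ∧ ((∀ z, ¬ Mem z X) ∨ (y = 1 ∧ Sub X P) ∨ (y = 0 ∧ Sub X N)),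
    ⟨inferInstance, fun X y P N h => h.1, ?_, ?_⟩, fun X => ?_⟩
  · rintro X y P N X' P' N' ⟨h1, h2⟩ hX hP hN hdj
    refine ⟨hdj, ?_⟩
    rcases h2 with h2 | ⟨h2, h3⟩ | ⟨h2, h3⟩
    · exact Or.inl fun z hz => h2 z (hX z hz)
    · exact Or.inr (Or.inl ⟨h2, fun z hz => hP z (h3 z (hX z hz))⟩)
    · exact Or.inr (Or.inr ⟨h2, fun z hz => hN z (h3 z (hX z hz))⟩)
  · rintro X y y' P N ⟨z, hz⟩ ⟨h1, h2⟩ ⟨_, h2'⟩
    rcases h2 with h2 | ⟨h2, h3⟩ | ⟨h2, h3⟩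
    · exact absurd hz (h2 z)
    · rcases h2' with h2' | ⟨h2', h3'⟩ | ⟨h2', h3'⟩
      · exact absurd hz (h2' z)
      · rw [h2, h2']
      · exact absurd (h3' z hz) (h1 z (h3 z hz))
    · rcases h2' with h2' | ⟨h2', h3'⟩ | ⟨h2', h3'⟩
      · exact absurd hz (h2' z)
      · exact absurd (h3 z hz) (h1 z (h3' z hz))
      · rw [h2, h2']
  · refine ⟨⟨fun h => ⟨X, 0, ⟨h, fun z hz => absurd hz (not_Mem_zero z)⟩,
      fun z _ hz => not_Mem_zero z hz, Or.inr (Or.inl ⟨rfl, fun z hz => hz⟩)⟩, ?_⟩,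
      ⟨fun h => ⟨0, X, ⟨fun z hz => absurd hz (not_Mem_zero z), h⟩,
        fun z hz => absurd hz (not_Mem_zero z), Or.inr (Or.inr ⟨rfl, fun z hz => hz⟩)⟩, ?_⟩⟩
    · rintro ⟨P, N, hT, _, h2 | ⟨h2, h3⟩ | ⟨h2, h3⟩⟩
      · exact fun z hz => absurd hz (h2 z)
      · exact fun z hz => hT.1 z (h3 z hz)
      · exact absurd h2 one_ne_zero
    · rintro ⟨P, N, hT, _, h2 | ⟨h2, h3⟩ | ⟨h2, h3⟩⟩
      · exact fun z hz => absurd hz (h2 z)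
      · exact absurd h2 zero_ne_one
      · exact fun z hz => hT.2 z (h3 z hz)

theorem TR_trans {A B C : M → Prop} (h1 : TR A B) (h2 : TR B C) : TR A C := by
  obtain ⟨Φ, hΦ, hA⟩ := h1
  obtain ⟨Ψ, hΨ, hB⟩ := h2
  have hne : D1 (fun w : ((M × M) × M) × M => ∀ z, ¬ Mem z w.1.1.1) := by
    have h1 : D1 (fun w : ((M × M) × M) × M => ¬ ∃ z, Mem z w.1.1.1 ∧ True) := inferInstance
    exact h1.congr fun w => by simp
  have iΦ : ∀ {Γ : Type u} [Cx M Γ] (f g h k : Γ → M) [Fn f] [Fn g] [Fn h] [Fn k],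
      SN (fun γ => Φ (f γ) (g γ) (h γ) (k γ)) := fun f g h k => hΦ.ce.app4 f g h k
  have iΨ : ∀ {Γ : Type u} [Cx M Γ] (f g h k : Γ → M) [Fn f] [Fn g] [Fn h] [Fn k],
      SN (fun γ => Ψ (f γ) (g γ) (h γ) (k γ)) := fun f g h k => hΨ.ce.app4 f g h k
  have hsub : ∀ z X : M, Mem z X → Sub (ex2 z) X := fun z X hz y hy => by
    rw [Mem_ex2.1 hy]; exact hz
  have hrefl : ∀ X : M, Sub X X := fun X z hz => hz
  refine ⟨fun X y P' N' => Dj P' N' ∧ ((∀ z, ¬ Mem z X) ∨ ∃ P N, Φ X y P N ∧ Ψ P 1 P' N' ∧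
    Ψ N 0 P' N'), ⟨inferInstance, fun X y P N h => h.1, ?_, ?_⟩, fun X => ?_⟩
  · rintro X y P N X' P' N' ⟨h1, h2⟩ hX hP hN hdj
    refine ⟨hdj, ?_⟩
    rcases h2 with h2 | ⟨Q, R, h2, h3, h4⟩
    · exact Or.inl fun z hz => h2 z (hX z hz)
    · exact Or.inr ⟨Q, R, hΦ.closed _ _ _ _ _ _ _ h2 hX (hrefl _) (hrefl _) (hΦ.dj _ _ _ _ h2),
        hΨ.closed _ _ _ _ _ _ _ h3 (hrefl _) hP hN hdj,
        hΨ.closed _ _ _ _ _ _ _ h4 (hrefl _) hP hN hdj⟩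
  · rintro X y y' P N ⟨z, hz⟩ ⟨h1, h2⟩ ⟨_, h2'⟩
    rcases h2 with h2 | ⟨Q, R, h2, h3, h4⟩
    · exact absurd hz (h2 z)
    rcases h2' with h2' | ⟨Q', R', h2', h3', h4'⟩
    · exact absurd hz (h2' z)
    obtain ⟨Q2, hQ2⟩ := exists_union Q Q'
    obtain ⟨R2, hR2⟩ := exists_union R R'
    have cross : ∀ {Q R : M}, Ψ Q 1 P N → Ψ R 0 P N → Dj Q R := by
      intro Q R h3 h4 z hz1 hz2
      have e1 : Ψ (ex2 z) 1 P N := hΨ.closed _ _ _ _ _ _ _ h3 (hsub z Q hz1) (hrefl _) (hrefl _) h1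
      have e2 : Ψ (ex2 z) 0 P N := hΨ.closed _ _ _ _ _ _ _ h4 (hsub z R hz2) (hrefl _) (hrefl _) h1
      exact one_ne_zero (hΨ.single _ _ _ _ _ ⟨z, Mem_ex2.2 rfl⟩ e1 e2)
    have hdj : Dj Q2 R2 := by
      intro z hz1 hz2
      rcases (hQ2 z).1 hz1 with a | a <;> rcases (hR2 z).1 hz2 with b | b
      · exact cross h3 h4 z a b
      · exact cross h3 h4' z a b
      · exact cross h3' h4 z a b
      · exact cross h3' h4' z a b
    exact hΦ.single X y y' Q2 R2 ⟨z, hz⟩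
      (hΦ.closed _ _ _ _ _ _ _ h2 (hrefl _) (fun z hz => (hQ2 z).2 (Or.inl hz))
        (fun z hz => (hR2 z).2 (Or.inl hz)) hdj)
      (hΦ.closed _ _ _ _ _ _ _ h2' (hrefl _) (fun z hz => (hQ2 z).2 (Or.inr hz))
        (fun z hz => (hR2 z).2 (Or.inr hz)) hdj)
  · have fwd : ∀ y : M, (∃ P N, Tr B P N ∧ Φ X y P N) → ∃ P N, Tr C P N ∧ (Dj P N ∧
        ((∀ z, ¬ Mem z X) ∨ ∃ P' N', Φ X y P' N' ∧ Ψ P' 1 P N ∧ Ψ N' 0 P N)) := by
      rintro y ⟨Q, R, hT, h⟩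
      obtain ⟨P1, N1, t1, s1⟩ := (hB Q).1.1 hT.1
      obtain ⟨P2, N2, t2, s2⟩ := (hB R).2.1 hT.2
      obtain ⟨P, hP⟩ := exists_union P1 P2
      obtain ⟨N, hN⟩ := exists_union N1 N2
      have hT' : Tr C P N := t1.union t2 hP hN
      refine ⟨P, N, hT', hT'.dj, Or.inr ⟨Q, R, h, ?_, ?_⟩⟩
      · exact hΨ.closed _ _ _ _ _ _ _ s1 (hrefl _) (fun z hz => (hP z).2 (Or.inl hz))
          (fun z hz => (hN z).2 (Or.inl hz)) hT'.dj
      · exact hΨ.closed _ _ _ _ _ _ _ s2 (hrefl _) (fun z hz => (hP z).2 (Or.inr hz))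
          (fun z hz => (hN z).2 (Or.inr hz)) hT'.dj
    refine ⟨⟨fun h => fwd 1 ((hA X).1.1 h), ?_⟩, ⟨fun h => fwd 0 ((hA X).2.1 h), ?_⟩⟩
    · rintro ⟨P, N, hT, _, h2 | ⟨Q, R, h2, h3, h4⟩⟩
      · exact fun z hz => absurd hz (h2 z)
      · exact (hA X).1.2 ⟨Q, R, ⟨(hB Q).1.2 ⟨P, N, hT, h3⟩, (hB R).2.2 ⟨P, N, hT, h4⟩⟩, h2⟩
    · rintro ⟨P, N, hT, _, h2 | ⟨Q, R, h2, h3, h4⟩⟩
      · exact fun z hz => absurd hz (h2 z)
      · exact (hA X).2.2 ⟨Q, R, ⟨(hB Q).1.2 ⟨P, N, hT, h3⟩, (hB R).2.2 ⟨P, N, hT, h4⟩⟩, h2⟩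

end

end Pool.Agent.H54
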