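import Pool.Agent.H54.Bridge

/-!
# Sanity check: the standard model satisfies `ModelISigma1`
-/

namespace Pool.Agent.H54.BiIso

/-- the standard structure on `ℕ` -/
@[instance_reducible] def natStr : ArithStr ℕ := { exp := fun n => 2 ^ n }

theorem natModel : @ModelISigma1 ℕ natStr := by
  let _ := natStr
  refine @ModelISigma1.mk ℕ natStr ?_ ?_ ?_ ?_ ?_ ?_ ?_ ?_ ?_ ?_ ?_
  · intro x h
    exact Nat.succ_ne_zero x h
  · intro x y h
    exact Nat.succ.inj h
  · intro x
    rfl
  · intro x y
    rfl
  · intro x
    rfl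
  · intro x y
    rfl
  · rfl
  · intro x
    exact pow_succ 2 x
  · intro x
    exact Nat.not_lt_zero x
  · intro x y
    exact Nat.lt_succ_iff_lt_or_eq
  · intro φ _ h0 hs x
    induction x with
    | zero => exact h0
    | succ x ih => exact hs x ih

theorem nat_exists : ∃ d : Set (Set ℕ), @BiIsolated ℕ natStr d :=
  @exists_biIsolated ℕ natStr natModel

end Pool.Agent.H54.BiIso
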