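import Pool.Agent.H54.Base

/-!
Strict Sigma one relations on contexts in models with Sigma one induction: collection and closure.
-/

namespace Pool.Agent.H54

universe u

/-- The working class of models of induction for strict Sigma one relations. -/
class IS1 (M : Type u) extends AS M where
  ind : ∀ θ : M × M → Prop, D0 θ → (∃ y, θ (0, y)) →
    (∀ x, (∃ y, θ (x, y)) → ∃ y, θ (x + 1, y)) → ∀ x, ∃ y, θ (x, y)

section

variable {M : Type u} [IS1 M] {Γ Δ : Type u} [Cx M Γ] [Cx M Δ]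

/-- strict Sigma one relations -/
class SN (R : Γ → Prop) : Prop where
  sn : ∃ θ : Γ × M → Prop, D0 θ ∧ ∀ γ, R γ ↔ ∃ y, θ (γ, y)

theorem SN.congr {R S : Γ → Prop} (hR : SN R) (h : ∀ γ, S γ ↔ R γ) : SN S := by
  have : S = R := funext fun γ => propext (h γ)
  rw [this]; exact hR

theorem SN.comp {R : Δ → Prop} (hR : SN R) (g : Γ → Δ) [hg : Tm g] : SN (fun γ => R (g γ)) := by
  obtain ⟨θ, h1, h2⟩ := hR.sn
  refine ⟨fun w : Γ × M => θ (g w.1, w.2), ?_, fun γ => h2 _⟩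
  have : Tm (fun w : Γ × M => g w.1) := hg.comp _
  exact h1.comp (fun w : Γ × M => (g w.1, w.2))

theorem SN.of_D0 {R : Γ → Prop} (hR : D0 R) : SN R :=
  ⟨⟨fun w => R w.1, hR.comp (fun w : Γ × M => w.1), fun γ => by simp⟩⟩

theorem le_of_lt_succ' {x y : M} (h : x < y + 1) : x ≤ y := (lt_succ x y).1 h

theorem SN.and' {R S : Γ → Prop} (hR : SN R) (hS : SN S) : SN (fun γ => R γ ∧ S γ) := by
  obtain ⟨θ, h1, h2⟩ := hR.sn
  obtain ⟨η, h3, h4⟩ := hS.sn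
  have i1 : D0 (fun w : ((Γ × M) × M) × M => θ (w.1.1.1, w.1.2)) := h1.comp _
  have i2 : D0 (fun w : ((Γ × M) × M) × M => η (w.1.1.1, w.2)) := h3.comp _
  refine ⟨fun w : Γ × M => ∃ a, a ≤ w.2 ∧ ∃ b, b ≤ w.2 ∧ (θ (w.1, a) ∧ η (w.1, b)), inferInstance, fun γ => ?_⟩
  rw [h2, h4]
  constructor
  · rintro ⟨⟨a, ha⟩, b, hb⟩
    exact ⟨max a b, a, le_max_left _ _, b, le_max_right _ _, ha, hb⟩
  · rintro ⟨y, a, _, b, _, ha, hb⟩
    exact ⟨⟨a, ha⟩, b, hb⟩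

theorem SN.or' {R S : Γ → Prop} (hR : SN R) (hS : SN S) : SN (fun γ => R γ ∨ S γ) := by
  obtain ⟨θ, h1, h2⟩ := hR.sn
  obtain ⟨η, h3, h4⟩ := hS.sn
  refine ⟨fun w : Γ × M => θ w ∨ η w, inferInstance, fun γ => ?_⟩
  rw [h2, h4]
  exact exists_or.symm

theorem SN.ex' {R : Γ × M → Prop} (hR : SN R) : SN (fun γ => ∃ x, R (γ, x)) := by
  obtain ⟨θ, h1, h2⟩ := hR.sn
  have i1 : D0 (fun w : ((Γ × M) × M) × M => θ ((w.1.1.1, w.1.2), w.2)) := h1.comp _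
  refine ⟨fun w : Γ × M => ∃ a, a ≤ w.2 ∧ ∃ b, b ≤ w.2 ∧ θ ((w.1, a), b), inferInstance, fun γ => ?_⟩
  simp only [h2]
  constructor
  · rintro ⟨a, b, h⟩
    exact ⟨max a b, a, le_max_left _ _, b, le_max_right _ _, h⟩
  · rintro ⟨y, a, _, b, _, h⟩
    exact ⟨a, b, h⟩

/-- collection, first form -/
theorem coll0 {θ : M × M → Prop} (hθ : D0 θ) (t : M) (h : ∀ x, x < t → ∃ y, θ (x, y)) :
    ∃ b, ∀ x, x < t → ∃ y, y < b ∧ θ (x, y) := by
  have i1 : D0 (fun w : ((M × M) × M) × M => θ (w.1.2, w.2)) := hθ.comp _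
  have key := IS1.ind (M := M) (fun w => w.1 ≤ t → ∀ x, x < w.1 → ∃ y, y < w.2 ∧ θ (x, y))
    inferInstance ⟨0, fun _ x hx => absurd hx (not_lt.2 zero_le)⟩ (by
      rintro z ⟨b, hb⟩
      by_cases hz : z + 1 ≤ t
      · have hzt : z < t := lt_of_lt_of_le ((lt_succ z z).2 le_rfl) hz
        obtain ⟨y0, hy0⟩ := h z hzt
        refine ⟨max b (y0 + 1), fun _ x hx => ?_⟩
        rcases (le_of_lt_succ' hx).lt_or_eq with h1 | h1
        · obtain ⟨y, hy1, hy2⟩ := hb hzt.le x h1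
          exact ⟨y, lt_of_lt_of_le hy1 (le_max_left _ _), hy2⟩
        · exact ⟨y0, lt_of_lt_of_le ((lt_succ _ _).2 le_rfl) (le_max_right _ _), h1 ▸ hy0⟩
      · exact ⟨0, fun h => absurd h hz⟩) t
  obtain ⟨b, hb⟩ := key
  exact ⟨b, hb le_rfl⟩

theorem SN.ball0 {R : Γ × M → Prop} (hR : SN R) (t : Γ → M) [ht : Tm t] :
    SN (fun γ => ∀ x, x < t γ → R (γ, x)) := by
  obtain ⟨θ, h1, h2⟩ := hR.sn
  have i0 : Tm (fun w : Γ × M => t w.1) := ht.comp _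
  have i1 : D0 (fun w : ((Γ × M) × M) × M => θ ((w.1.1.1, w.1.2), w.2)) := h1.comp _
  refine ⟨fun w : Γ × M => ∀ x, x < t w.1 → ∃ y, y < w.2 ∧ θ ((w.1, x), y), inferInstance,
    fun γ => ?_⟩
  simp only [h2]
  constructor
  · intro h
    have h1' : D0 (fun w : M × M => θ ((γ, w.1), w.2)) := h1.comp _
    exact coll0 h1' (t γ) h
  · rintro ⟨b, hb⟩ x hx
    obtain ⟨y, _, hy⟩ := hb x hx
    exact ⟨y, hy⟩

/-- functions with Sigma one graph -/
class Fn (f : Γ → M) : Prop where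
  fn : SN (fun w : Γ × M => f w.1 = w.2)

/-- Delta one relations -/
class D1 (R : Γ → Prop) : Prop where
  pos : SN R
  neg : SN (fun γ => ¬ R γ)

theorem D1.congr {R S : Γ → Prop} (hR : D1 R) (h : ∀ γ, S γ ↔ R γ) : D1 S := by
  have : S = R := funext fun γ => propext (h γ)
  rw [this]; exact hR

theorem D1.comp {R : Δ → Prop} (hR : D1 R) (g : Γ → Δ) [hg : Tm g] : D1 (fun γ => R (g γ)) :=
  ⟨hR.pos.comp g, hR.neg.comp g⟩

theorem Fn.comp {f : Δ → M} (hf : Fn f) (g : Γ → Δ) [hg : Tm g] : Fn (fun γ => f (g γ)) := by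
  have : Tm (fun w : Γ × M => g w.1) := hg.comp _
  exact ⟨hf.fn.comp (fun w : Γ × M => (g w.1, w.2))⟩

theorem D1.of_D0 {R : Γ → Prop} (hR : D0 R) : D1 R := ⟨SN.of_D0 hR, SN.of_D0 (D0.not R)⟩

instance (priority := low) SN.of_D1 (R : Γ → Prop) [hR : D1 R] : SN R := hR.pos

instance Fn.of_Tm (f : Γ → M) [hf : Tm f] : Fn f := by
  have : Tm (fun w : Γ × M => f w.1) := hf.comp _
  exact ⟨SN.of_D0 inferInstance⟩

theorem SN.subst {R : Γ × M → Prop} (hR : SN R) (f : Γ → M) [hf : Fn f] :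
    SN (fun γ => R (γ, f γ)) :=
  (SN.ex' (SN.and' hf.fn hR)).congr fun γ => by simp

theorem SN.app1 {P : M → Prop} (hP : SN P) (f : Γ → M) [hf : Fn f] : SN (fun γ => P (f γ)) := by
  have h1 : SN (fun w : Γ × M => P w.2) := hP.comp _
  exact h1.subst f

theorem SN.app2 {P : M → M → Prop} (hP : SN (fun w : M × M => P w.1 w.2)) (f g : Γ → M)
    [hf : Fn f] [hg : Fn g] : SN (fun γ => P (f γ) (g γ)) := by
  have h1 : SN (fun w : (Γ × M) × M => P w.1.2 w.2) := hP.comp (fun w : (Γ × M) × M => (w.1.2, w.2))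
  have h2 : Fn (fun w : Γ × M => g w.1) := hg.comp _
  exact SN.subst (SN.subst h1 (fun w : Γ × M => g w.1)) f

theorem SN.app3 {P : M → M → M → Prop} (hP : SN (fun w : (M × M) × M => P w.1.1 w.1.2 w.2))
    (f g h : Γ → M) [hf : Fn f] [hg : Fn g] [hh : Fn h] : SN (fun γ => P (f γ) (g γ) (h γ)) := by
  have h1 : SN (fun w : ((Γ × M) × M) × M => P w.1.1.2 w.1.2 w.2) :=
    hP.comp (fun w : ((Γ × M) × M) × M => ((w.1.1.2, w.1.2), w.2))
  have h2 : Fn (fun w : (Γ × M) × M => h w.1.1) := hh.comp _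
  have h3 : Fn (fun w : Γ × M => g w.1) := hg.comp _
  exact SN.subst (SN.subst (SN.subst h1 (fun w : (Γ × M) × M => h w.1.1))
    (fun w : Γ × M => g w.1)) f

theorem SN.app4 {P : M → M → M → M → Prop}
    (hP : SN (fun w : ((M × M) × M) × M => P w.1.1.1 w.1.1.2 w.1.2 w.2))
    (f g h k : Γ → M) [hf : Fn f] [hg : Fn g] [hh : Fn h] [hk : Fn k] :
    SN (fun γ => P (f γ) (g γ) (h γ) (k γ)) := by
  have h1 : SN (fun w : (((Γ × M) × M) × M) × M => P w.1.1.1.2 w.1.1.2 w.1.2 w.2) :=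
    hP.comp (fun w : (((Γ × M) × M) × M) × M => (((w.1.1.1.2, w.1.1.2), w.1.2), w.2))
  have h2 : Fn (fun w : ((Γ × M) × M) × M => k w.1.1.1) := hk.comp _
  have h3 : Fn (fun w : (Γ × M) × M => h w.1.1) := hh.comp _
  have h4 : Fn (fun w : Γ × M => g w.1) := hg.comp _
  exact SN.subst (SN.subst (SN.subst (SN.subst h1 (fun w : ((Γ × M) × M) × M => k w.1.1.1))
    (fun w : (Γ × M) × M => h w.1.1)) (fun w : Γ × M => g w.1)) f

theorem SN.app5 {P : M → M → M → M → M → Prop}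
    (hP : SN (fun w : (((M × M) × M) × M) × M => P w.1.1.1.1 w.1.1.1.2 w.1.1.2 w.1.2 w.2))
    (f g h k l : Γ → M) [hf : Fn f] [hg : Fn g] [hh : Fn h] [hk : Fn k] [hl : Fn l] :
    SN (fun γ => P (f γ) (g γ) (h γ) (k γ) (l γ)) := by
  have h1 : SN (fun w : ((((Γ × M) × M) × M) × M) × M => P w.1.1.1.1.2 w.1.1.1.2 w.1.1.2 w.1.2 w.2) :=
    hP.comp (fun w : ((((Γ × M) × M) × M) × M) × M => ((((w.1.1.1.1.2, w.1.1.1.2), w.1.1.2), w.1.2), w.2))
  have h2 : Fn (fun w : (((Γ × M) × M) × M) × M => l w.1.1.1.1) := hl.comp _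
  have h3 : Fn (fun w : ((Γ × M) × M) × M => k w.1.1.1) := hk.comp _
  have h4 : Fn (fun w : (Γ × M) × M => h w.1.1) := hh.comp _
  have h5 : Fn (fun w : Γ × M => g w.1) := hg.comp _
  exact SN.subst (SN.subst (SN.subst (SN.subst (SN.subst h1
    (fun w : (((Γ × M) × M) × M) × M => l w.1.1.1.1))
    (fun w : ((Γ × M) × M) × M => k w.1.1.1))
    (fun w : (Γ × M) × M => h w.1.1)) (fun w : Γ × M => g w.1)) f

theorem D1.app1 {P : M → Prop} (hP : D1 P) (f : Γ → M) [hf : Fn f] : D1 (fun γ => P (f γ)) :=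
  ⟨hP.pos.app1 f, hP.neg.app1 f⟩

theorem D1.app2 {P : M → M → Prop} (hP : D1 (fun w : M × M => P w.1 w.2)) (f g : Γ → M)
    [hf : Fn f] [hg : Fn g] : D1 (fun γ => P (f γ) (g γ)) :=
  ⟨hP.pos.app2 f g, SN.app2 (P := fun a b => ¬ P a b) hP.neg f g⟩

theorem D1.app3 {P : M → M → M → Prop} (hP : D1 (fun w : (M × M) × M => P w.1.1 w.1.2 w.2))
    (f g h : Γ → M) [hf : Fn f] [hg : Fn g] [hh : Fn h] : D1 (fun γ => P (f γ) (g γ) (h γ)) :=
  ⟨hP.pos.app3 f g h, SN.app3 (P := fun a b c => ¬ P a b c) hP.neg f g h⟩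

theorem D1.app4 {P : M → M → M → M → Prop}
    (hP : D1 (fun w : ((M × M) × M) × M => P w.1.1.1 w.1.1.2 w.1.2 w.2))
    (f g h k : Γ → M) [hf : Fn f] [hg : Fn g] [hh : Fn h] [hk : Fn k] :
    D1 (fun γ => P (f γ) (g γ) (h γ) (k γ)) :=
  ⟨hP.pos.app4 f g h k, SN.app4 (P := fun a b c d => ¬ P a b c d) hP.neg f g h k⟩

theorem D1.app5 {P : M → M → M → M → M → Prop}
    (hP : D1 (fun w : (((M × M) × M) × M) × M => P w.1.1.1.1 w.1.1.1.2 w.1.1.2 w.1.2 w.2))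
    (f g h k l : Γ → M) [hf : Fn f] [hg : Fn g] [hh : Fn h] [hk : Fn k] [hl : Fn l] :
    D1 (fun γ => P (f γ) (g γ) (h γ) (k γ) (l γ)) :=
  ⟨hP.pos.app5 f g h k l, SN.app5 (P := fun a b c d e => ¬ P a b c d e) hP.neg f g h k l⟩

theorem Fn.app1 {F : M → M} (hF : Fn F) (f : Γ → M) [hf : Fn f] : Fn (fun γ => F (f γ)) := by
  have h1 : Fn (fun w : Γ × M => f w.1) := hf.comp _
  exact ⟨SN.app2 (P := fun a b => F a = b) hF.fn (fun w : Γ × M => f w.1) (fun w => w.2)⟩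

theorem Fn.app2 {F : M → M → M} (hF : Fn (fun w : M × M => F w.1 w.2)) (f g : Γ → M) [hf : Fn f]
    [hg : Fn g] : Fn (fun γ => F (f γ) (g γ)) := by
  have h1 : Fn (fun w : Γ × M => f w.1) := hf.comp _
  have h2 : Fn (fun w : Γ × M => g w.1) := hg.comp _
  exact ⟨SN.app3 (P := fun a b c => F a b = c) hF.fn (fun w : Γ × M => f w.1)
    (fun w : Γ × M => g w.1) (fun w => w.2)⟩

theorem Fn.app3 {F : M → M → M → M} (hF : Fn (fun w : (M × M) × M => F w.1.1 w.1.2 w.2))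
    (f g h : Γ → M) [hf : Fn f] [hg : Fn g] [hh : Fn h] : Fn (fun γ => F (f γ) (g γ) (h γ)) := by
  have h1 : Fn (fun w : Γ × M => f w.1) := hf.comp _
  have h2 : Fn (fun w : Γ × M => g w.1) := hg.comp _
  have h3 : Fn (fun w : Γ × M => h w.1) := hh.comp _
  exact ⟨SN.app4 (P := fun a b c d => F a b c = d) hF.fn (fun w : Γ × M => f w.1)
    (fun w : Γ × M => g w.1) (fun w : Γ × M => h w.1) (fun w => w.2)⟩

instance Fn.add (f g : Γ → M) [hf : Fn f] [hg : Fn g] : Fn (fun γ => f γ + g γ) :=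
  Fn.app2 (F := fun a b => a + b) inferInstance f g
instance Fn.mul (f g : Γ → M) [hf : Fn f] [hg : Fn g] : Fn (fun γ => f γ * g γ) :=
  Fn.app2 (F := fun a b => a * b) inferInstance f g
instance Tm.ex2 : Tm (AS.ex2 : M → M) := Tm.exp (fun x : M => x)
instance Fn.exp (f : Γ → M) [hf : Fn f] : Fn (fun γ => ex2 (f γ)) :=
  Fn.app1 (F := fun a => ex2 a) inferInstance f

instance D1.eq (f g : Γ → M) [hf : Fn f] [hg : Fn g] : D1 (fun γ => f γ = g γ) :=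
  D1.app2 (P := fun a b => a = b) (D1.of_D0 inferInstance) f g
instance D1.lt (f g : Γ → M) [hf : Fn f] [hg : Fn g] : D1 (fun γ => f γ < g γ) :=
  D1.app2 (P := fun a b => a < b) (D1.of_D0 inferInstance) f g
instance D1.le (f g : Γ → M) [hf : Fn f] [hg : Fn g] : D1 (fun γ => f γ ≤ g γ) :=
  D1.app2 (P := fun a b => a ≤ b) (D1.of_D0 inferInstance) f g

instance D1.bot : D1 (fun _ : Γ => False) := D1.of_D0 inferInstance
instance D1.top : D1 (fun _ : Γ => True) := D1.of_D0 inferInstance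
theorem D1.constP (p : Prop) : D1 (fun _ : Γ => p) := D1.of_D0 (D0.constP p)

instance SN.and (R S : Γ → Prop) [hR : SN R] [hS : SN S] : SN (fun γ => R γ ∧ S γ) := hR.and' hS
instance SN.or (R S : Γ → Prop) [hR : SN R] [hS : SN S] : SN (fun γ => R γ ∨ S γ) := hR.or' hS
instance SN.imp (R S : Γ → Prop) [hR : D1 R] [hS : SN S] : SN (fun γ => R γ → S γ) :=
  (hR.neg.or' hS).congr fun γ => by tauto

instance D1.not (R : Γ → Prop) [hR : D1 R] : D1 (fun γ => ¬ R γ) :=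
  ⟨hR.neg, hR.pos.congr fun γ => by simp⟩
instance D1.and (R S : Γ → Prop) [hR : D1 R] [hS : D1 S] : D1 (fun γ => R γ ∧ S γ) :=
  ⟨hR.pos.and' hS.pos, (hR.neg.or' hS.neg).congr fun γ => by tauto⟩
instance D1.or (R S : Γ → Prop) [hR : D1 R] [hS : D1 S] : D1 (fun γ => R γ ∨ S γ) :=
  ⟨hR.pos.or' hS.pos, (hR.neg.and' hS.neg).congr fun γ => by tauto⟩
instance D1.imp (R S : Γ → Prop) [hR : D1 R] [hS : D1 S] : D1 (fun γ => R γ → S γ) :=
  ⟨(hR.neg.or' hS.pos).congr fun γ => by tauto, (hR.pos.and' hS.neg).congr fun γ => by tauto⟩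
instance D1.iff (R S : Γ → Prop) [hR : D1 R] [hS : D1 S] : D1 (fun γ => R γ ↔ S γ) :=
  (D1.and (fun γ => R γ → S γ) (fun γ => S γ → R γ)).congr fun γ => by tauto

instance SN.ex (R : Γ → M → Prop) [hR : SN (fun w : Γ × M => R w.1 w.2)] :
    SN (fun γ => ∃ x, R γ x) := SN.ex' hR

instance SN.ball (t : Γ → M) (R : Γ → M → Prop) [ht : Fn t]
    [hR : SN (fun w : Γ × M => R w.1 w.2)] : SN (fun γ => ∀ x, x < t γ → R γ x) := by
  have h1 : SN (fun w : Γ × M => ∀ x, x < w.2 → R w.1 x) := by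
    have h2 : SN (fun w : (Γ × M) × M => R w.1.1 w.2) := hR.comp (fun w : (Γ × M) × M => (w.1.1, w.2))
    exact SN.ball0 h2 (fun w : Γ × M => w.2)
  exact h1.subst t

instance SN.ball_le (t : Γ → M) (R : Γ → M → Prop) [ht : Fn t]
    [hR : SN (fun w : Γ × M => R w.1 w.2)] : SN (fun γ => ∀ x, x ≤ t γ → R γ x) := by
  have h1 : Fn (fun γ => t γ + 1) := Fn.add t (fun _ => 1)
  exact (SN.ball (fun γ => t γ + 1) R).congr fun γ => by simp only [lt_succ]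

instance D1.ball (t : Γ → M) (R : Γ → M → Prop) [ht : Fn t]
    [hR : D1 (fun w : Γ × M => R w.1 w.2)] : D1 (fun γ => ∀ x, x < t γ → R γ x) := by
  refine ⟨inferInstance, ?_⟩
  have h1 : SN (fun w : Γ × M => ¬ R w.1 w.2) := hR.neg
  have h2 : SN (fun γ => ∃ x, x < t γ ∧ ¬ R γ x) := by
    have h3 : Fn (fun w : Γ × M => t w.1) := ht.comp _
    infer_instance
  exact h2.congr fun γ => by push Not; rfl

instance D1.bex (t : Γ → M) (R : Γ → M → Prop) [ht : Fn t]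
    [hR : D1 (fun w : Γ × M => R w.1 w.2)] : D1 (fun γ => ∃ x, x < t γ ∧ R γ x) :=
  (D1.not (fun γ => ∀ x, x < t γ → ¬ R γ x)).congr fun γ => by push Not; rfl

instance D1.ball_le (t : Γ → M) (R : Γ → M → Prop) [ht : Fn t]
    [hR : D1 (fun w : Γ × M => R w.1 w.2)] : D1 (fun γ => ∀ x, x ≤ t γ → R γ x) := by
  have h1 : Fn (fun γ => t γ + 1) := Fn.add t (fun _ => 1)
  exact (D1.ball (fun γ => t γ + 1) R).congr fun γ => by simp only [lt_succ]

instance D1.bex_le (t : Γ → M) (R : Γ → M → Prop) [ht : Fn t]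
    [hR : D1 (fun w : Γ × M => R w.1 w.2)] : D1 (fun γ => ∃ x, x ≤ t γ ∧ R γ x) := by
  have h1 : Fn (fun γ => t γ + 1) := Fn.add t (fun _ => 1)
  exact (D1.bex (fun γ => t γ + 1) R).congr fun γ => by simp only [lt_succ]

end

end Pool.Agent.H54
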