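import Pool.Agent.H54.Pair

/-!
A universal Sigma one relation.
-/

set_option synthInstance.maxSize 100000

namespace Pool.Agent.H54

universe u

section

variable {M : Type u} [IS1 M] {Γ Δ : Type u} [Cx M Γ] [Cx M Δ]

/-- formula facts -/
def ff (c v : M) : M := pr 0 (pr c v)

/-- term facts -/
def tf (t v x : M) : M := pr 1 (pr t (pr v x))

theorem Mem_ex2 {x z : M} : Mem z (ex2 x) ↔ z = x := by
  have := Mem_set (not_Mem_zero x) z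
  rw [zero_add] at this
  rw [this]
  simp [not_Mem_zero]

theorem exists_union (a b : M) : ∃ c, ∀ z, Mem z c ↔ Mem z a ∨ Mem z b := by
  obtain ⟨c, _, hc⟩ := compr_D1 (fun z : M => Mem z a ∨ Mem z b) (a + b)
  refine ⟨c, fun z => ?_⟩
  rw [hc]
  refine ⟨fun h => h.2, fun h => ⟨?_, h⟩⟩
  rcases h with h | h
  · exact lt_of_lt_of_le h.lt le_self_add
  · exact lt_of_lt_of_le h.lt le_add_self

theorem exists_insert (a x : M) : ∃ c, ∀ z, Mem z c ↔ Mem z a ∨ z = x := by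
  obtain ⟨c, hc⟩ := exists_union a (ex2 x)
  exact ⟨c, fun z => by rw [hc, Mem_ex2]⟩

/-- justification of term facts -/
def JT (T t v x : M) : Prop :=
  (t = pr 0 0 ∧ ∃ u, v = pr u x) ∨
  (∃ t' u y, t = pr 1 t' ∧ v = pr u y ∧ Mem (tf t' u x) T) ∨
  (t = pr 2 x) ∨
  (∃ a b y z, t = pr 3 (pr a b) ∧ Mem (tf a v y) T ∧ Mem (tf b v z) T ∧ x = y + z) ∨
  (∃ a b y z, t = pr 4 (pr a b) ∧ Mem (tf a v y) T ∧ Mem (tf b v z) T ∧ x = y * z) ∨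
  (∃ a y, t = pr 5 a ∧ Mem (tf a v y) T ∧ x = ex2 y)

/-- justification of formula facts -/
def JF (T c v : M) : Prop :=
  (∃ a b y, c = pr 0 (pr a b) ∧ Mem (tf a v y) T ∧ Mem (tf b v y) T) ∨
  (∃ a b y z, c = pr 1 (pr a b) ∧ Mem (tf a v y) T ∧ Mem (tf b v z) T ∧ y < z) ∨
  (∃ a b, c = pr 2 (pr a b) ∧ (Mem (ff a v) T ∨ Mem (ff b v) T)) ∨
  (∃ a b, c = pr 3 (pr a b) ∧ (Mem (ff a v) T ∧ Mem (ff b v) T)) ∨
  (∃ a b y, c = pr 4 (pr a b) ∧ Mem (tf a v y) T ∧ ∀ x, x < y → Mem (ff b (pr v x)) T) ∨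
  (∃ b x, c = pr 5 b ∧ Mem (ff b (pr v x)) T)

/-- justification of facts -/
def J (T f : M) : Prop :=
  (∃ c v, f = ff c v ∧ JF T c v) ∨ (∃ t v x, f = tf t v x ∧ JT T t v x)

/-- supported sets of facts -/
def Supp (T : M) : Prop := ∀ f, f < T → (Mem f T → J T f)

/-- derivable facts -/
def Der (f : M) : Prop := ∃ T, Supp T ∧ Mem f T

instance Fn.ff (f g : Γ → M) [hf : Fn f] [hg : Fn g] : Fn (fun γ => ff (f γ) (g γ)) := by
  unfold H54.ff; infer_instance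

instance Fn.tf (f g h : Γ → M) [hf : Fn f] [hg : Fn g] [hh : Fn h] :
    Fn (fun γ => tf (f γ) (g γ) (h γ)) := by
  unfold H54.tf; infer_instance


theorem SN_JT : SN (fun w : ((M × M) × M) × M => JT w.1.1.1 w.1.1.2 w.1.2 w.2) := by
  unfold JT
  infer_instance

theorem SN_JF : SN (fun w : (M × M) × M => JF w.1.1 w.1.2 w.2) := by
  unfold JF
  infer_instance

instance (f g h : Γ → M) [hf : Fn f] [hg : Fn g] [hh : Fn h] :
    SN (fun γ => JF (f γ) (g γ) (h γ)) := SN_JF.app3 f g h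

instance (f g h k : Γ → M) [hf : Fn f] [hg : Fn g] [hh : Fn h] [hk : Fn k] :
    SN (fun γ => JT (f γ) (g γ) (h γ) (k γ)) := SN_JT.app4 f g h k

theorem SN_J : SN (fun w : M × M => J w.1 w.2) := by
  unfold J
  infer_instance

instance (f g : Γ → M) [hf : Fn f] [hg : Fn g] : SN (fun γ => J (f γ) (g γ)) := SN_J.app2 f g

theorem SN_Supp : SN (fun w : M × M => Supp w.2) := by
  unfold Supp
  infer_instance

instance (f : Γ → M) [hf : Fn f] : SN (fun γ => Supp (f γ)) := (SN.of1 SN_Supp).app1 f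

theorem SN_Der : SN (fun w : M × M => Der w.2) := by
  unfold Der
  infer_instance

instance (f : Γ → M) [hf : Fn f] : SN (fun γ => Der (f γ)) := (SN.of1 SN_Der).app1 f

theorem JT.mono {T T' t v x : M} (h : JT T t v x) (hT : ∀ z, Mem z T → Mem z T') : JT T' t v x := by
  rcases h with h | ⟨t', u, y, h1, h2, h3⟩ | h | ⟨a, b, y, z, h1, h2, h3, h4⟩ |
    ⟨a, b, y, z, h1, h2, h3, h4⟩ | ⟨a, y, h1, h2, h3⟩
  · exact Or.inl h
  · exact Or.inr (Or.inl ⟨t', u, y, h1, h2, hT _ h3⟩)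
  · exact Or.inr (Or.inr (Or.inl h))
  · exact Or.inr (Or.inr (Or.inr (Or.inl ⟨a, b, y, z, h1, hT _ h2, hT _ h3, h4⟩)))
  · exact Or.inr (Or.inr (Or.inr (Or.inr (Or.inl ⟨a, b, y, z, h1, hT _ h2, hT _ h3, h4⟩))))
  · exact Or.inr (Or.inr (Or.inr (Or.inr (Or.inr ⟨a, y, h1, hT _ h2, h3⟩))))

theorem JF.mono {T T' c v : M} (h : JF T c v) (hT : ∀ z, Mem z T → Mem z T') : JF T' c v := by
  rcases h with ⟨a, b, y, h1, h2, h3⟩ | ⟨a, b, y, z, h1, h2, h3, h4⟩ | ⟨a, b, h1, h2⟩ |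
    ⟨a, b, h1, h2, h3⟩ | ⟨a, b, y, h1, h2, h3⟩ | ⟨b, x, h1, h2⟩
  · exact Or.inl ⟨a, b, y, h1, hT _ h2, hT _ h3⟩
  · exact Or.inr (Or.inl ⟨a, b, y, z, h1, hT _ h2, hT _ h3, h4⟩)
  · exact Or.inr (Or.inr (Or.inl ⟨a, b, h1, h2.imp (hT _) (hT _)⟩))
  · exact Or.inr (Or.inr (Or.inr (Or.inl ⟨a, b, h1, hT _ h2, hT _ h3⟩)))
  · exact Or.inr (Or.inr (Or.inr (Or.inr (Or.inl ⟨a, b, y, h1, hT _ h2, fun x hx => hT _ (h3 x hx)⟩))))
  · exact Or.inr (Or.inr (Or.inr (Or.inr (Or.inr ⟨b, x, h1, hT _ h2⟩))))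

theorem J.mono {T T' f : M} (h : J T f) (hT : ∀ z, Mem z T → Mem z T') : J T' f := by
  rcases h with ⟨c, v, h1, h2⟩ | ⟨t, v, x, h1, h2⟩
  · exact Or.inl ⟨c, v, h1, h2.mono hT⟩
  · exact Or.inr ⟨t, v, x, h1, h2.mono hT⟩

theorem Supp.insert {T f : M} (h : Supp T) (hf : J T f) :
    ∃ T', Supp T' ∧ ∀ z, Mem z T' ↔ Mem z T ∨ z = f := by
  obtain ⟨T', hT'⟩ := exists_insert T f
  refine ⟨T', fun z _ hz => ?_, hT'⟩
  rcases (hT' z).1 hz with hz | rfl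
  · exact (h z hz.lt hz).mono fun y hy => (hT' y).2 (Or.inl hy)
  · exact hf.mono fun y hy => (hT' y).2 (Or.inl hy)

theorem Supp.union {T1 T2 : M} (h1 : Supp T1) (h2 : Supp T2) :
    ∃ T, Supp T ∧ ∀ z, Mem z T ↔ Mem z T1 ∨ Mem z T2 := by
  obtain ⟨T, hT⟩ := exists_union T1 T2
  refine ⟨T, fun z _ hz => ?_, hT⟩
  rcases (hT z).1 hz with hz | hz
  · exact (h1 z hz.lt hz).mono fun y hy => (hT y).2 (Or.inl hy)
  · exact (h2 z hz.lt hz).mono fun y hy => (hT y).2 (Or.inr hy)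

theorem Supp.zero : Supp (0 : M) := fun _ hf _ => absurd hf not_lt_zero

theorem der_iff {f : M} : Der f ↔ ∃ T, Supp T ∧ J T f := by
  constructor
  · rintro ⟨T, h1, h2⟩
    exact ⟨T, h1, h1 f h2.lt h2⟩
  · rintro ⟨T, h1, h2⟩
    obtain ⟨T', h3, h4⟩ := h1.insert h2
    exact ⟨T', h3, (h4 f).2 (Or.inr rfl)⟩

theorem J_tf {T t v x : M} : J T (tf t v x) ↔ JT T t v x := by
  constructor
  · rintro (⟨c, v', h1, h2⟩ | ⟨t', v', x', h1, h2⟩)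
    · simp [tf, ff, pr_inj] at h1
    · simp only [tf, pr_inj] at h1
      obtain ⟨_, rfl, rfl, rfl⟩ := h1
      exact h2
  · exact fun h => Or.inr ⟨t, v, x, rfl, h⟩

theorem J_ff {T c v : M} : J T (ff c v) ↔ JF T c v := by
  constructor
  · rintro (⟨c, v', h1, h2⟩ | ⟨t', v', x', h1, h2⟩)
    · simp only [ff, pr_inj] at h1
      obtain ⟨_, rfl, rfl⟩ := h1
      exact h2
    · simp [tf, ff, pr_inj] at h1
  · exact fun h => Or.inl ⟨c, v, rfl, h⟩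

theorem der_here {u y x : M} : Der (tf (pr 0 0) (pr u y) x) ↔ x = y := by
  rw [der_iff]
  simp only [J_tf]
  constructor
  · rintro ⟨T, hT, h | ⟨t', u', y', h1, h2, h3⟩ | h | ⟨a, b, y', z, h1, h2, h3, h4⟩ |
      ⟨a, b, y', z, h1, h2, h3, h4⟩ | ⟨a, y', h1, h2, h3⟩⟩
    · obtain ⟨_, u', h⟩ := h
      exact (pr_inj.1 h).2.symm
    all_goals simp [pr_inj] at *
  · rintro rfl
    exact ⟨0, Supp.zero, Or.inl ⟨rfl, u, rfl⟩⟩

theorem der_up {t u y x : M} : Der (tf (pr 1 t) (pr u y) x) ↔ Der (tf t u x) := by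
  rw [der_iff]
  simp only [J_tf]
  constructor
  · rintro ⟨T, hT, h | ⟨t', u', y', h1, h2, h3⟩ | h | ⟨a, b, y', z, h1, h2, h3, h4⟩ |
      ⟨a, b, y', z, h1, h2, h3, h4⟩ | ⟨a, y', h1, h2, h3⟩⟩
    · simp [pr_inj] at h
    · simp only [pr_inj] at h1 h2
      obtain ⟨_, rfl⟩ := h1
      obtain ⟨rfl, rfl⟩ := h2
      exact ⟨T, hT, h3⟩
    all_goals simp [pr_inj] at *
  · rintro ⟨T, hT, h⟩
    exact ⟨T, hT, Or.inr (Or.inl ⟨t, u, y, rfl, rfl, h⟩)⟩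

theorem der_const {a v x : M} : Der (tf (pr 2 a) v x) ↔ x = a := by
  rw [der_iff]
  simp only [J_tf]
  constructor
  · rintro ⟨T, hT, h | ⟨t', u', y', h1, h2, h3⟩ | h | ⟨a, b, y', z, h1, h2, h3, h4⟩ |
      ⟨a, b, y', z, h1, h2, h3, h4⟩ | ⟨a, y', h1, h2, h3⟩⟩
    · simp [pr_inj] at h
    · simp [pr_inj] at h1
    · exact (pr_inj.1 h).2.symm
    all_goals simp [pr_inj] at *
  · rintro rfl
    exact ⟨0, Supp.zero, Or.inr (Or.inr (Or.inl rfl))⟩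

theorem der_add {a b v x : M} : Der (tf (pr 3 (pr a b)) v x) ↔
    ∃ y z, Der (tf a v y) ∧ Der (tf b v z) ∧ x = y + z := by
  rw [der_iff]
  simp only [J_tf]
  constructor
  · rintro ⟨T, hT, h | ⟨t', u', y', h1, h2, h3⟩ | h | ⟨a', b', y', z, h1, h2, h3, h4⟩ |
      ⟨a', b', y', z, h1, h2, h3, h4⟩ | ⟨a', y', h1, h2, h3⟩⟩
    · simp [pr_inj] at h
    · simp [pr_inj] at h1
    · simp [pr_inj] at h
    · simp only [pr_inj] at h1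
      obtain ⟨_, rfl, rfl⟩ := h1
      exact ⟨y', z, ⟨T, hT, h2⟩, ⟨T, hT, h3⟩, h4⟩
    all_goals simp [pr_inj] at *
  · rintro ⟨y, z, ⟨T1, h1, h2⟩, ⟨T2, h3, h4⟩, rfl⟩
    obtain ⟨T, h5, h6⟩ := h1.union h3
    exact ⟨T, h5, Or.inr (Or.inr (Or.inr (Or.inl ⟨a, b, y, z, rfl, (h6 _).2 (Or.inl h2),
      (h6 _).2 (Or.inr h4), rfl⟩)))⟩

theorem der_mul {a b v x : M} : Der (tf (pr 4 (pr a b)) v x) ↔
    ∃ y z, Der (tf a v y) ∧ Der (tf b v z) ∧ x = y * z := by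
  rw [der_iff]
  simp only [J_tf]
  constructor
  · rintro ⟨T, hT, h | ⟨t', u', y', h1, h2, h3⟩ | h | ⟨a', b', y', z, h1, h2, h3, h4⟩ |
      ⟨a', b', y', z, h1, h2, h3, h4⟩ | ⟨a', y', h1, h2, h3⟩⟩
    · simp [pr_inj] at h
    · simp [pr_inj] at h1
    · simp [pr_inj] at h
    · simp [pr_inj] at h1
    · simp only [pr_inj] at h1
      obtain ⟨_, rfl, rfl⟩ := h1
      exact ⟨y', z, ⟨T, hT, h2⟩, ⟨T, hT, h3⟩, h4⟩
    all_goals simp [pr_inj] at *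
  · rintro ⟨y, z, ⟨T1, h1, h2⟩, ⟨T2, h3, h4⟩, rfl⟩
    obtain ⟨T, h5, h6⟩ := h1.union h3
    exact ⟨T, h5, Or.inr (Or.inr (Or.inr (Or.inr (Or.inl ⟨a, b, y, z, rfl, (h6 _).2 (Or.inl h2),
      (h6 _).2 (Or.inr h4), rfl⟩))))⟩

theorem der_exp {a v x : M} : Der (tf (pr 5 a) v x) ↔ ∃ y, Der (tf a v y) ∧ x = ex2 y := by
  rw [der_iff]
  simp only [J_tf]
  constructor
  · rintro ⟨T, hT, h | ⟨t', u', y', h1, h2, h3⟩ | h | ⟨a', b', y', z, h1, h2, h3, h4⟩ |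
      ⟨a', b', y', z, h1, h2, h3, h4⟩ | ⟨a', y', h1, h2, h3⟩⟩
    · simp [pr_inj] at h
    · simp [pr_inj] at h1
    · simp [pr_inj] at h
    · simp [pr_inj] at h1
    · simp [pr_inj] at h1
    · simp only [pr_inj] at h1
      obtain ⟨_, rfl⟩ := h1
      exact ⟨y', ⟨T, hT, h2⟩, h3⟩
  · rintro ⟨y, ⟨T, h1, h2⟩, rfl⟩
    exact ⟨T, h1, Or.inr (Or.inr (Or.inr (Or.inr (Or.inr ⟨a, y, rfl, h2, rfl⟩))))⟩

theorem der_eq {a b v : M} : Der (ff (pr 0 (pr a b)) v) ↔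
    ∃ y, Der (tf a v y) ∧ Der (tf b v y) := by
  rw [der_iff]
  simp only [J_ff]
  constructor
  · rintro ⟨T, hT, ⟨a', b', y, h1, h2, h3⟩ | ⟨a, b, y, z, h1, h2, h3, h4⟩ | ⟨a, b, h1, h2⟩ |
      ⟨a, b, h1, h2, h3⟩ | ⟨a, b, y, h1, h2, h3⟩ | ⟨b, x, h1, h2⟩⟩
    · simp only [pr_inj] at h1
      obtain ⟨_, rfl, rfl⟩ := h1
      exact ⟨y, ⟨T, hT, h2⟩, ⟨T, hT, h3⟩⟩
    all_goals simp [pr_inj] at h1
  · rintro ⟨y, ⟨T1, h1, h2⟩, ⟨T2, h3, h4⟩⟩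
    obtain ⟨T, h5, h6⟩ := h1.union h3
    exact ⟨T, h5, Or.inl ⟨a, b, y, rfl, (h6 _).2 (Or.inl h2), (h6 _).2 (Or.inr h4)⟩⟩

theorem der_lt {a b v : M} : Der (ff (pr 1 (pr a b)) v) ↔
    ∃ y z, Der (tf a v y) ∧ Der (tf b v z) ∧ y < z := by
  rw [der_iff]
  simp only [J_ff]
  constructor
  · rintro ⟨T, hT, ⟨a', b', y, h1, h2, h3⟩ | ⟨a', b', y, z, h1, h2, h3, h4⟩ | ⟨a, b, h1, h2⟩ |
      ⟨a, b, h1, h2, h3⟩ | ⟨a, b, y, h1, h2, h3⟩ | ⟨b, x, h1, h2⟩⟩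
    · simp [pr_inj] at h1
    · simp only [pr_inj] at h1
      obtain ⟨_, rfl, rfl⟩ := h1
      exact ⟨y, z, ⟨T, hT, h2⟩, ⟨T, hT, h3⟩, h4⟩
    all_goals simp [pr_inj] at h1
  · rintro ⟨y, z, ⟨T1, h1, h2⟩, ⟨T2, h3, h4⟩, hlt⟩
    obtain ⟨T, h5, h6⟩ := h1.union h3
    exact ⟨T, h5, Or.inr (Or.inl ⟨a, b, y, z, rfl, (h6 _).2 (Or.inl h2), (h6 _).2 (Or.inr h4), hlt⟩)⟩

theorem der_or {a b v : M} : Der (ff (pr 2 (pr a b)) v) ↔ Der (ff a v) ∨ Der (ff b v) := by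
  rw [der_iff]
  simp only [J_ff]
  constructor
  · rintro ⟨T, hT, ⟨a', b', y, h1, h2, h3⟩ | ⟨a', b', y, z, h1, h2, h3, h4⟩ | ⟨a', b', h1, h2⟩ |
      ⟨a, b, h1, h2, h3⟩ | ⟨a, b, y, h1, h2, h3⟩ | ⟨b, x, h1, h2⟩⟩
    · simp [pr_inj] at h1
    · simp [pr_inj] at h1
    · simp only [pr_inj] at h1
      obtain ⟨_, rfl, rfl⟩ := h1
      exact h2.imp (fun h => ⟨T, hT, h⟩) (fun h => ⟨T, hT, h⟩)
    all_goals simp [pr_inj] at h1
  · rintro (⟨T, h1, h2⟩ | ⟨T, h1, h2⟩)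
    · exact ⟨T, h1, Or.inr (Or.inr (Or.inl ⟨a, b, rfl, Or.inl h2⟩))⟩
    · exact ⟨T, h1, Or.inr (Or.inr (Or.inl ⟨a, b, rfl, Or.inr h2⟩))⟩

theorem der_and {a b v : M} : Der (ff (pr 3 (pr a b)) v) ↔ Der (ff a v) ∧ Der (ff b v) := by
  rw [der_iff]
  simp only [J_ff]
  constructor
  · rintro ⟨T, hT, ⟨a', b', y, h1, h2, h3⟩ | ⟨a', b', y, z, h1, h2, h3, h4⟩ | ⟨a', b', h1, h2⟩ |
      ⟨a', b', h1, h2, h3⟩ | ⟨a, b, y, h1, h2, h3⟩ | ⟨b, x, h1, h2⟩⟩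
    · simp [pr_inj] at h1
    · simp [pr_inj] at h1
    · simp [pr_inj] at h1
    · simp only [pr_inj] at h1
      obtain ⟨_, rfl, rfl⟩ := h1
      exact ⟨⟨T, hT, h2⟩, ⟨T, hT, h3⟩⟩
    all_goals simp [pr_inj] at h1
  · rintro ⟨⟨T1, h1, h2⟩, ⟨T2, h3, h4⟩⟩
    obtain ⟨T, h5, h6⟩ := h1.union h3
    exact ⟨T, h5, Or.inr (Or.inr (Or.inr (Or.inl ⟨a, b, rfl, (h6 _).2 (Or.inl h2),
      (h6 _).2 (Or.inr h4)⟩)))⟩

theorem der_ball {a b v : M} : Der (ff (pr 4 (pr a b)) v) ↔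
    ∃ y, Der (tf a v y) ∧ ∀ x, x < y → Der (ff b (pr v x)) := by
  rw [der_iff]
  simp only [J_ff]
  constructor
  · rintro ⟨T, hT, ⟨a', b', y, h1, h2, h3⟩ | ⟨a', b', y, z, h1, h2, h3, h4⟩ | ⟨a', b', h1, h2⟩ |
      ⟨a', b', h1, h2, h3⟩ | ⟨a', b', y, h1, h2, h3⟩ | ⟨b, x, h1, h2⟩⟩
    · simp [pr_inj] at h1
    · simp [pr_inj] at h1
    · simp [pr_inj] at h1
    · simp [pr_inj] at h1
    · simp only [pr_inj] at h1
      obtain ⟨_, rfl, rfl⟩ := h1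
      exact ⟨y, ⟨T, hT, h2⟩, fun x hx => ⟨T, hT, h3 x hx⟩⟩
    · simp [pr_inj] at h1
  · rintro ⟨y, ⟨T1, h1, h2⟩, h⟩
    obtain ⟨B, hB⟩ := coll_SN (fun x T => Supp T ∧ Mem (ff b (pr v x)) T) y (fun x hx => h x hx)
    obtain ⟨T, _, hT⟩ := compr_SN (fun f => ∃ T', T' < B ∧ Supp T' ∧ Mem f T') B
    have hTS : Supp T := by
      intro f _ hf
      obtain ⟨_, T', h3, h4, h5⟩ := (hT f).1 hf
      refine (h4 f h5.lt h5).mono fun z hz => (hT z).2 ⟨hz.lt.trans h3, T', h3, h4, hz⟩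
    obtain ⟨T2, h5, h6⟩ := h1.union hTS
    refine ⟨T2, h5, Or.inr (Or.inr (Or.inr (Or.inr (Or.inl ⟨a, b, y, rfl, (h6 _).2 (Or.inl h2),
      fun x hx => (h6 _).2 (Or.inr ?_)⟩))))⟩
    obtain ⟨T', h7, h8, h9⟩ := hB x hx
    exact (hT _).2 ⟨h9.lt.trans h7, T', h7, h8, h9⟩

theorem der_ex {b v : M} : Der (ff (pr 5 b) v) ↔ ∃ x, Der (ff b (pr v x)) := by
  rw [der_iff]
  simp only [J_ff]
  constructor
  · rintro ⟨T, hT, ⟨a', b', y, h1, h2, h3⟩ | ⟨a', b', y, z, h1, h2, h3, h4⟩ | ⟨a', b', h1, h2⟩ |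
      ⟨a', b', h1, h2, h3⟩ | ⟨a', b', y, h1, h2, h3⟩ | ⟨b, x, h1, h2⟩⟩
    · simp [pr_inj] at h1
    · simp [pr_inj] at h1
    · simp [pr_inj] at h1
    · simp [pr_inj] at h1
    · simp [pr_inj] at h1
    · simp only [pr_inj] at h1
      obtain ⟨_, rfl⟩ := h1
      exact ⟨x, T, hT, h2⟩
  · rintro ⟨x, T, h1, h2⟩
    exact ⟨T, h1, Or.inr (Or.inr (Or.inr (Or.inr (Or.inr ⟨b, x, rfl, h2⟩))))⟩

/-- coding of tuples -/
def enc : {n : ℕ} → (Fin n → M) → M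
  | 0, _ => 0
  | _ + 1, v => pr (enc (Fin.init v)) (v (Fin.last _))

theorem enc_snoc {n : ℕ} (v : Fin n → M) (x : M) :
    enc (Fin.snoc v x : Fin (n + 1) → M) = pr (enc v) x := by
  simp [enc]

theorem var_code {n : ℕ} (i : Fin n) :
    ∃ tc : M, ∀ v : Fin n → M, ∀ x, Der (tf tc (enc v) x) ↔ x = v i := by
  induction n with
  | zero => exact i.elim0
  | succ n ih =>
    refine Fin.lastCases ?_ (fun i => ?_) i
    · exact ⟨pr 0 0, fun v x => by simp only [enc]; exact der_here⟩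
    · obtain ⟨tc, h⟩ := ih i
      exact ⟨pr 1 tc, fun v x => by
        simp only [enc]
        rw [der_up, h]
        rfl⟩

theorem Tm0.code {n : ℕ} {t : (Fin n → M) → M} (ht : Tm0 t) :
    ∃ tc : M, ∀ v : Fin n → M, ∀ x, Der (tf tc (enc v) x) ↔ x = t v := by
  induction ht with
  | var i => exact var_code i
  | const a => exact ⟨pr 2 a, fun v x => der_const⟩
  | add _ _ h1 h2 =>
    obtain ⟨a, ha⟩ := h1
    obtain ⟨b, hb⟩ := h2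
    exact ⟨pr 3 (pr a b), fun v x => by rw [der_add]; simp [ha, hb]⟩
  | mul _ _ h1 h2 =>
    obtain ⟨a, ha⟩ := h1
    obtain ⟨b, hb⟩ := h2
    exact ⟨pr 4 (pr a b), fun v x => by rw [der_mul]; simp [ha, hb]⟩
  | exp _ h1 =>
    obtain ⟨a, ha⟩ := h1
    exact ⟨pr 5 a, fun v x => by rw [der_exp]; simp [ha]⟩

theorem IsD0.code {n : ℕ} {R : (Fin n → M) → Prop} (hR : IsD0 R) :
    (∃ c : M, ∀ v : Fin n → M, Der (ff c (enc v)) ↔ R v) ∧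
    (∃ c : M, ∀ v : Fin n → M, Der (ff c (enc v)) ↔ ¬ R v) := by
  induction hR with
  | eq h1 h2 =>
    obtain ⟨a, ha⟩ := h1.code
    obtain ⟨b, hb⟩ := h2.code
    refine ⟨⟨pr 0 (pr a b), fun v => by rw [der_eq]; simp [ha, hb]⟩,
      ⟨pr 2 (pr (pr 1 (pr a b)) (pr 1 (pr b a))), fun v => ?_⟩⟩
    rw [der_or, der_lt, der_lt]
    simp only [ha, hb, exists_and_left, exists_eq_left]
    exact lt_or_lt_iff_ne
  | lt h1 h2 =>
    obtain ⟨a, ha⟩ := h1.code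
    obtain ⟨b, hb⟩ := h2.code
    refine ⟨⟨pr 1 (pr a b), fun v => by rw [der_lt]; simp [ha, hb]⟩,
      ⟨pr 2 (pr (pr 1 (pr b a)) (pr 0 (pr a b))), fun v => ?_⟩⟩
    rw [der_or, der_lt, der_eq]
    simp only [ha, hb, exists_and_left, exists_eq_left]
    rw [not_lt, le_iff_lt_or_eq, eq_comm (a := _) (b := _)]
  | bot =>
    refine ⟨⟨pr 1 (pr (pr 2 0) (pr 2 0)), fun v => ?_⟩, ⟨pr 0 (pr (pr 2 0) (pr 2 0)), fun v => ?_⟩⟩
    · rw [der_lt]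
      simp [der_const]
    · rw [der_eq]
      simp [der_const]
  | imp _ _ h1 h2 =>
    obtain ⟨⟨a, ha⟩, ⟨a', ha'⟩⟩ := h1
    obtain ⟨⟨b, hb⟩, ⟨b', hb'⟩⟩ := h2
    refine ⟨⟨pr 2 (pr a' b), fun v => ?_⟩, ⟨pr 3 (pr a b'), fun v => ?_⟩⟩
    · rw [der_or, ha', hb]; tauto
    · rw [der_and, ha, hb']; tauto
  | ball ht _ ih =>
    obtain ⟨a, ha⟩ := ht.code
    obtain ⟨⟨b, hb⟩, ⟨b', hb'⟩⟩ := ih
    refine ⟨⟨pr 4 (pr a b), fun v => ?_⟩,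
      ⟨pr 5 (pr 3 (pr (pr 1 (pr (pr 0 0) (pr 1 a))) b')), fun v => ?_⟩⟩
    · rw [der_ball]
      simp only [ha, exists_eq_left]
      simp only [← enc_snoc, hb]
    · rw [der_ex]
      simp only [der_and, der_lt, der_here, der_up, ha]
      simp only [← enc_snoc, hb']
      push Not
      simp

/-- matrix of the universal Sigma one relation -/
noncomputable def thetaU (M : Type u) [IS1 M] : (M × M) × M → Prop :=
  (SN.sn (R := fun w : M × M => Der (ff w.1 (pr 0 w.2)))).choose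

theorem thetaU_D0 : D0 (thetaU M) :=
  (SN.sn (R := fun w : M × M => Der (ff w.1 (pr 0 w.2)))).choose_spec.1

theorem thetaU_spec (e x : M) : Der (ff e (pr 0 x)) ↔ ∃ y, thetaU M ((e, x), y) :=
  (SN.sn (R := fun w : M × M => Der (ff w.1 (pr 0 w.2)))).choose_spec.2 (e, x)

/-- stage approximations to the universal Sigma one relation -/
def Us (e x s : M) : Prop := x < s ∧ ∃ y, y < s ∧ thetaU M ((e, x), y)

theorem D1_Us : D1 (fun w : (M × M) × M => Us w.1.1 w.1.2 w.2) := by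
  have h : D1 (fun w : ((M × M) × M) × M => thetaU M ((w.1.1.1, w.1.1.2), w.2)) :=
    D1.of_D0 (thetaU_D0.comp (fun w : ((M × M) × M) × M => ((w.1.1.1, w.1.1.2), w.2)))
  unfold Us
  infer_instance

instance D1.Us (f g h : Γ → M) [hf : Fn f] [hg : Fn g] [hh : Fn h] :
    D1 (fun γ => Us (f γ) (g γ) (h γ)) := D1_Us.app3 f g h

theorem Us.mono {e x s s' : M} (h : Us e x s) (hs : s ≤ s') : Us e x s' := by
  obtain ⟨h1, y, h2, h3⟩ := h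
  exact ⟨lt_of_lt_of_le h1 hs, y, lt_of_lt_of_le h2 hs, h3⟩

theorem Us.lt {e x s : M} (h : Us e x s) : x < s := h.1

theorem Us_iff (e x : M) : (∃ s, Us e x s) ↔ Der (ff e (pr 0 x)) := by
  rw [thetaU_spec]
  constructor
  · rintro ⟨s, _, y, _, h⟩
    exact ⟨y, h⟩
  · rintro ⟨y, h⟩
    exact ⟨max x y + 1, (lt_succ _ _).2 (le_max_left _ _), y, (lt_succ _ _).2 (le_max_right _ _), h⟩

/-- every Sigma one set is enumerated by the universal one -/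
theorem universal (P : M → Prop) [hP : SN (fun w : M × M => P w.2)] :
    ∃ e : M, ∀ x, P x ↔ ∃ s, Us e x s := by
  obtain ⟨θ, h1, h2⟩ := (SN.of1 hP).sn
  obtain ⟨⟨c, hc⟩, _⟩ := h1.d0.code
  refine ⟨pr 5 c, fun x => ?_⟩
  rw [h2, Us_iff, der_ex]
  refine exists_congr fun y => ?_
  have hc' : ∀ v : Fin 2 → M, Der (ff c (enc v)) ↔ θ (v 0, v 1) := hc
  have := hc' ![x, y]
  have e1 : enc (![x, y] : Fin 2 → M) = pr (pr 0 x) y := by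
    simp [enc, Fin.init]
  rw [e1] at this
  exact this.symm

end

end Pool.Agent.H54
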