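import Pool.Agent.H54.Constr

/-!
Combinatorial verification of the construction.
-/

set_option synthInstance.maxSize 100000

namespace Pool.Agent.H54

universe u

section

variable {M : Type u} [IS1 M] {Γ Δ : Type u} [Cx M Γ] [Cx M Δ]

instance instD1FFH (f g : Γ → M) [hf : Fn f] [hg : Fn g] : D1 (fun γ => FF HH (f γ) (g γ)) := by
  have : D1 (fun γ => FF (mm (hh (f γ))) (f γ) (g γ)) := inferInstance
  exact this.congr fun γ => (HH_agree _).FF

instance instD1ExtH (f g : Γ → M) [hf : Fn f] [hg : Fn g] : D1 (fun γ => Ext HH (f γ) (g γ)) := by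
  have : D1 (fun γ => Ext (mm (hh (f γ))) (f γ) (g γ)) := inferInstance
  exact this.congr fun γ => (HH_agree _).Ext

instance instD1XXH (f g : Γ → M) [hf : Fn f] [hg : Fn g] : D1 (fun γ => XX HH (f γ) (g γ)) := by
  have : D1 (fun γ => XX (mm (hh (f γ))) (f γ) (g γ)) := inferInstance
  exact this.congr fun γ => (HH_agree _).XX

instance instD1AAH (f g : Γ → M) [hf : Fn f] [hg : Fn g] : D1 (fun γ => AA HH (f γ) (g γ)) := by
  have : D1 (fun γ => AA (mm (hh (f γ))) (f γ) (g γ)) := inferInstance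
  exact this.congr fun γ => (HH_agree _).AA

instance instD1DDH (f g : Γ → M) [hf : Fn f] [hg : Fn g] : D1 (fun γ => DD HH (f γ) (g γ)) := by
  have : D1 (fun γ => DD (mm (hh (f γ))) (f γ) (g γ)) := inferInstance
  exact this.congr fun γ => (HH_agree _).DD

instance instD1TTH (f g h : Γ → M) [hf : Fn f] [hg : Fn g] [hh' : Fn h] :
    D1 (fun γ => TT HH (f γ) (g γ) (h γ)) := by
  have : D1 (fun γ => TT (mm (hh (g γ))) (f γ) (g γ) (h γ)) := inferInstance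
  exact this.congr fun γ => (HH_agree _).TT

instance instD1ValH (f g h : Γ → M) [hf : Fn f] [hg : Fn g] [hh' : Fn h] :
    D1 (fun γ => Val HH (f γ) (g γ) (h γ)) := by
  have : D1 (fun γ => Val (mm (hh (f γ))) (f γ) (g γ) (h γ)) := inferInstance
  exact this.congr fun γ => (HH_agree _).Val

instance instD1NoEvH (f g h : Γ → M) [hf : Fn f] [hg : Fn g] [hh' : Fn h] :
    D1 (fun γ => NoEv HH (f γ) (g γ) (h γ)) := by
  have : D1 (fun γ => NoEv (mm (hh (h γ))) (f γ) (g γ) (h γ)) := inferInstance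
  exact this.congr fun γ => (HH_agree _).NoEv

instance instD1NoLtH (f g h : Γ → M) [hf : Fn f] [hg : Fn g] [hh' : Fn h] :
    D1 (fun γ => NoLt HH (f γ) (g γ) (h γ)) := by
  have : D1 (fun γ => NoLt (mm (hh (h γ))) (f γ) (g γ) (h γ)) := inferInstance
  exact this.congr fun γ => (HH_agree _).NoLt

instance instD1AgrH (f g h : Γ → M) [hf : Fn f] [hg : Fn g] [hh' : Fn h] :
    D1 (fun γ => Agr HH (f γ) (g γ) (h γ)) := by
  have : D1 (fun γ => Agr (mm (hh (h γ))) (f γ) (g γ) (h γ)) := inferInstance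
  exact this.congr fun γ => (HH_agree _).Agr

instance instD1PermitH (f g h : Γ → M) [hf : Fn f] [hg : Fn g] [hh' : Fn h] :
    D1 (fun γ => Permit HH (f γ) (g γ) (h γ)) := by
  have : D1 (fun γ => Permit (mm (hh (h γ))) (f γ) (g γ) (h γ)) := inferInstance
  exact this.congr fun γ => (HH_agree _).Permit

instance instD1ActH (f g h : Γ → M) [hf : Fn f] [hg : Fn g] [hh' : Fn h] :
    D1 (fun γ => Act HH (f γ) (g γ) (h γ)) := by
  have : D1 (fun γ => Act (mm (hh (h γ))) (f γ) (g γ) (h γ)) := inferInstance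
  exact this.congr fun γ => (HH_agree _).Act

/-- active requests with a blocking requirement -/
def ActBlk (H : M → Prop) (p k j s : M) : Prop := Act H p j s ∧ Blk H k j s

theorem D1_ActBlk : D1 (fun w : ((M × M) × M) × M => ActBlk HH w.1.1.1 w.1.1.2 w.1.2 w.2) := by
  have : D1 (fun w : ((M × M) × M) × M => Act HH w.1.1.1 w.1.2 w.2 ∧
    Blk (mm (hh w.2)) w.1.1.2 w.1.2 w.2) := inferInstance
  refine this.congr fun w => ?_
  unfold ActBlk
  constructor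
  · rintro ⟨h1, h2⟩
    exact ⟨h1, ((HH_agree _).Blk h1.1.le).1 h2⟩
  · rintro ⟨h1, h2⟩
    exact ⟨h1, ((HH_agree _).Blk h1.1.le).2 h2⟩

instance instD1ActBlk (f g h k : Γ → M) [hf : Fn f] [hg : Fn g] [hh' : Fn h] [hk : Fn k] :
    D1 (fun γ => ActBlk HH (f γ) (g γ) (h γ) (k γ)) :=
  D1.app4 (P := fun a b c d => ActBlk HH a b c d) D1_ActBlk f g h k

/-! Combinatorics; everything below is about a set of stages which satisfies the recursion. -/

section comb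

variable {H : M → Prop} (hH : ∀ s, H s ↔ Elig H s)

include hH

theorem req_of {j : M} (hj : H j) (htg : tg j ≤ 1) : ReqOK H j := by
  rcases ((hH j).1 hj).2 with ⟨h1, _⟩ | ⟨_, _, h3, _⟩
  · rw [h1] at htg
    exact absurd htg (not_le.2 one_lt_two')
  · exact h3

theorem fresh_of {j : M} (hj : H j) (htg : tg j = 0) : Fresh H j := by
  rcases ((hH j).1 hj).2 with ⟨h1, _⟩ | ⟨_, _, _, ⟨_, h4⟩ | ⟨h4, _⟩⟩
  · rw [h1] at htg
    exact absurd htg two_ne_zero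
  · exact h4
  · rw [h4] at htg
    exact absurd htg one_ne_zero

theorem grant_of {g : M} (hg : H g) (htg : tg g = 2) :
    Act H (pri g) (dt g) g ∧ Grantable H (pri g) (dt g) g := by
  rcases ((hH g).1 hg).2 with ⟨_, h2, h3⟩ | ⟨h1, _⟩
  · exact ⟨h2, h3⟩
  · rw [htg] at h1
    exact absurd h1 (not_le.2 one_lt_two')

theorem not_grantable_of {v j : M} (hv : H v) (htg : tg v ≤ 1) (hj : Act H (pri v) j v) :
    ¬ Grantable H (pri v) j v := by
  rcases ((hH v).1 hv).2 with ⟨h1, _⟩ | ⟨_, h2, _⟩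
  · rw [h1] at htg
    exact absurd htg (not_le.2 one_lt_two')
  · exact h2 j hj.1 hj

theorem tag_cases {j : M} (hj : H j) : tg j ≤ 1 ∨ tg j = 2 := by
  rcases ((hH j).1 hj).2 with ⟨h1, _⟩ | ⟨h1, _⟩
  · exact Or.inr h1
  · exact Or.inl h1

/-- uniqueness of entry -/
theorem entry_unique {t t' : M} (ht : H t) (h0 : tg t = 0) (ht' : H t') (h0' : tg t' = 0)
    (he : rm t = rm t') : t = t' := by
  have key : ∀ {t t' : M}, H t → tg t = 0 → H t' → tg t' = 0 → rm t = rm t' → ¬ t < t' := by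
    intro t t' ht h0 ht' h0' he hlt
    obtain ⟨r, hr, hr1, hr2⟩ := fresh_of hH ht h0
    obtain ⟨r', hr', hr1', hr2'⟩ := fresh_of hH ht' h0'
    rw [hr1, hr1'] at he
    have h1 : pr (pri t) r = pr (pri t') r' := by
      have h2 := add_right_cancel he
      have h3 : pr (pri t) r * 2 + 0 = pr (pri t') r' * 2 + 0 := by
        rw [mul_comm, mul_comm (pr (pri t') r')]; simpa using h2
      exact (div_unique h3 (by norm_num) (by norm_num)).1
    obtain ⟨h4, h5⟩ := pr_inj.1 h1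
    have h6 : rt t < t := (req_of hH ht (by rw [h0]; exact zero_le)).1
    have h7 := hr2' t hlt ⟨by rw [← h5]; exact hr.trans h6.le, ht⟩
    rw [h4] at h7
    exact lt_irrefl _ h7
  exact le_antisymm (not_lt.1 (key ht' h0' ht h0 he.symm)) (not_lt.1 (key ht h0 ht' h0' he))

/-- late numbers are large -/
theorem late_large {u j : M} (hu : H u) (h0 : tg u = 0) (hj : H j) (hju : j < u)
    (hp : pri j ≤ pri u) : j < rm u := by
  obtain ⟨r, hr, hr1, hr2⟩ := fresh_of hH hu h0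
  have h1 : j < r := by
    by_contra h
    push Not at h
    exact absurd (hr2 j hju ⟨h, hj⟩) (not_lt.2 hp)
  rw [hr1]
  have h2 : r ≤ pr (pri u) r := le_pr_right _ _
  have h3 : pr (pri u) r ≤ 2 * pr (pri u) r := by
    rw [two_mul]; exact le_self_add
  exact lt_of_lt_of_le h1 (h2.trans (h3.trans le_self_add))

theorem late_rt {u j : M} (hu : H u) (h0 : tg u ≤ 1) (hj : H j) (hju : j < u)
    (hp : pri j ≤ pri u) : j < rt u := by
  by_contra h
  push Not at h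
  exact absurd ((req_of hH hu h0).2.1 j hju ⟨h, hj⟩) (not_lt.2 hp)

theorem late_grant {g i : M} (hg : H g) (h2 : tg g = 2) (hi : H i) (hig : i < g)
    (hp : pri i < pri g) : i < rt (dt g) := by
  obtain ⟨⟨h3, h4, h5, h6, h7⟩, _⟩ := grant_of hH hg h2
  have h8 : i < dt g := by
    by_contra h
    push Not at h
    exact absurd (h7 i hig ⟨h, hi⟩) (not_le.2 hp)
  exact late_rt hH h4 h5 hi h8 (by rw [h6]; exact hp.le)

theorem Ext.late {g x i : M} (hE : Ext H g x) (hg : H g) (hi : H i) (hig : i < g)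
    (hp : pri i < pri g) : ∃ u, i < u ∧ u < g ∧ H u ∧ tg u = 0 ∧ rm u = x := by
  obtain ⟨h1, h2, h3, h4⟩ := hE
  obtain ⟨u, hu, hu1, hu2, hu3⟩ := h3
  have h5 := late_grant hH hg h1 hi hig hp
  refine ⟨u, ?_, hu, hu1, hu2, hu3⟩
  by_contra h
  push Not at h
  exact h4 ⟨u, lt_of_le_of_lt h h5, hu1, hu2, hu3⟩

theorem FF.mono {s s' x : M} (h : FF H s x) (hs : s ≤ s') : FF H s' x := by
  obtain ⟨t, ht, h1⟩ := h
  exact ⟨t, lt_of_lt_of_le ht hs, h1⟩

theorem XX.mono {s s' x : M} (h : XX H s x) (hs : s ≤ s') : XX H s' x := by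
  obtain ⟨t, ht, h1⟩ := h
  exact ⟨t, lt_of_lt_of_le ht hs, h1⟩

theorem AA.mono {s s' x : M} (h : AA H s x) (hs : s ≤ s') : AA H s' x := by
  obtain ⟨t, ht, h1, h2, h3, h4⟩ := h
  exact ⟨t, lt_of_lt_of_le ht hs, h1, h2, XX.mono hH h3 hs, h4⟩

theorem TT.mono {p s s' x : M} (h : TT H p s x) (hs : s ≤ s') : TT H p s' x := by
  rcases h with ⟨n, hn, h1, h2⟩ | h
  · exact Or.inl ⟨n, hn, h1, h2.mono hs⟩
  · exact Or.inr (FF.mono hH h hs)

/-- preservation -/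
theorem pres_FF {i s x : M} (hi : H i) (hs : i < s) (hno : NoEv H (pri i) (i + 1) s) (hx : x ≤ i) :
    FF H s x ↔ FF H (i + 1) x := by
  refine ⟨?_, fun h => FF.mono hH h (succ_le_iff'.2 hs)⟩
  rintro ⟨u, hu, h1, h2, h3⟩
  refine ⟨u, ?_, h1, h2, h3⟩
  by_contra h
  push Not at h
  have h4 := hno u hu ⟨h, h1⟩
  have h5 := late_large hH h1 h2 hi (succ_le_iff'.1 h) h4.le
  rw [h3] at h5
  exact absurd h5 (not_lt.2 hx)

theorem pres_XX' {i s x : M} (hi : H i) (hno : NoEv H (pri i) (i + 1) s)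
    (hX : XX H s x) : XX H (i + 1) x ∨ ∃ u, i < u ∧ u < s ∧ H u ∧ tg u = 0 ∧ rm u = x := by
  obtain ⟨g, hg, h1, h2⟩ := hX
  rcases lt_or_ge g (i + 1) with h | h
  · exact Or.inl ⟨g, h, h1, h2⟩
  · have h3 := hno g hg ⟨h, h1⟩
    obtain ⟨u, hu1, hu2, hu3⟩ := Ext.late hH h2 h1 hi (succ_le_iff'.1 h) h3
    exact Or.inr ⟨u, hu1, hu2.trans hg, hu3⟩

theorem pres_XX {i s x : M} (hi : H i) (hs : i < s) (hno : NoEv H (pri i) (i + 1) s)
    (hx : x ≤ i) : XX H s x ↔ XX H (i + 1) x := by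
  refine ⟨fun h => ?_, fun h => XX.mono hH h (succ_le_iff'.2 hs)⟩
  rcases pres_XX' hH hi hno h with h | ⟨u, hu1, hu2, hu3, hu4, hu5⟩
  · exact h
  · have h4 := hno u hu2 ⟨succ_le_iff'.2 hu1, hu3⟩
    have h5 := late_large hH hu3 hu4 hi hu1 h4.le
    rw [hu5] at h5
    exact absurd h5 (not_lt.2 hx)

theorem le_two_mul' (t : M) : t ≤ 2 * t := by
  rw [two_mul]; exact le_self_add

theorem pres_AA {i s x : M} (hi : H i) (hs : i < s) (hno : NoEv H (pri i) (i + 1) s)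
    (hx : x ≤ i) : AA H s x ↔ AA H (i + 1) x := by
  refine ⟨fun h => ?_, fun h => AA.mono hH h (succ_le_iff'.2 hs)⟩
  obtain ⟨t, ht, h1, h2, h3, h4⟩ := h
  have hti : t ≤ i := (le_two_mul' hH t).trans (h4 ▸ hx)
  refine ⟨t, (lt_succ _ _).2 hti, h1, h2, ?_, h4⟩
  rcases pres_XX' hH hi hno h3 with h | ⟨u, hu1, hu2, hu3, hu4, hu5⟩
  · exact h
  · have := entry_unique hH hu3 hu4 h1 h2 hu5
    rw [this] at hu1
    exact absurd hu1 (not_lt.2 hti)

theorem pres_DD {i s x : M} (hi : H i) (hs : i < s) (hno : NoEv H (pri i) (i + 1) s)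
    (hx : x ≤ i) : DD H s x ↔ DD H (i + 1) x := by
  unfold DD
  rw [pres_AA hH hi hs hno hx, pres_FF hH hi hs hno hx, pres_XX hH hi hs hno hx]

theorem FF_odd {s x : M} (h : FF H s x) : ∃ k, x = 2 * k + 1 := by
  obtain ⟨t, _, h1, h2, h3⟩ := h
  obtain ⟨r, _, hr, _⟩ := fresh_of hH h1 h2
  exact ⟨_, h3.symm.trans hr⟩

theorem XX_FF {s x : M} (h : XX H s x) : FF H s x := by
  obtain ⟨g, hg, _, h2⟩ := h
  exact FF.mono hH h2.2.2.1 hg.le

theorem DD_not_XX {s x : M} (h : DD H s x) : ¬ XX H s x := by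
  rcases h with ⟨t, _, _, _, _, h4⟩ | ⟨_, h⟩
  · intro h'
    obtain ⟨k, hk⟩ := FF_odd hH (XX_FF hH h')
    exact even_ne_odd (h4.symm.trans hk)
  · exact h

theorem Agr.mono {k d d' s : M} (h : Agr H k d s) (hd : d' ≤ d) : Agr H k d' s :=
  fun x hx => h x (hx.trans hd)

/-- the key lemma on labels -/
theorem label_lemma {v u q : M} (hv : H v) (hu : H u) (hvu : v < u) (hq : pri v = q)
    (hq' : pri u = q) (hno : NoLt H q v u) (htu : tg u ≤ 1) :
    ∃ k, k ≤ q ∧ (∃ j, j < u ∧ ActBlk H q k j u) ∧ ¬ ∃ j, j < v ∧ ActBlk H q k j v := by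
  have htv : tg v ≤ 1 := by
    rcases tag_cases hH hv with h | h
    · exact h
    · refine absurd ?_ ((hH u).1 hu).1
      rw [hq']
      exact ⟨v, hvu, hv, h, hq, hno⟩
  have hact : Act H q v u := ⟨hvu, hv, htv, hq, hno⟩
  have hng := not_grantable_of hH hu htu (by rw [hq']; exact hact)
  rw [hq'] at hng
  unfold Grantable at hng
  push Not at hng
  obtain ⟨k, hk, hB⟩ := hng
  refine ⟨k, hk, ⟨v, hvu, hact, hB⟩, ?_⟩
  rintro ⟨j, hjv, ⟨hjv', hj, htj, hpj, hnoj⟩, hBj⟩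
  obtain ⟨d, hd, ⟨td, htd, htd1, htd2, htd3⟩, hd2, hd3⟩ := hB
  obtain ⟨d', hd', ⟨te, hte, hte1, hte2, hte3⟩, he2, he3⟩ := hBj
  have rv := req_of hH hv htv
  have rj := req_of hH hj htj
  have h1 : j < rt v := late_rt hH hv htv hj hjv (by rw [hpj, hq])
  have h2 : rt v ≤ td := by
    by_contra h
    push Not at h
    exact hd2 ⟨td, h, htd1, htd2, htd3⟩
  have h3 : q ≤ pri td := by
    rcases lt_or_ge td v with h | h
    · exact hnoj td h ⟨h1.le.trans h2, htd1⟩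
    · exact hno td htd ⟨h, htd1⟩
  have h4 : j < d := by
    rw [← htd3]
    exact late_large hH htd1 htd2 hj (lt_of_lt_of_le h1 h2) (by rw [hpj]; exact h3)
  have h5 : d < v := hd.lt.trans (rv.2.2.2.2.1.trans rv.1)
  have h6 : td ≤ v := by
    by_contra h
    push Not at h
    have := late_large hH htd1 htd2 hv h (by rw [hq]; exact h3)
    rw [htd3] at this
    exact absurd this (not_lt.2 h5.le)
  have h7 : ∃ s', s' ≤ td ∧ d < s' ∧ Agr H k d s' := by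
    by_contra h
    push Not at h
    exact hd3 ⟨td, htd, ⟨htd1, htd2, htd3⟩, Or.inl h⟩
  obtain ⟨s', hs1, hs2, hs3⟩ := h7
  have h8 : d' < j := hd'.lt.trans (rj.2.2.2.2.1.trans rj.1)
  have h9 : te ≤ j := by
    by_contra h
    push Not at h
    have h10 := hnoj te hte ⟨h.le, hte1⟩
    have := late_large hH hte1 hte2 hj h (by rw [hpj]; exact h10)
    rw [hte3] at this
    exact absurd this (not_lt.2 h8.le)
  refine he3 ⟨te, hte, ⟨hte1, hte2, hte3⟩, Or.inr ⟨s', hs1.trans h6, ?_, ?_⟩⟩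
  · exact lt_of_le_of_lt h9 (h4.trans hs2)
  · exact Agr.mono hH hs3 (h8.trans h4).le

end comb

/-- labels of events -/
def Lab (v l : M) : Prop := (tg v = 2 ∧ l = ex2 (pri v + 1)) ∨
  (tg v ≤ 1 ∧ l < ex2 (pri v + 1) ∧
    ∀ k, k ≤ pri v → (Mem k l ↔ ∃ j, j < v ∧ ActBlk HH (pri v) k j v))

theorem D1_Lab : D1 (fun w : M × M => Lab w.1 w.2) := by
  unfold Lab; infer_instance

instance instD1Lab (f g : Γ → M) [hf : Fn f] [hg : Fn g] : D1 (fun γ => Lab (f γ) (g γ)) :=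
  D1_Lab.app2 f g

theorem exists_Lab {v : M} (hv : HH v) : ∃ l, Lab v l ∧ l ≤ ex2 (pri v + 1) := by
  rcases tag_cases HH_Elig hv with h | h
  · obtain ⟨c, hc, h1⟩ := compr_D1 (fun k : M => ∃ j, j < v ∧ ActBlk HH (pri v) k j v) (pri v + 1)
    refine ⟨c, Or.inr ⟨h, hc, fun k hk => ?_⟩, hc.le⟩
    rw [h1]
    exact ⟨fun h => h.2, fun h => ⟨(lt_succ _ _).2 hk, h⟩⟩
  · exact ⟨_, Or.inl ⟨h, rfl⟩, le_rfl⟩

theorem Lab_ne {v u l q : M} (hv : HH v) (hu : HH u) (hvu : v < u) (hq : pri v = q)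
    (hq' : pri u = q) (hno : NoLt HH q v u) (h1 : Lab v l) (h2 : Lab u l) : False := by
  rcases h1 with ⟨h3, _⟩ | ⟨h3, h4, h5⟩
  · refine absurd ?_ ((HH_Elig u).1 hu).1
    rw [hq']
    exact ⟨v, hvu, hv, h3, hq, hno⟩
  · rcases h2 with ⟨_, h6⟩ | ⟨h6, _, h7⟩
    · rw [hq'] at h6
      rw [hq, h6] at h4
      exact lt_irrefl _ h4
    · obtain ⟨k, hk, h8, h9⟩ := label_lemma HH_Elig hv hu hvu hq hq' hno h6
      rw [hq] at h5
      rw [hq'] at h7
      exact h9 ((h5 k hk).1 ((h7 k hk).2 h8))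

/-- the pair `(q, l)` is current at stage `s` -/
def Cur (s q l : M) : Prop := ∃ v, v ≤ s ∧ (HH v ∧ pri v = q ∧ NoEv HH q (v + 1) (s + 1) ∧ Lab v l)

theorem D1_Cur : D1 (fun w : (M × M) × M => Cur w.1.1 w.1.2 w.2) := by
  unfold Cur; infer_instance

instance instD1Cur (f g h : Γ → M) [hf : Fn f] [hg : Fn g] [hh : Fn h] :
    D1 (fun γ => Cur (f γ) (g γ) (h γ)) := D1_Cur.app3 f g h

theorem Cur_inj {s1 s2 p : M} (h12 : s1 < s2) (hs2 : HH s2) (hp : pri s2 ≤ p) :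
    ∃ q l, q ≤ p ∧ l ≤ ex2 (p + 1) ∧ Cur s2 q l ∧ ¬ Cur s1 q l := by
  obtain ⟨q, ⟨u0, hu0, hu01, hu02, hu03⟩, hqmin⟩ :=
    lnp_SN (fun q : M => ∃ u, u ≤ s2 ∧ (s1 < u ∧ HH u ∧ pri u = q)) (a := pri s2)
      ⟨s2, le_rfl, h12, hs2, rfl⟩
  obtain ⟨u, ⟨hu1, hu2, hu3, hu4⟩, humax⟩ :=
    max_SN (fun u : M => u ≤ s2 ∧ s1 < u ∧ HH u ∧ pri u = q) (a := u0) (b := s2)
      ⟨hu0, hu01, hu02, hu03⟩ (fun x hx => hx.1)
  have hqp : q ≤ p := by
    by_contra h
    push Not at h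
    exact hqmin (pri s2) (lt_of_le_of_lt hp h) ⟨s2, le_rfl, h12, hs2, rfl⟩
  obtain ⟨l, hl, hlb⟩ := exists_Lab hu3
  have hno : NoEv HH q (u + 1) (s2 + 1) := by
    rintro w hw ⟨hw1, hw2⟩
    have hws : w ≤ s2 := le_of_lt_succ' hw
    have huw : u < w := succ_le_iff'.1 hw1
    rcases lt_trichotomy q (pri w) with h | h | h
    · exact h
    · exact absurd (humax w ⟨hws, hu2.trans huw, hw2, h.symm⟩) (not_le.2 huw)
    · exact absurd ⟨w, hws, hu2.trans huw, hw2, rfl⟩ (hqmin _ h)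
  refine ⟨q, l, hqp, hlb.trans (ex2_le_ex2 ?_), ⟨u, hu1, hu3, hu4, hno, hl⟩, ?_⟩
  · rw [hu4]; exact (add_le_add_iff_right 1).2 hqp
  · rintro ⟨v, hv, hv1, hv2, hv3, hv4⟩
    have hvu : v < u := lt_of_le_of_lt hv hu2
    refine Lab_ne hv1 hu3 hvu hv2 hu4 ?_ hv4 hl
    rintro w hw ⟨hw1, hw2⟩
    rcases hw1.eq_or_lt with rfl | hw1
    · exact hv2.ge
    · rcases le_or_gt w s1 with h | h
      · exact (hv3 w ((lt_succ _ _).2 h) ⟨succ_le_iff'.2 hw1, hw2⟩).le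
      · by_contra hlt
        push Not at hlt
        exact hqmin _ hlt ⟨w, hw.le.trans hu1, h, hw2, rfl⟩

/-- only boundedly many events for each priority -/
theorem bounded_events (p : M) : ∃ s0, ∀ s, s0 ≤ s → HH s → p < pri s := by
  set L : M := ex2 (p + 1) with hL
  set b : M := pr p L + 1 with hb
  obtain ⟨B, hB⟩ := scoll_SN (fun c s : M => HH s ∧ pri s ≤ p ∧
    ∀ z, z < b → (Mem z c ↔ ∃ q, q ≤ p ∧ ∃ l, l ≤ L ∧ (z = pr q l ∧ Cur s q l))) (ex2 b)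
  refine ⟨B, fun s hs hHs => ?_⟩
  by_contra hlt
  push Not at hlt
  obtain ⟨c, hc, hc2⟩ := compr_D1 (fun z : M => ∃ q, q ≤ p ∧ ∃ l, l ≤ L ∧ (z = pr q l ∧ Cur s q l)) b
  obtain ⟨s', hs', hHs', hp', hc'⟩ := hB c hc ⟨s, hHs, hlt, fun z hz => by
    rw [hc2]; exact ⟨fun h => h.2, fun h => ⟨hz, h⟩⟩⟩
  obtain ⟨q, l, hq, hl, h1, h2⟩ := Cur_inj (lt_of_lt_of_le hs' hs) hHs hlt
  have hz : pr q l < b := (lt_succ _ _).2 (pr_mono hq hl)
  have h3 : Mem (pr q l) c := (hc2 _).2 ⟨hz, q, hq, l, hl, rfl, h1⟩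
  obtain ⟨q', _, l', _, h4, h5⟩ := (hc' _ hz).1 h3
  obtain ⟨rfl, rfl⟩ := pr_inj.1 h4
  exact h2 h5

end

end Pool.Agent.H54
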